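import Pool.Agent.Work.MP_1a5986_lc.WO.Defs

/-!
MODULE Bridge (S-M).  MP_1a5986_lc, board modsoc.  Scores and net scores.

* `expScore_eq`: termwise `(b+1) p i j + (1 - p i j - p j i) = 1 + (b p i j - p j i)`.
* `scoreOn_eq`: termwise, `pts (b+1) r = 1 + val b r` for the three results `r`.
* `dg_top`: `⊤.Adj i j ↔ i ≠ j`.
* `score_top`: `T.score a i = a * card {j ≠ i, win} + card {j ≠ i, draw}`; write the cards as sums.
* `expected_of_tournament`: take `p i j = if T.res i j = win ∧ i ≠ j then 1 else 0`. `Mixed`: if `i ≠ j`
  and both `p i j = 1` and `p j i = 1`, then `T.res j i = (T.res i j).swap = loss`, contradiction. For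
  adjacent `i, j` (so `i ≠ j`) the term is `a, 1, 0` for win, draw, loss (loss iff `T.res j i = win`).
-/

set_option autoImplicit false

namespace Pool.Agent.Work.MP_1a5986_lc.WO

open Pool.Agent.Work.MP_1a5986_lc

variable {n : ℕ}

theorem expScore_eq (G : SimpleGraph (Fin n)) (b : ℕ) (p : Fin n → Fin n → ℝ) (i : Fin n) :
    expScore G (b + 1) p i = (dg G i : ℝ) + net G b p i := by
  classical
  unfold expScore dg net
  push_cast
  rw [← Finset.sum_add_distrib]
  refine Finset.sum_congr rfl fun j _ => ?_
  split_ifs
  · ring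
  · simp

theorem scoreOn_eq (G : SimpleGraph (Fin n)) (b : ℕ) (T : Tournament (Fin n)) (i : Fin n) :
    (scoreOn G (b + 1) T i : ℤ) = (dg G i : ℤ) + netT G b T i := by
  classical
  unfold scoreOn dg netT
  push_cast
  rw [← Finset.sum_add_distrib]
  refine Finset.sum_congr rfl fun j _ => ?_
  split_ifs
  · cases T.res i j <;> simp [pts, val, add_comm]
  · simp

theorem dg_top (i : Fin n) : dg (⊤ : SimpleGraph (Fin n)) i = n - 1 := by
  classical
  have h0 : dg (⊤ : SimpleGraph (Fin n)) i
      = ∑ j, if j ∈ Finset.univ.erase i then 1 else 0 := by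
    unfold dg
    refine Finset.sum_congr rfl fun j _ => ?_
    by_cases hij : i = j
    · subst hij
      simp
    · have hji : j ≠ i := fun h => hij h.symm
      simp [hij, hji]
  rw [h0, Finset.sum_ite_mem, Finset.univ_inter, ← Finset.card_eq_sum_ones,
    Finset.card_erase_of_mem (Finset.mem_univ i), Finset.card_univ, Fintype.card_fin]

theorem score_top (a : ℕ) (T : Tournament (Fin n)) (i : Fin n) :
    T.score a i = scoreOn ⊤ a T i := by
  classical
  unfold Tournament.score Tournament.wins Tournament.draws scoreOn
  rw [Finset.card_filter, Finset.card_filter, Finset.mul_sum, ← Finset.sum_add_distrib]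
  refine Finset.sum_congr rfl fun j _ => ?_
  by_cases hij : j = i
  · subst hij
    simp
  · have hij' : i ≠ j := fun h => hij h.symm
    cases T.res i j <;> simp [pts, hij, hij']

theorem expected_of_tournament (G : SimpleGraph (Fin n)) (a : ℕ) (T : Tournament (Fin n)) :
    Expected G a (fun i => (scoreOn G a T i : ℝ)) := by
  classical
  refine ⟨fun i j => if T.res i j = Res.win ∧ i ≠ j then 1 else 0, ⟨?_, ?_⟩, ?_⟩
  · intro i j
    split_ifs <;> norm_num
  · intro i j hij
    have h1 := T.res_swap i j hij
    have hji : j ≠ i := fun h => hij h.symm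
    rw [h1]
    cases T.res i j <;> simp [Res.swap, hij, hji]
  · intro i
    unfold expScore scoreOn
    push_cast
    refine Finset.sum_congr rfl fun j _ => ?_
    by_cases hA : G.Adj i j
    · have hij : i ≠ j := G.ne_of_adj hA
      have hji : j ≠ i := fun h => hij h.symm
      have h1 := T.res_swap i j hij
      rw [if_pos hA, if_pos hA, h1]
      cases T.res i j <;> simp [Res.swap, hij, hji, pts]
    · rw [if_neg hA, if_neg hA]

end Pool.Agent.Work.MP_1a5986_lc.WO
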