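import Pool.Agent.Work.MP_1a5986_lc.WO.Defs

/-!
MODULE Sep (M).  MP_1a5986_lc, board modsoc.  Linear programming duality for expected net scores.

* `net_le`: `∑ i, y i * net G b p i = ∑ i, ∑ j, [Adj i j] p i j * (b * y i - y j)` (exchange the names
  in the part with `p j i`, `G.symm`), which is half of
  `∑ i, ∑ j, [Adj i j] (p i j * (b * y i - y j) + p j i * (b * y j - y i))`, and each term is at most
  `max 0 (max ..)` because `p i j, p j i ≥ 0` and `p i j + p j i ≤ 1` (adjacent vertices are distinct).

* `sep`: let `K` be the set of `p` with `∀ i j, 0 ≤ p i j` and `∀ i j, i ≠ j → p i j + p j i ≤ 1` and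
  `∀ i, p i i ≤ 1`: closed, bounded (`p i j ≤ 1`), convex, so compact; its image `C` under the linear
  (continuous) map `p ↦ net G b p` is compact and convex. If `t ∉ C`, Hahn-Banach
  (`geometric_hahn_banach_closed_point` or `_compact_point`) gives a continuous linear functional `f`
  and `u` with `f c < u < f t` for `c ∈ C`. Put `y i = f (Pi.single i 1)`, so `f x = ∑ y i * x i`. Let
  `A i j = b * y i - y j` and `p i j = if 0 < A i j then (if A j i < A i j then 1 else if A i j = A j i then 1/2 else 0) else 0`
  for `i ≠ j` and `p i i = 0`. This is in `K`, and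
  `p i j * A i j + p j i * A j i = max 0 (max (A i j) (A j i))` for `i ≠ j`, so that
  `f (net p) = ∑ y i * net G b p i = hS G b y ≥ ∑ y i * t i = f t`, contradiction.
-/

set_option autoImplicit false

namespace Pool.Agent.Work.MP_1a5986_lc.WO

variable {n : ℕ}

private theorem sum_net (G : SimpleGraph (Fin n)) (b : ℝ) (p : Fin n → Fin n → ℝ)
    (y : Fin n → ℝ) : ∑ i, y i * net G b p i =
      (1 / 2) * ∑ i, ∑ j, (open Classical in if G.Adj i j then
        p i j * (b * y i - y j) + p j i * (b * y j - y i) else 0) := by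
  classical
  have h1 : ∑ i, y i * net G b p i =
      ∑ i, ∑ j, (if G.Adj i j then y i * (b * p i j) else 0) -
      ∑ i, ∑ j, (if G.Adj i j then y i * p j i else 0) := by
    rw [← Finset.sum_sub_distrib]
    refine Finset.sum_congr rfl fun i _ => ?_
    rw [← Finset.sum_sub_distrib, net, Finset.mul_sum]
    refine Finset.sum_congr rfl fun j _ => ?_
    split_ifs
    · ring
    · ring
  have h2 : ∑ i, ∑ j, (if G.Adj i j then y i * p j i else 0) =
      ∑ i, ∑ j, (if G.Adj i j then y j * p i j else 0) := by
    rw [Finset.sum_comm]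
    refine Finset.sum_congr rfl fun i _ => Finset.sum_congr rfl fun j _ => ?_
    rw [G.adj_comm]
  have h3 : ∑ i, y i * net G b p i =
      ∑ i, ∑ j, (if G.Adj i j then p i j * (b * y i - y j) else 0) := by
    rw [h1, h2, ← Finset.sum_sub_distrib]
    refine Finset.sum_congr rfl fun i _ => ?_
    rw [← Finset.sum_sub_distrib]
    refine Finset.sum_congr rfl fun j _ => ?_
    split_ifs
    · ring
    · ring
  have h4 : ∑ i, ∑ j, (if G.Adj i j then p i j * (b * y i - y j) else 0) =
      ∑ i, ∑ j, (if G.Adj i j then p j i * (b * y j - y i) else 0) := by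
    rw [Finset.sum_comm]
    refine Finset.sum_congr rfl fun i _ => Finset.sum_congr rfl fun j _ => ?_
    rw [G.adj_comm]
  have h5 : ∑ i, ∑ j, (if G.Adj i j then
        p i j * (b * y i - y j) + p j i * (b * y j - y i) else 0) =
      ∑ i, ∑ j, (if G.Adj i j then p i j * (b * y i - y j) else 0) +
      ∑ i, ∑ j, (if G.Adj i j then p j i * (b * y j - y i) else 0) := by
    rw [← Finset.sum_add_distrib]
    refine Finset.sum_congr rfl fun i _ => ?_
    rw [← Finset.sum_add_distrib]
    refine Finset.sum_congr rfl fun j _ => ?_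
    split_ifs
    · ring
    · ring
  rw [h3]
  rw [← h4] at h5
  rw [h5]
  ring

private theorem two_le {x y A B : ℝ} (hx : 0 ≤ x) (hy : 0 ≤ y) (hxy : x + y ≤ 1) :
    x * A + y * B ≤ max 0 (max A B) := by
  have h0 : 0 ≤ max 0 (max A B) := le_max_left _ _
  have hA : A ≤ max 0 (max A B) := (le_max_left _ _).trans (le_max_right _ _)
  have hB : B ≤ max 0 (max A B) := (le_max_right _ _).trans (le_max_right _ _)
  calc x * A + y * B ≤ x * max 0 (max A B) + y * max 0 (max A B) :=
        add_le_add (mul_le_mul_of_nonneg_left hA hx) (mul_le_mul_of_nonneg_left hB hy)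
    _ = (x + y) * max 0 (max A B) := by ring
    _ ≤ 1 * max 0 (max A B) := mul_le_mul_of_nonneg_right hxy h0
    _ = _ := one_mul _

theorem net_le (G : SimpleGraph (Fin n)) (b : ℝ) {p : Fin n → Fin n → ℝ} (hp : Mixed p)
    (y : Fin n → ℝ) : ∑ i, y i * net G b p i ≤ hS G b y := by
  classical
  rw [sum_net, hS]
  refine mul_le_mul_of_nonneg_left ?_ (by norm_num)
  refine Finset.sum_le_sum fun i _ => Finset.sum_le_sum fun j _ => ?_
  split_ifs with h
  · exact two_le (hp.nonneg i j) (hp.nonneg j i) (hp.add_le i j h.ne)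
  · exact le_rfl

open Classical in
private noncomputable def wt (A B : ℝ) : ℝ :=
  if 0 < A then (if B < A then 1 else if A = B then 1 / 2 else 0) else 0

private theorem wt_nonneg (A B : ℝ) : 0 ≤ wt A B := by
  unfold wt
  split_ifs <;> norm_num

private theorem wt_le (A B : ℝ) : wt A B ≤ 1 := by
  unfold wt
  split_ifs <;> norm_num

private theorem wt_add (A B : ℝ) : wt A B + wt B A ≤ 1 := by
  rcases lt_trichotomy A B with h | h | h
  · have : wt A B = 0 := by
      unfold wt
      rw [if_neg h.not_gt, if_neg h.ne]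
      simp
    rw [this, zero_add]
    exact wt_le _ _
  · subst h
    unfold wt
    split_ifs <;> norm_num at *
  · have : wt B A = 0 := by
      unfold wt
      rw [if_neg h.not_gt, if_neg h.ne]
      simp
    rw [this, add_zero]
    exact wt_le _ _

private theorem wt_val (A B : ℝ) : wt A B * A + wt B A * B = max 0 (max A B) := by
  have key : ∀ A B : ℝ, A < B → wt A B * A + wt B A * B = max 0 (max A B) := by
    intro A B h
    have h1 : wt A B = 0 := by
      unfold wt
      rw [if_neg h.not_gt, if_neg h.ne]
      simp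
    rw [h1, zero_mul, zero_add, max_eq_right h.le]
    unfold wt
    rw [if_pos h]
    split_ifs with h2
    · rw [one_mul, max_eq_right h2.le]
    · rw [zero_mul, max_eq_left (not_lt.1 h2)]
  rcases lt_trichotomy A B with h | h | h
  · exact key A B h
  · subst h
    unfold wt
    rw [if_neg (lt_irrefl A), if_pos rfl, max_self]
    split_ifs with h2
    · rw [max_eq_right h2.le]
      ring
    · rw [zero_mul, zero_add, max_eq_left (not_lt.1 h2)]
  · rw [add_comm, max_comm A B]
    exact key B A h

theorem sep (G : SimpleGraph (Fin n)) (b : ℝ) (t : Fin n → ℝ)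
    (h : ∀ y : Fin n → ℝ, ∑ i, y i * t i ≤ hS G b y) :
    ∃ p, Mixed p ∧ ∀ i, net G b p i = t i := by
  classical
  let K : Set (Fin n → Fin n → ℝ) :=
    {p | (∀ i j, 0 ≤ p i j) ∧ (∀ i j, i ≠ j → p i j + p j i ≤ 1) ∧ ∀ i, p i i ≤ 1}
  have hKc : IsClosed K := by
    have e : K = (⋂ i, ⋂ j, {p : Fin n → Fin n → ℝ | 0 ≤ p i j}) ∩
        ((⋂ i, ⋂ j, ⋂ _ : i ≠ j, {p : Fin n → Fin n → ℝ | p i j + p j i ≤ 1}) ∩
          ⋂ i, {p : Fin n → Fin n → ℝ | p i i ≤ 1}) := by
      ext p
      simp [K]
    rw [e]
    refine IsClosed.inter ?_ (IsClosed.inter ?_ ?_)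
    · exact isClosed_iInter fun i => isClosed_iInter fun j =>
        isClosed_le continuous_const (by fun_prop)
    · exact isClosed_iInter fun i => isClosed_iInter fun j => isClosed_iInter fun _ =>
        isClosed_le (by fun_prop) continuous_const
    · exact isClosed_iInter fun i => isClosed_le (by fun_prop) continuous_const
  have hbox : IsCompact (Set.univ.pi fun _ : Fin n => Set.univ.pi fun _ : Fin n =>
      Set.Icc (0 : ℝ) 1) :=
    isCompact_univ_pi fun _ => isCompact_univ_pi fun _ => isCompact_Icc
  have hKK : IsCompact K := by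
    refine hbox.of_isClosed_subset hKc ?_
    rintro p ⟨h1, h2, h3⟩ i _ j _
    refine ⟨h1 i j, ?_⟩
    by_cases hij : i = j
    · subst hij
      exact h3 i
    · have := h2 i j hij
      have := h1 j i
      linarith
  have hKconv : Convex ℝ K := by
    rintro p ⟨h1, h2, h3⟩ q ⟨h4, h5, h6⟩ c d hc hd hcd
    refine ⟨fun i j => ?_, fun i j hij => ?_, fun i => ?_⟩
    · simp only [Pi.add_apply, Pi.smul_apply, smul_eq_mul]
      exact add_nonneg (mul_nonneg hc (h1 i j)) (mul_nonneg hd (h4 i j))
    · simp only [Pi.add_apply, Pi.smul_apply, smul_eq_mul]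
      have e1 := mul_le_mul_of_nonneg_left (h2 i j hij) hc
      have e2 := mul_le_mul_of_nonneg_left (h5 i j hij) hd
      nlinarith
    · simp only [Pi.add_apply, Pi.smul_apply, smul_eq_mul]
      have e1 := mul_le_mul_of_nonneg_left (h3 i) hc
      have e2 := mul_le_mul_of_nonneg_left (h6 i) hd
      nlinarith
  have hlin : IsLinearMap ℝ (fun p : Fin n → Fin n → ℝ => net G b p) := by
    constructor
    · intro p q
      funext i
      simp only [net, Pi.add_apply]
      rw [← Finset.sum_add_distrib]
      refine Finset.sum_congr rfl fun j _ => ?_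
      split_ifs
      · ring
      · ring
    · intro c p
      funext i
      simp only [net, Pi.smul_apply, smul_eq_mul]
      rw [Finset.mul_sum]
      refine Finset.sum_congr rfl fun j _ => ?_
      split_ifs
      · ring
      · ring
  have hcont : Continuous (fun p : Fin n → Fin n → ℝ => net G b p) := by
    refine continuous_pi fun i => ?_
    simp only [net]
    refine continuous_finsetSum _ fun j _ => ?_
    split_ifs
    · fun_prop
    · fun_prop
  let C : Set (Fin n → ℝ) := (fun p => net G b p) '' K
  have hCc : IsClosed C := (hKK.image hcont).isClosed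
  have hCconv : Convex ℝ C := hKconv.is_linear_image hlin
  by_contra hne
  have htC : t ∉ C := by
    rintro ⟨p, ⟨h1, h2, _⟩, hp⟩
    exact hne ⟨p, ⟨h1, h2⟩, fun i => congrFun hp i⟩
  obtain ⟨f, u, hf1, hf2⟩ := geometric_hahn_banach_closed_point hCconv hCc htC
  let y : Fin n → ℝ := fun i => f (fun j => if i = j then 1 else 0)
  have hfy : ∀ x : Fin n → ℝ, f x = ∑ i, y i * x i := by
    intro x
    have := LinearMap.pi_apply_eq_sum_univ (f : (Fin n → ℝ) →ₗ[ℝ] ℝ) x
    rw [ContinuousLinearMap.coe_coe] at this
    rw [this]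
    refine Finset.sum_congr rfl fun i _ => ?_
    rw [smul_eq_mul, mul_comm]
  let p : Fin n → Fin n → ℝ := fun i j =>
    if i = j then 0 else wt (b * y i - y j) (b * y j - y i)
  have hpK : p ∈ K := by
    refine ⟨fun i j => ?_, fun i j hij => ?_, fun i => ?_⟩
    · simp only [p]
      split_ifs
      · exact le_rfl
      · exact wt_nonneg _ _
    · simp only [p]
      rw [if_neg hij, if_neg (Ne.symm hij)]
      exact wt_add _ _
    · simp [p]
  have hval : ∑ i, y i * net G b p i = hS G b y := by
    rw [sum_net, hS]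
    congr 1
    refine Finset.sum_congr rfl fun i _ => Finset.sum_congr rfl fun j _ => ?_
    split_ifs with hij
    · simp only [p]
      rw [if_neg hij.ne, if_neg hij.ne']
      exact wt_val _ _
    · rfl
  have h7 := hf1 _ ⟨p, hpK, rfl⟩
  rw [hfy] at h7
  rw [hfy] at hf2
  have h8 := h y
  have h9 : ∑ i, y i * net G b p i < u := h7
  rw [hval] at h9
  linarith

end Pool.Agent.Work.MP_1a5986_lc.WO
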