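import Pool.Agent.Work.MP_1a5986_lc.WO.CostG
import Pool.Agent.Work.MP_1a5986_lc.WO.Sep
import Pool.Agent.Work.MP_1a5986_lc.WO.Bridge

/-!
MODULE FracG (S-M).  MP_1a5986_lc, board modsoc.  Room for the reserved matches.

* `deep_large`: let `n ≥ 1`. `s' = s + 18` and `s' = s - 18` are `Expected`. By `net_le` with
  `y = 1`: `∑ (s i + 18 - (n-1)) ≤ hS ⊤ 2 1 = n (n-1) / 2`, and with `y = -1`:
  `-∑ (s i - 18 - (n-1)) ≤ hS ⊤ 2 (-1) = 0` (all terms of `hS ⊤ 2 1` off the diagonal are `1`, all terms of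
  `hS ⊤ 2 (-1)` are `max 0 (-1) = 0`). Adding, `36 n ≤ n (n-1) / 2`, so `n ≥ 73`.
  (`expScore_eq` with `b = 2`, `dg_top`; `a = 3 = 2 + 1`.)
* `frac`: by `sep` for `Hᶜ`. Given `y`, let `s' i = s i + 18` if `0 ≤ y i`, `s i - 18` otherwise: `Expected`, so by
  `net_le`: `∑ y i (s i - (n-1)) + 18 ∑ |y i| ≤ hS ⊤ 2 y = hS Hᶜ 2 y + hS H 2 y`
  (`hS_compl`), and `cost`: `∑ y i (s i - (n-1) - 2) ≤ hS Hᶜ 2 y`.
-/

set_option autoImplicit false

namespace Pool.Agent.Work.MP_1a5986_lc.WO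

variable {n : ℕ}

private theorem exp_bound (s' : Fin n → ℝ) (h : Expected ⊤ 3 s') (y : Fin n → ℝ) :
    ∑ i, y i * (s' i - ((n : ℝ) - 1)) ≤ hS ⊤ 2 y := by
  obtain ⟨p, hp, hs⟩ := h
  refine le_trans (le_of_eq ?_) (net_le ⊤ 2 hp y)
  refine Finset.sum_congr rfl fun i _ => ?_
  have h2 : expScore ⊤ 3 p i = (dg (⊤ : SimpleGraph (Fin n)) i : ℝ) + net ⊤ ((2 : ℕ) : ℝ) p i :=
    expScore_eq ⊤ 2 p i
  have hn : 1 ≤ n := by
    have := i.isLt
    omega
  rw [dg_top, hs i, Nat.cast_sub hn, Nat.cast_one, Nat.cast_ofNat] at h2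
  rw [h2]
  ring

theorem deep_large (hn : 0 < n) (s : Fin n → ℝ) (h : Deep 3 18 s) : 73 ≤ n := by
  classical
  have h1 := exp_bound (fun i => s i + 18) (h _ fun i => by
    rw [add_sub_cancel_left, abs_of_nonneg (by norm_num)]
    norm_num) (fun _ => 1)
  have h2 := exp_bound (fun i => s i - 18) (h _ fun i => by
    rw [sub_sub_cancel_left, abs_neg, abs_of_nonneg (by norm_num)]
    norm_num) (fun _ => -1)
  have h3 : hS (⊤ : SimpleGraph (Fin n)) 2 (fun _ => 1) = (1 / 2) * ((n : ℝ) * ((n : ℝ) - 1)) := by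
    unfold hS
    congr 1
    refine (Finset.sum_congr rfl fun i _ => (?_ : _ = (n : ℝ) - 1)).trans ?_
    · have h5 : (dg (⊤ : SimpleGraph (Fin n)) i : ℝ) = (n : ℝ) - 1 := by
        rw [dg_top, Nat.cast_sub (by omega), Nat.cast_one]
      rw [← h5]
      unfold dg
      push_cast
      refine Finset.sum_congr rfl fun j _ => ?_
      by_cases hij : (⊤ : SimpleGraph (Fin n)).Adj i j
      · rw [if_pos hij, if_pos hij]
        norm_num
      · rw [if_neg hij, if_neg hij]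
    rw [Finset.sum_const, Finset.card_univ, Fintype.card_fin, nsmul_eq_mul]
  have h6 : hS (⊤ : SimpleGraph (Fin n)) 2 (fun _ => -1) = 0 := by
    unfold hS
    rw [Finset.sum_eq_zero, mul_zero]
    intro i _
    refine Finset.sum_eq_zero fun j _ => ?_
    split_ifs
    · norm_num
    · rfl
  rw [h3] at h1
  rw [h6] at h2
  have h7 : ∑ i : Fin n, (1 : ℝ) * (s i + 18 - ((n : ℝ) - 1)) +
      ∑ i : Fin n, (-1 : ℝ) * (s i - 18 - ((n : ℝ) - 1)) = 36 * n := by
    rw [← Finset.sum_add_distrib]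
    have h8 : ∀ i : Fin n, (1 : ℝ) * (s i + 18 - ((n : ℝ) - 1)) +
        (-1 : ℝ) * (s i - 18 - ((n : ℝ) - 1)) = 36 := by
      intro i
      ring
    rw [Finset.sum_congr rfl fun i _ => h8 i, Finset.sum_const, Finset.card_univ,
      Fintype.card_fin, nsmul_eq_mul, mul_comm]
  have h9 : (36 : ℝ) * n ≤ (1 / 2) * ((n : ℝ) * ((n : ℝ) - 1)) := by
    rw [← h7]
    linarith
  have hn' : (0 : ℝ) < n := by exact_mod_cast hn
  have h10 : (73 : ℝ) ≤ n := by
    by_contra hlt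
    push Not at hlt
    nlinarith
  exact_mod_cast h10

theorem frac (s : Fin n → ℝ) (h : Deep 3 18 s) (H : SimpleGraph (Fin n))
    (hH : ∀ i, dg H i ≤ 9) :
    ∃ p, Mixed p ∧ ∀ i, net Hᶜ 2 p i = s i - ((n : ℝ) - 1) - 2 := by
  classical
  refine sep Hᶜ 2 _ fun y => ?_
  have h1 := exp_bound (fun i => s i + (if 0 ≤ y i then 18 else -18)) (h _ fun i => by
    rw [add_sub_cancel_left]
    split_ifs
    · rw [abs_of_nonneg (by norm_num)]
      norm_num
    · rw [abs_of_nonpos (by norm_num)]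
      norm_num) y
  rw [hS_compl H] at h1
  have h2 := cost H hH y
  have h3 : ∑ i, y i * (s i + (if 0 ≤ y i then (18 : ℝ) else -18) - ((n : ℝ) - 1)) =
      ∑ i, y i * (s i - ((n : ℝ) - 1) - 2) + 2 * ∑ i, y i + 18 * ∑ i, |y i| := by
    rw [Finset.mul_sum, Finset.mul_sum, ← Finset.sum_add_distrib, ← Finset.sum_add_distrib]
    refine Finset.sum_congr rfl fun i _ => ?_
    split_ifs with h4
    · rw [abs_of_nonneg h4]
      ring
    · rw [abs_of_nonpos (le_of_lt (not_le.1 h4))]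
      ring
  rw [h3] at h1
  linarith

end Pool.Agent.Work.MP_1a5986_lc.WO
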