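import Pool.Agent.Work.MP_1a5986_lc.WO.RDefs

/-!
MODULE MinSol (M-L).  MP_1a5986_lc, board modsoc.  Basic solutions.

Choose `p` among the solutions (with `Mixed p`, `net G b p = t`) with the smallest
`N p = ∑ cnt p i j` over the pairs `i < j` with `Adj i j`. Suppose that `F` violates the inequality:
`|V| < ∑_{e ∈ F} (cnt e - 1)` with `V = ⋃ {e.1, e.2}` (`cnt ≥ 1` always, because `p i j, p j i ≥ 0` and
`p i j + p j i ≤ 1`). Unknowns: `δ e ∈ ℝ × ℝ` for `e ∈ F` (changes of `p i j` and `p j i`, `e = (i, j)`), so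
`2 |F|` unknowns. Homogeneous linear equations: for every `e ∈ F` one for each of the `3 - cnt e` of the
quantities `p i j`, `p j i`, `1 - p i j - p j i` which are not positive (its change is `0`), and for every
`v ∈ V` the change of `net` at `v` is `0`. Their number `∑ (3 - cnt e) + |V|` is smaller than `2 |F|`, so
there is a nonzero solution `δ` (e.g. `LinearMap.ker_ne_bot_of_finrank_lt` or `exists_ne_zero` for a
linear map into a space of smaller dimension). Then `p + s δ` has the same `net` for all `s`. The three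
quantities of a pair have sum `1`, so if `δ e ≠ 0` one of them has a negative derivative (it is
positive now). Let `s > 0` be the smallest number at which one of the finitely many positive
quantities with negative derivative becomes `0`. `p + s δ` is `Mixed`, the zero quantities remain `0`,
and one positive quantity has become `0`: `N` is smaller, contradiction.
-/

set_option autoImplicit false

namespace Pool.Agent.Work.MP_1a5986_lc.WO

variable {n : ℕ}

private theorem net_lin (G : SimpleGraph (Fin n)) (b : ℝ) (p D : Fin n → Fin n → ℝ) (s : ℝ)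
    (i : Fin n) : net G b (fun i j => p i j + s * D i j) i = net G b p i + s * net G b D i := by
  classical
  unfold net
  rw [Finset.mul_sum, ← Finset.sum_add_distrib]
  refine Finset.sum_congr rfl fun j _ => ?_
  split_ifs
  · ring
  · ring

private theorem cnt_symm (p : Fin n → Fin n → ℝ) (i j : Fin n) : cnt p i j = cnt p j i := by
  unfold cnt
  rw [add_comm (p i j) (p j i)]
  omega

private theorem perturb (G : SimpleGraph (Fin n)) (b : ℝ) (p D : Fin n → Fin n → ℝ)
    (hp : Mixed p) (hD0 : ∀ i j, D i j ≠ 0 → 0 < p i j)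
    (hD1 : ∀ i j, D i j + D j i ≠ 0 → p i j + p j i < 1)
    (hDa : ∀ i j, D i j ≠ 0 → G.Adj i j) (hDn : ∀ i, net G b D i = 0)
    (hne : ∃ i j, D i j ≠ 0) :
    ∃ p', Mixed p' ∧ (∀ i, net G b p' i = net G b p i) ∧ (∀ i j, cnt p' i j ≤ cnt p i j) ∧
      ∃ i j, G.Adj i j ∧ cnt p' i j < cnt p i j := by
  classical
  let Q : (Fin n × Fin n) ⊕ (Fin n × Fin n) → ℝ := fun k => match k with
    | Sum.inl x => p x.1 x.2
    | Sum.inr x => 1 - p x.1 x.2 - p x.2 x.1
  let d : (Fin n × Fin n) ⊕ (Fin n × Fin n) → ℝ := fun k => match k with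
    | Sum.inl x => D x.1 x.2
    | Sum.inr x => - D x.1 x.2 - D x.2 x.1
  have hpos : ∀ k, d k < 0 → 0 < Q k := by
    rintro (x | x) hk
    · exact hD0 _ _ (ne_of_lt hk)
    · have h1 : - D x.1 x.2 - D x.2 x.1 < 0 := hk
      have := hD1 x.1 x.2 (by intro h0; linarith)
      change 0 < 1 - p x.1 x.2 - p x.2 x.1
      linarith
  obtain ⟨i0, j0, hij⟩ := hne
  have hnemp : (Finset.univ.filter fun k => d k < 0).Nonempty := by
    by_contra hcon
    rw [Finset.not_nonempty_iff_eq_empty] at hcon
    have hall : ∀ k, 0 ≤ d k := by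
      intro k
      by_contra hk
      have : k ∈ (Finset.univ.filter fun k => d k < 0) := by
        rw [Finset.mem_filter]
        exact ⟨Finset.mem_univ _, not_le.1 hk⟩
      rw [hcon] at this
      simp at this
    have h1 : 0 ≤ D i0 j0 := hall (Sum.inl (i0, j0))
    have h2 : 0 ≤ D j0 i0 := hall (Sum.inl (j0, i0))
    have h3 : 0 ≤ - D i0 j0 - D j0 i0 := hall (Sum.inr (i0, j0))
    exact hij (by linarith)
  obtain ⟨k0, hk0, hmin⟩ := Finset.exists_min_image _ (fun k => Q k / (- d k)) hnemp
  rw [Finset.mem_filter] at hk0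
  have hd0 : d k0 < 0 := hk0.2
  set s : ℝ := Q k0 / (- d k0) with hs
  have hs0 : 0 < s := div_pos (hpos _ hd0) (by linarith)
  have hQ : ∀ k, 0 ≤ Q k → 0 ≤ Q k + s * d k := by
    intro k hk
    by_cases hdk : d k < 0
    · have h1 := hmin k (by rw [Finset.mem_filter]; exact ⟨Finset.mem_univ _, hdk⟩)
      have h2 : s * (- d k) ≤ Q k := by
        rw [← le_div_iff₀ (by linarith)]
        exact h1
      linarith
    · have h1 : 0 ≤ s * d k := mul_nonneg hs0.le (not_lt.1 hdk)
      linarith
  have hQ0 : Q k0 + s * d k0 = 0 := by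
    have h1 : s * (- d k0) = Q k0 := by
      rw [hs]
      exact div_mul_cancel₀ _ (by linarith)
    linarith
  have hDself : ∀ i, D i i = 0 := by
    intro i
    by_contra h
    exact G.loopless.irrefl i (hDa i i h)
  let p' : Fin n → Fin n → ℝ := fun i j => p i j + s * D i j
  have hp'Q : ∀ x : Fin n × Fin n, p' x.1 x.2 = Q (Sum.inl x) + s * d (Sum.inl x) := fun x => rfl
  have hp'Q2 : ∀ x : Fin n × Fin n,
      1 - p' x.1 x.2 - p' x.2 x.1 = Q (Sum.inr x) + s * d (Sum.inr x) := by
    intro x
    change 1 - (p x.1 x.2 + s * D x.1 x.2) - (p x.2 x.1 + s * D x.2 x.1)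
      = 1 - p x.1 x.2 - p x.2 x.1 + s * (- D x.1 x.2 - D x.2 x.1)
    ring
  have hc1 : ∀ i j, 0 < p' i j → 0 < p i j := by
    intro i j h
    by_cases h0 : D i j = 0
    · have : p' i j = p i j := by
        change p i j + s * D i j = p i j
        rw [h0]; ring
      rwa [this] at h
    · exact hD0 i j h0
  have hc2 : ∀ i j, p' i j + p' j i < 1 → p i j + p j i < 1 := by
    intro i j h
    by_cases h0 : D i j + D j i = 0
    · have : p' i j + p' j i = p i j + p j i := by
        change p i j + s * D i j + (p j i + s * D j i) = p i j + p j i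
        have : s * (D i j + D j i) = 0 := by rw [h0]; ring
        linarith
      rwa [this] at h
    · exact hD1 i j h0
  refine ⟨p', ⟨?_, ?_⟩, ?_, ?_, ?_⟩
  · intro i j
    rw [hp'Q (i, j)]
    exact hQ (Sum.inl (i, j)) (hp.nonneg i j)
  · intro i j hne
    have h1 := hp'Q2 (i, j)
    have h2 := hQ (Sum.inr (i, j)) (by
      change 0 ≤ 1 - p i j - p j i
      have := hp.add_le i j hne
      linarith)
    rw [← h1] at h2
    simp only at h2
    linarith
  · intro i
    change net G b (fun i j => p i j + s * D i j) i = net G b p i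
    rw [net_lin, hDn]
    ring
  · intro i j
    unfold cnt
    have a1 := hc1 i j
    have a2 := hc1 j i
    have a3 := hc2 i j
    split_ifs <;> first | omega | (exfalso; tauto)
  · rcases k0 with x | x
    · have hx : D x.1 x.2 ≠ 0 := ne_of_lt hd0
      refine ⟨x.1, x.2, hDa _ _ hx, ?_⟩
      have h0 : ¬ 0 < p' x.1 x.2 := by
        rw [hp'Q x, hQ0]
        exact lt_irrefl _
      have h1 : 0 < p x.1 x.2 := hD0 _ _ hx
      unfold cnt
      have a2 := hc1 x.2 x.1
      have a3 := hc2 x.1 x.2
      rw [if_neg h0, if_pos h1]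
      split_ifs <;> first | omega | (exfalso; tauto)
    · have hx : - D x.1 x.2 - D x.2 x.1 < 0 := hd0
      have hx' : D x.1 x.2 ≠ 0 ∨ D x.2 x.1 ≠ 0 := by
        by_contra hcon
        push Not at hcon
        rw [hcon.1, hcon.2] at hx
        simp at hx
      have hadj : G.Adj x.1 x.2 := by
        rcases hx' with h | h
        · exact hDa _ _ h
        · exact (hDa _ _ h).symm
      refine ⟨x.1, x.2, hadj, ?_⟩
      have h0 : ¬ (p' x.1 x.2 + p' x.2 x.1 < 1) := by
        have := hp'Q2 x
        rw [hQ0] at this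
        linarith
      have h1 : p x.1 x.2 + p x.2 x.1 < 1 := hD1 _ _ (by intro h; linarith)
      unfold cnt
      have a1 := hc1 x.1 x.2
      have a2 := hc1 x.2 x.1
      rw [if_neg h0, if_pos h1]
      split_ifs <;> first | omega | (exfalso; tauto)

private theorem cnt_pos (p : Fin n → Fin n → ℝ) (i j : Fin n) : 1 ≤ cnt p i j := by
  unfold cnt
  by_cases h1 : 0 < p i j
  · rw [if_pos h1]; omega
  · by_cases h2 : 0 < p j i
    · rw [if_pos h2]; omega
    · have h3 : p i j + p j i < 1 := by linarith [not_lt.1 h1, not_lt.1 h2]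
      rw [if_pos h3]; omega

private theorem exists_dir (G : SimpleGraph (Fin n)) (b : ℝ) (p : Fin n → Fin n → ℝ)
    (F : Finset (Fin n × Fin n)) (hF : ∀ e ∈ F, e.1 < e.2 ∧ G.Adj e.1 e.2)
    (hlt : (F.biUnion fun e => ({e.1, e.2} : Finset (Fin n))).card
      < ∑ e ∈ F, (cnt p e.1 e.2 - 1)) :
    ∃ D : Fin n → Fin n → ℝ, (∀ i j, D i j ≠ 0 → 0 < p i j) ∧
      (∀ i j, D i j + D j i ≠ 0 → p i j + p j i < 1) ∧
      (∀ i j, D i j ≠ 0 → G.Adj i j) ∧ (∀ i, net G b D i = 0) ∧ ∃ i j, D i j ≠ 0 := by
  classical
  set V := F.biUnion fun e => ({e.1, e.2} : Finset (Fin n)) with hV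
  let Dt : Finset (Fin n × Fin n) := F ∪ F.image Prod.swap
  have hDt : ∀ x : Fin n × Fin n, x ∈ Dt ↔ x ∈ F ∨ x.swap ∈ F := by
    intro x
    rw [Finset.mem_union, Finset.mem_image]
    constructor
    · rintro (h | ⟨y, hy, rfl⟩)
      · exact Or.inl h
      · exact Or.inr (by simpa using hy)
    · rintro (h | h)
      · exact Or.inl h
      · exact Or.inr ⟨x.swap, h, by simp⟩
  have hdisj : Disjoint F (F.image Prod.swap) := by
    rw [Finset.disjoint_left]
    intro x hx hx'
    rw [Finset.mem_image] at hx'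
    obtain ⟨y, hy, rfl⟩ := hx'
    have h1 := (hF _ hx).1
    have h2 := (hF _ hy).1
    exact absurd (h1.trans h2) (lt_irrefl _)
  let ext : (Dt → ℝ) →ₗ[ℝ] (Fin n → Fin n → ℝ) :=
    { toFun := fun δ i j => if h : (i, j) ∈ Dt then δ ⟨(i, j), h⟩ else 0
      map_add' := by
        intro x y
        funext i j
        simp only [Pi.add_apply]
        split_ifs
        · rfl
        · simp
      map_smul' := by
        intro c x
        funext i j
        simp only [Pi.smul_apply, RingHom.id_apply]
        split_ifs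
        · rfl
        · simp }
  have hext : ∀ δ i j, (i, j) ∉ Dt → ext δ i j = 0 := by
    intro δ i j h
    exact dif_neg h
  let A := Dt.filter fun x => ¬ 0 < p x.1 x.2
  let B := F.filter fun e => ¬ (p e.1 e.2 + p e.2 e.1 < 1)
  let Φ : (Dt → ℝ) →ₗ[ℝ] (V → ℝ) × (A → ℝ) × (B → ℝ) :=
    { toFun := fun δ => (fun v => net G b (ext δ) v, fun x => ext δ x.1.1 x.1.2,
        fun e => ext δ e.1.1 e.1.2 + ext δ e.1.2 e.1.1)
      map_add' := by
        intro x y
        refine Prod.ext ?_ (Prod.ext ?_ ?_)
        · funext v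
          simp only [map_add, Prod.fst_add, Pi.add_apply]
          have := net_lin G b (ext x) (ext y) 1 v
          rw [one_mul] at this
          rw [← this]
          congr 1
          funext i j
          simp
        · funext z
          simp [map_add]
        · funext z
          simp only [map_add, Prod.snd_add, Pi.add_apply]
          ring
      map_smul' := by
        intro c x
        refine Prod.ext ?_ (Prod.ext ?_ ?_)
        · funext v
          simp only [map_smul, RingHom.id_apply, Prod.smul_fst, Pi.smul_apply, smul_eq_mul]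
          have := net_lin G b (fun _ _ => 0) (ext x) c v
          have h0 : net G b (fun _ _ => (0 : ℝ)) v = 0 := by
            unfold net
            simp
          rw [h0, zero_add] at this
          rw [← this]
          congr 1
          funext i j
          simp
        · funext z
          simp [map_smul]
        · funext z
          simp only [map_smul, RingHom.id_apply, Prod.smul_snd, Pi.smul_apply, smul_eq_mul]
          ring }
  have hcardDt : Dt.card = 2 * F.card := by
    change (F ∪ F.image Prod.swap).card = 2 * F.card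
    rw [Finset.card_union_of_disjoint hdisj,
      Finset.card_image_of_injective _ Prod.swap_injective]
    ring
  have hcnt : ∑ e ∈ F, cnt p e.1 e.2 = (Dt.filter fun x => 0 < p x.1 x.2).card
      + (F.filter fun e => p e.1 e.2 + p e.2 e.1 < 1).card := by
    unfold cnt
    rw [Finset.sum_add_distrib, Finset.sum_add_distrib]
    congr 1
    · change _ = ((F ∪ F.image Prod.swap).filter fun x => 0 < p x.1 x.2).card
      rw [Finset.filter_union, Finset.card_union_of_disjoint
        (Finset.disjoint_filter_filter hdisj), Finset.card_filter, Finset.card_filter,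
        Finset.sum_image (fun x _ y _ h => Prod.swap_injective h)]
      rfl
    · rw [Finset.card_filter]
  have hA : A.card + (Dt.filter fun x => 0 < p x.1 x.2).card = Dt.card := by
    have := Finset.card_filter_add_card_filter_not (s := Dt) (fun x => 0 < p x.1 x.2)
    change (Dt.filter fun x => ¬ 0 < p x.1 x.2).card + _ = _
    omega
  have hB : B.card + (F.filter fun e => p e.1 e.2 + p e.2 e.1 < 1).card = F.card := by
    have := Finset.card_filter_add_card_filter_not (s := F)
      (fun e => p e.1 e.2 + p e.2 e.1 < 1)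
    change (F.filter fun e => ¬ (p e.1 e.2 + p e.2 e.1 < 1)).card + _ = _
    omega
  have hsum : ∑ e ∈ F, (cnt p e.1 e.2 - 1) + F.card = ∑ e ∈ F, cnt p e.1 e.2 := by
    rw [Finset.card_eq_sum_ones, ← Finset.sum_add_distrib]
    refine Finset.sum_congr rfl fun e _ => ?_
    have := cnt_pos p e.1 e.2
    omega
  have hfin : Module.finrank ℝ ((V → ℝ) × (A → ℝ) × (B → ℝ)) < Module.finrank ℝ (Dt → ℝ) := by
    rw [Module.finrank_prod, Module.finrank_prod, Module.finrank_fintype_fun_eq_card,
      Module.finrank_fintype_fun_eq_card, Module.finrank_fintype_fun_eq_card,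
      Module.finrank_fintype_fun_eq_card, Fintype.card_coe, Fintype.card_coe, Fintype.card_coe,
      Fintype.card_coe]
    omega
  have hker := LinearMap.ker_ne_bot_of_finrank_lt (f := Φ) hfin
  rw [Submodule.ne_bot_iff] at hker
  obtain ⟨δ, hδ, hδ0⟩ := hker
  rw [LinearMap.mem_ker] at hδ
  have e1 : ∀ v ∈ V, net G b (ext δ) v = 0 := by
    intro v hv
    have := congrFun (congrArg Prod.fst hδ) ⟨v, hv⟩
    exact this
  have e2 : ∀ x ∈ Dt, ¬ 0 < p x.1 x.2 → ext δ x.1 x.2 = 0 := by
    intro x hx hx2
    have := congrFun (congrArg (fun y => y.2.1) hδ) ⟨x, Finset.mem_filter.2 ⟨hx, hx2⟩⟩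
    exact this
  have e3 : ∀ x ∈ F, ¬ (p x.1 x.2 + p x.2 x.1 < 1) → ext δ x.1 x.2 + ext δ x.2 x.1 = 0 := by
    intro x hx hx2
    have := congrFun (congrArg (fun y => y.2.2) hδ) ⟨x, Finset.mem_filter.2 ⟨hx, hx2⟩⟩
    exact this
  have hmem : ∀ i j, ext δ i j ≠ 0 → (i, j) ∈ Dt := by
    intro i j h
    by_contra hcon
    exact h (hext δ i j hcon)
  refine ⟨ext δ, ?_, ?_, ?_, ?_, ?_⟩
  · intro i j h
    by_contra hcon
    exact h (e2 (i, j) (hmem i j h) hcon)
  · intro i j h
    by_contra hcon
    have hor : (i, j) ∈ Dt := by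
      by_contra h1
      have h2 : (j, i) ∉ Dt := by
        intro h3
        apply h1
        rw [hDt] at h3 ⊢
        exact h3.symm
      rw [hext δ i j h1, hext δ j i h2] at h
      simp at h
    rw [hDt] at hor
    rcases hor with h1 | h1
    · exact h (e3 (i, j) h1 hcon)
    · have h2 := e3 (j, i) h1 (by rw [add_comm]; exact hcon)
      simp only at h2
      exact h (by linarith)
  · intro i j h
    have h1 := hmem i j h
    rw [hDt] at h1
    rcases h1 with h1 | h1
    · exact (hF _ h1).2
    · exact (hF _ h1).2.symm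
  · intro i
    by_cases hi : i ∈ V
    · exact e1 i hi
    · unfold net
      refine Finset.sum_eq_zero fun j _ => ?_
      have hz : ∀ j, (i, j) ∉ Dt ∧ (j, i) ∉ Dt := by
        intro j
        have : (i, j) ∉ F ∧ (j, i) ∉ F := by
          constructor
          · intro h
            apply hi
            rw [hV, Finset.mem_biUnion]
            exact ⟨(i, j), h, by simp⟩
          · intro h
            apply hi
            rw [hV, Finset.mem_biUnion]
            exact ⟨(j, i), h, by simp⟩
        rw [hDt, hDt]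
        simp only [Prod.swap_prod_mk]
        tauto
      rw [hext δ i j (hz j).1, hext δ j i (hz j).2]
      simp
  · by_contra hcon
    push Not at hcon
    apply hδ0
    funext x
    obtain ⟨⟨i, j⟩, hx⟩ := x
    have := hcon i j
    have h2 : ext δ i j = δ ⟨(i, j), hx⟩ := dif_pos hx
    rw [h2] at this
    exact this

theorem min_sol (G : SimpleGraph (Fin n)) (b : ℝ) (t : Fin n → ℝ)
    (h : ∃ p, Mixed p ∧ ∀ i, net G b p i = t i) :
    ∃ p, Mixed p ∧ (∀ i, net G b p i = t i) ∧
      ∀ F : Finset (Fin n × Fin n), (∀ e ∈ F, e.1 < e.2 ∧ G.Adj e.1 e.2) →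
        ∑ e ∈ F, (cnt p e.1 e.2 - 1)
          ≤ (F.biUnion fun e => ({e.1, e.2} : Finset (Fin n))).card := by
  classical
  let N : (Fin n → Fin n → ℝ) → ℕ := fun p =>
    ∑ e ∈ (Finset.univ.filter fun e : Fin n × Fin n => e.1 < e.2 ∧ G.Adj e.1 e.2), cnt p e.1 e.2
  obtain ⟨p, ⟨hp, hnet⟩, hmin⟩ := WellFounded.has_min (measure N).wf
    {p | Mixed p ∧ ∀ i, net G b p i = t i} h
  refine ⟨p, hp, hnet, ?_⟩
  intro F hF
  by_contra hcon
  rw [not_le] at hcon
  obtain ⟨D, h1, h2, h3, h4, h5⟩ := exists_dir G b p F hF hcon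
  obtain ⟨p', g1, g2, g3, i, j, g4, g5⟩ := perturb G b p D hp h1 h2 h3 h4 h5
  refine hmin p' ⟨g1, fun i => (g2 i).trans (hnet i)⟩ ?_
  change N p' < N p
  have key : ∀ i j : Fin n, i < j → G.Adj i j → cnt p' i j < cnt p i j → N p' < N p := by
    intro i j hij hadj hlt
    refine Finset.sum_lt_sum (fun e _ => g3 _ _) ⟨(i, j), ?_, hlt⟩
    rw [Finset.mem_filter]
    exact ⟨Finset.mem_univ _, hij, hadj⟩
  rcases lt_trichotomy i j with hij | hij | hij
  · exact key i j hij g4 g5
  · exact absurd hij g4.ne
  · refine key j i hij g4.symm ?_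
    rw [cnt_symm p' j i, cnt_symm p j i]
    exact g5

end Pool.Agent.Work.MP_1a5986_lc.WO
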