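import Pool.Agent.Work.MP_1a5986_lc.WO.RoundM
import Pool.Agent.Work.MP_1a5986_lc.WO.MinSol
import Pool.Agent.Work.MP_1a5986_lc.WO.Bridge

/-! Rounding theorem (assembled from the modules). -/

set_option autoImplicit false

namespace Pool.Agent.Work.MP_1a5986_lc.WO

open Pool.Agent.Work.MP_1a5986_lc

variable {n : ℕ}

theorem round_net (G : SimpleGraph (Fin n)) (b : ℕ) (hb : 1 ≤ b) (t : Fin n → ℤ)
    (h : ∃ p, Mixed p ∧ ∀ i, net G b p i = t i) :
    ∃ T : Tournament (Fin n), ∀ i, |netT G b T i - t i| < b := by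
  obtain ⟨p, hp, hnet, hF⟩ := min_sol G b (fun i => (t i : ℝ)) h
  obtain ⟨o, h1, h2, h3⟩ := own G p hF
  exact round_main G b hb t p hp hnet o h1 h2 h3

theorem round_score (G : SimpleGraph (Fin n)) (a : ℕ) (ha : 2 ≤ a) (s : Fin n → ℤ)
    (h : Expected G a (fun i => (s i : ℝ))) :
    ∃ T : Tournament (Fin n), ∀ i, |(scoreOn G a T i : ℤ) - s i| ≤ a - 2 := by
  obtain ⟨b, rfl⟩ : ∃ b, a = b + 1 := ⟨a - 1, by omega⟩
  obtain ⟨p, hp, hs⟩ := h
  obtain ⟨T, hT⟩ := round_net G b (by omega) (fun i => s i - dg G i)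
    ⟨p, hp, fun i => by
      have := hs i
      rw [expScore_eq] at this
      push_cast
      linarith⟩
  refine ⟨T, fun i => ?_⟩
  have h1 := hT i
  rw [scoreOn_eq]
  have h2 : (dg G i : ℤ) + netT G b T i - s i = netT G b T i - (s i - dg G i) := by ring
  rw [h2]
  push_cast
  omega

end Pool.Agent.Work.MP_1a5986_lc.WO
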