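import Pool.Agent.Work.MP_1a5986_lc.WO.Gadget
import Pool.Agent.Work.MP_1a5986_lc.WO.FracG
import Pool.Agent.Work.MP_1a5986_lc.WO.Round

/-! Deep integer sequences are score sequences (assembled from the modules). -/

set_option autoImplicit false

namespace Pool.Agent.Work.MP_1a5986_lc.WO

open Pool.Agent.Work.MP_1a5986_lc

variable {n : ℕ}

/-- The results of `T` between adjacent teams of `H`, those of `T'` between the other teams. -/
noncomputable def glue (H : SimpleGraph (Fin n)) (T T' : Tournament (Fin n)) :
    Tournament (Fin n) := by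
  classical
  exact
    { res := fun i j => if H.Adj i j then T.res i j else T'.res i j
      res_swap := fun i j hij => by
        by_cases h : H.Adj i j
        · simp only [h, h.symm, if_true]
          exact T.res_swap i j hij
        · have h' : ¬ H.Adj j i := fun h' => h h'.symm
          simp only [h, h', if_false]
          exact T'.res_swap i j hij }

theorem netT_glue (H : SimpleGraph (Fin n)) (b : ℕ) (T T' : Tournament (Fin n)) (i : Fin n) :
    netT ⊤ b (glue H T T') i = netT H b T i + netT Hᶜ b T' i := by
  classical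
  simp only [netT, ← Finset.sum_add_distrib]
  refine Finset.sum_congr rfl fun j _ => ?_
  by_cases hij : i = j
  · subst hij
    simp
  · by_cases h : H.Adj i j
    · simp [glue, h, hij]
    · simp [glue, h, hij]

theorem deep_main (s : Fin n → ℤ) (h : Deep 3 18 (fun i => (s i : ℝ))) :
    ∃ T : Tournament (Fin n), ∀ i, (T.score 3 i : ℤ) = s i := by
  rcases Nat.eq_zero_or_pos n with h0 | hn
  · subst h0
    exact ⟨⟨fun _ _ => .draw, fun _ _ _ => rfl⟩, fun i => i.elim0⟩
  have hn73 := deep_large hn _ h
  obtain ⟨q, g, hg⟩ := groups (n := n) (by omega)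
  obtain ⟨p, hp, hnet⟩ := frac _ h (sameG g) (dg_sameG g hg)
  obtain ⟨T', hT'⟩ := round_net (sameG g)ᶜ 2 (by norm_num) (fun i => s i - ((n : ℤ) - 1) - 2)
    ⟨p, hp, fun i => by
      have := hnet i
      push_cast
      exact this⟩
  obtain ⟨T, hT⟩ := gadget g hg (fun i => s i - ((n : ℤ) - 1) - netT (sameG g)ᶜ 2 T' i)
    (fun i => by
      have h1 := hT' i
      rw [abs_lt] at h1
      push_cast at h1
      omega)
  refine ⟨glue (sameG g) T T', fun i => ?_⟩
  rw [score_top, scoreOn_eq, dg_top, netT_glue, hT]
  have : ((n - 1 : ℕ) : ℤ) = n - 1 := by omega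
  rw [this]
  ring

end Pool.Agent.Work.MP_1a5986_lc.WO
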