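import Pool.Agent.Work.MP_1a5986_lc.WO.AlgDefs

/-!
MODULE AlgB (M).  MP_1a5986_lc, board modsoc.  Correctness of the bottom test.

Claim, by induction on `m`: if the fold over `List.range m` is `some ws`, then `ws.length = m + 1`,
`ws[0] = 0`, and for `0 < x ≤ m` the number `ws[x]` is the minimum over `x' < x` of
`rhs b r x ws[x'] - lhs b κ r x x'`, and all these subtractions are exact (the start value
`(r.take x).sum` of the minimum is `≥` the term for `x' = 0`, since `ws[0] = 0`); if the fold is `none`, then
there are `x ≤ m` and `x' < x` such that the fold over `range (x-1)` is some `ws` and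
`rhs b r x ws[x'] < lhs b κ r x x'`.
(⇒) `w x = ws[x]` (`0` for `x > r.length`).
(⇐) if `w` is as on the right, then by induction `w x ≤ ws[x]` as long as the fold is defined, and
`rhs b r x ws[x'] ≥ rhs b r x (w x') ≥ lhs b κ r x x'`, so it never becomes `none`.
-/

set_option autoImplicit false

namespace Pool.Agent.Work.MP_1a5986_lc.WO

private theorem fmin_le (l : List ℕ) : ∀ a : ℕ, l.foldl min a ≤ a := by
  induction l with
  | nil => intro a; simp
  | cons c l ih =>
    intro a
    simp only [List.foldl_cons]
    exact (ih _).trans (min_le_left _ _)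

private theorem fmin_le_mem (l : List ℕ) : ∀ a : ℕ, ∀ z ∈ l, l.foldl min a ≤ z := by
  induction l with
  | nil => intro a z hz; simp at hz
  | cons c l ih =>
    intro a z hz
    simp only [List.foldl_cons]
    rcases List.mem_cons.1 hz with h | h
    · subst h
      exact (fmin_le l _).trans (min_le_right _ _)
    · exact ih _ z h

private theorem le_fmin (l : List ℕ) : ∀ a y : ℕ, y ≤ a → (∀ z ∈ l, y ≤ z) → y ≤ l.foldl min a := by
  induction l with
  | nil => intro a y h _; simpa using h
  | cons c l ih =>
    intro a y h hz
    simp only [List.foldl_cons]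
    exact ih _ y (le_min h (hz c (List.mem_cons_self))) fun z hh => hz z (List.mem_cons_of_mem _ hh)

/-- The state after `m` steps. -/
private def stF (b κ : ℕ) (r : List ℕ) (m : ℕ) : Option (List ℕ) :=
  (List.range m).foldl (fun st x => stepS b κ r st (x + 1)) (some [0])

private theorem stF_succ (b κ : ℕ) (r : List ℕ) (m : ℕ) :
    stF b κ r (m + 1) = stepS b κ r (stF b κ r m) (m + 1) := by
  unfold stF
  rw [List.range_succ, List.foldl_append]
  rfl

private theorem rhs_mono (b : ℕ) (r : List ℕ) (x : ℕ) {u v : ℕ} (h : u ≤ v) :
    rhs b r x u ≤ rhs b r x v := by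
  unfold rhs
  exact Nat.add_le_add_left (Nat.mul_le_mul_left _ h) _

private theorem mem_zip {l : List ℕ} {q : ℕ × ℕ} (h : q ∈ l.zipIdx) :
    q.2 < l.length ∧ l.getD q.2 0 = q.1 := by
  obtain ⟨x, i⟩ := q
  rw [List.mem_zipIdx_iff_getElem?] at h
  have h1 : i < l.length := by
    by_contra hc
    rw [List.getElem?_eq_none (not_lt.1 hc)] at h
    simp at h
  refine ⟨h1, ?_⟩
  show l.getD i 0 = x
  rw [List.getD_eq_getElem?_getD, h]
  rfl

private theorem zip_mem {l : List ℕ} {i : ℕ} (h : i < l.length) : (l.getD i 0, i) ∈ l.zipIdx := by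
  rw [List.mem_zipIdx_iff_getElem?, List.getD_eq_getElem?_getD, List.getElem?_eq_getElem h]
  rfl

private theorem stInv (b κ : ℕ) (r : List ℕ) : ∀ (m : ℕ) (ws : List ℕ), stF b κ r m = some ws →
    ws.length = m + 1 ∧ (∀ c ∈ ws, c ≤ r.sum) ∧ ws.getD 0 0 = 0 ∧
    (∀ x ≤ m, ∀ x' < x, ws.getD x 0 + lhs b κ r x x' ≤ rhs b r x (ws.getD x' 0)) ∧
    ∀ w : ℕ → ℕ, w 0 = 0 → (∀ x ≤ m, ∀ x' < x, w x + lhs b κ r x x' ≤ rhs b r x (w x')) →
      ∀ x ≤ m, w x ≤ ws.getD x 0 := by
  intro m
  induction m with
  | zero =>
    intro ws h
    have h0 : ws = [0] := by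
      have : stF b κ r 0 = some [0] := rfl
      rw [this] at h
      exact (Option.some.inj h).symm
    subst h0
    refine ⟨rfl, by simp, rfl, ?_, ?_⟩
    · intro x hx x' hx'
      omega
    · intro w hw _ x hx
      have : x = 0 := by omega
      subst this
      rw [hw]
      exact Nat.zero_le _
  | succ m ih =>
    intro ws h
    rw [stF_succ] at h
    cases hF : stF b κ r m with
    | none =>
      rw [hF] at h
      simp [stepS] at h
    | some vs =>
      rw [hF] at h
      obtain ⟨h1, h2, h3, h4, h5⟩ := ih vs hF
      unfold stepS at h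
      simp only at h
      split_ifs at h with ht
      have ht' : ∀ i < m + 1, lhs b κ r (m + 1) i ≤ rhs b r (m + 1) (vs.getD i 0) := by
        intro i hi
        have := List.all_eq_true.1 ht (vs.getD i 0, i) (zip_mem (by omega))
        simpa using this
      set v := (vs.zipIdx.map fun q => rhs b r (m + 1) q.1 - lhs b κ r (m + 1) q.2).foldl min
        (r.take (m + 1)).sum with hv
      have hws : ws = vs ++ [v] := (Option.some.inj h).symm
      have hvS : v ≤ (r.take (m + 1)).sum := fmin_le _ _
      have hget : ∀ x ≤ m, ws.getD x 0 = vs.getD x 0 := by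
        intro x hx
        rw [hws, List.getD_append _ _ _ _ (by omega)]
      have hlast : ws.getD (m + 1) 0 = v := by
        rw [hws, List.getD_append_right _ _ _ _ (by omega), h1]
        simp
      have hvr : ∀ i < m + 1, v + lhs b κ r (m + 1) i ≤ rhs b r (m + 1) (vs.getD i 0) := by
        intro i hi
        have hle : v ≤ rhs b r (m + 1) (vs.getD i 0) - lhs b κ r (m + 1) i := by
          apply fmin_le_mem
          exact List.mem_map.2 ⟨(vs.getD i 0, i), zip_mem (by omega), rfl⟩
        have := ht' i hi
        omega
      refine ⟨?_, ?_, ?_, ?_, ?_⟩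
      · rw [hws, List.length_append, h1]
        rfl
      · intro c hc
        rw [hws] at hc
        rcases List.mem_append.1 hc with hc | hc
        · exact h2 c hc
        · have : c = v := by simpa using hc
          rw [this]
          refine hvS.trans ?_
          exact List.Sublist.sum_le_sum (List.take_sublist _ _) fun _ _ => Nat.zero_le _
      · rw [hget 0 (Nat.zero_le _), h3]
      · intro x hx x' hx'
        rcases Nat.lt_or_ge m x with hm | hm
        · have hxe : x = m + 1 := by omega
          subst hxe
          rw [hlast, hget x' (by omega)]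
          exact hvr x' hx'
        · rw [hget x hm, hget x' (by omega)]
          exact h4 x hm x' hx'
      · intro w hw hw2 x hx
        have hI := h5 w hw fun x hx x' hx' => hw2 x (by omega) x' hx'
        rcases Nat.lt_or_ge m x with hm | hm
        · have hxe : x = m + 1 := by omega
          subst hxe
          rw [hlast]
          apply le_fmin
          · have := hw2 (m + 1) le_rfl 0 (by omega)
            rw [hw] at this
            unfold rhs at this
            simp only [mul_zero, add_zero] at this
            omega
          · intro z hz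
            obtain ⟨q, hq, rfl⟩ := List.mem_map.1 hz
            obtain ⟨hq1, hq2⟩ := mem_zip hq
            have hq3 := hw2 (m + 1) le_rfl q.2 (by omega)
            have hq4 := rhs_mono b r (m + 1) (hI q.2 (by omega))
            rw [hq2] at hq4
            omega
        · rw [hget x hm]
          exact hI x hm

theorem botTest_iff (b κ : ℕ) (r : List ℕ) :
    botTest b κ r = true ↔ ∃ w : ℕ → ℕ, w 0 = 0 ∧ ∀ x ≤ r.length, ∀ x' < x,
      w x + lhs b κ r x x' ≤ rhs b r x (w x') := by
  constructor
  · intro h
    unfold botTest at h
    obtain ⟨ws, hws⟩ := Option.isSome_iff_exists.1 h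
    obtain ⟨h1, h2, h3, h4, h5⟩ := stInv b κ r r.length ws hws
    exact ⟨fun x => ws.getD x 0, h3, h4⟩
  · rintro ⟨w, hw, hw2⟩
    have key : ∀ m ≤ r.length, (stF b κ r m).isSome = true := by
      intro m
      induction m with
      | zero => intro _; rfl
      | succ m ih =>
        intro hm
        obtain ⟨vs, hvs⟩ := Option.isSome_iff_exists.1 (ih (by omega))
        obtain ⟨h1, h2, h3, h4, h5⟩ := stInv b κ r m vs hvs
        rw [stF_succ, hvs]
        unfold stepS
        simp only
        rw [if_pos]
        · rfl
        · apply List.all_eq_true.2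
          intro q hq
          obtain ⟨hq1, hq2⟩ := mem_zip hq
          have hI := h5 w hw (fun x hx x' hx' => hw2 x (by omega) x' hx') q.2 (by omega)
          have hq3 := hw2 (m + 1) hm q.2 (by omega)
          have hq4 := rhs_mono b r (m + 1) hI
          rw [hq2] at hq4
          apply decide_eq_true
          omega
    exact key r.length le_rfl


theorem botTest_bound (b κ : ℕ) (r : List ℕ) (m : ℕ) (ws : List ℕ)
    (h : (List.range m).foldl (fun st x => stepS b κ r st (x + 1)) (some [0]) = some ws) :
    ws.length = m + 1 ∧ ∀ c ∈ ws, c ≤ r.sum := by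
  obtain ⟨h1, h2, -⟩ := stInv b κ r m ws h
  exact ⟨h1, h2⟩


end Pool.Agent.Work.MP_1a5986_lc.WO
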