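import Pool.Agent.Work.MP_1a5986_lc.WO.Defs

/-! The algorithm (FIXED): definitions. `r` is the sorted list of the scores. -/

set_option autoImplicit false

namespace Pool.Agent.Work.MP_1a5986_lc.WO

/-- Insertion into a sorted list. -/
def insS (l : List ℕ) (a : ℕ) : List ℕ :=
  l.filter (fun c => decide (c ≤ a)) ++ a :: l.filter (fun c => decide (a < c))

/-- Sorting. -/
def sortS (l : List ℕ) : List ℕ := l.foldl insS []

/-- The amount to be subtracted. -/
def lhs (b κ : ℕ) (r : List ℕ) (x x' : ℕ) : ℕ :=
  (r.take x').sum + (x - x') * (x - 1 + κ + b * x')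

/-- The amount from which it is subtracted; `w'` is the value at `x'`. -/
def rhs (b : ℕ) (r : List ℕ) (x w' : ℕ) : ℕ := (r.take x).sum + b * w'

/-- One step: `ws` is the list of the values at `0, …, x - 1`; the value at `x` is appended. -/
def stepS (b κ : ℕ) (r : List ℕ) (st : Option (List ℕ)) (x : ℕ) : Option (List ℕ) :=
  match st with
  | none => none
  | some ws =>
    if ws.zipIdx.all (fun q => decide (lhs b κ r x q.2 ≤ rhs b r x q.1)) then
      some (ws ++ [(ws.zipIdx.map fun q => rhs b r x q.1 - lhs b κ r x q.2).foldl min
        (r.take x).sum])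
    else none

/-- The bottom inequalities. -/
def botTest (b κ : ℕ) (r : List ℕ) : Bool :=
  ((List.range r.length).foldl (fun st x => stepS b κ r st (x + 1)) (some [0])).isSome

/-- The top inequalities. -/
def topTest (b κ : ℕ) (r : List ℕ) : Bool :=
  (List.range (r.length + 1)).all fun k =>
    decide (2 * ((r.drop (r.length - k)).sum + κ * k)
      ≤ (b + 1) * (k * (k - 1) + 2 * (k * (r.length - k))))

/-- The whole test. -/
def test (b κ : ℕ) (l : List ℕ) : Bool := botTest b κ (sortS l) && topTest b κ (sortS l)

/-- One step of the reader of words: the numbers read so far (reversed) and the current one. -/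
def readStep (st : List ℕ × ℕ) (c : Bool) : List ℕ × ℕ :=
  if c then (st.1, st.2 + 1) else (st.2 :: st.1, 0)

/-- Reading a word. -/
def readW (w : List Bool) : List ℕ × ℕ := w.foldl readStep ([], 0)

/-- The test of a word. -/
def wordTest (b κ : ℕ) (w : List Bool) : Bool :=
  decide ((readW w).2 = 0) && test b κ (readW w).1.reverse

end Pool.Agent.Work.MP_1a5986_lc.WO
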