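import Pool.Agent.Work.MP_1a5986_lc.WO.AlgDefs

/-!
MODULE AlgT (S-M).  MP_1a5986_lc, board modsoc.  Correctness of the top test, for a sorted list.

For `k ≤ n = r.length` the sum of `r.get` over any set `S` of `k` indices is at most the sum of the
last `k` entries `(r.drop (n - k)).sum` (monotone), with equality for the last `k` indices. The
inequality for `S` is twice the inequality of the test, cast to the reals (`k ≤ n`; `k (k-1)` is exact
also for `k = 0`).
-/

set_option autoImplicit false

namespace Pool.Agent.Work.MP_1a5986_lc.WO

private theorem drop_sum (r : List ℕ) (m : ℕ) :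
    (r.drop m).sum = ∑ i : Fin r.length, if m ≤ (i : ℕ) then r.get i else 0 := by
  induction r generalizing m with
  | nil => simp
  | cons a r ih =>
    cases m with
    | zero =>
      simp only [List.drop_zero, List.length_cons, Nat.zero_le, if_true]
      rw [← List.sum_ofFn]
      congr 1
      exact (List.ofFn_get (a :: r)).symm
    | succ m =>
      rw [List.drop_succ_cons, ih]
      change _ = ∑ i : Fin (r.length + 1), _
      rw [Fin.sum_univ_succ]
      simp

private theorem fcard (n : ℕ) (P : ℕ → Prop) [DecidablePred P] :
    (Finset.univ.filter fun i : Fin n => P i).card = ((Finset.range n).filter P).card := by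
  refine Finset.card_bij (fun i _ => (i : ℕ)) (fun i hi => ?_) (fun i _ j _ h => Fin.ext h)
    fun j hj => ?_
  · simpa using hi
  · simp only [Finset.mem_filter, Finset.mem_range] at hj
    exact ⟨⟨j, hj.1⟩, by simpa using hj.2, rfl⟩

private theorem top_aux (r : List ℕ) (hr : r.Pairwise (· ≤ ·)) (S : Finset (Fin r.length)) :
    ∑ i ∈ S, r.get i ≤ (r.drop (r.length - S.card)).sum := by
  classical
  rw [drop_sum]
  rw [← Finset.sum_filter]
  set U : Finset (Fin r.length) := Finset.univ.filter fun i => r.length - S.card ≤ (i : ℕ)
    with hU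
  have hcard : U.card = S.card := by
    have hS : S.card ≤ r.length := by simpa using Finset.card_le_univ S
    have h1 : U.card = ((Finset.range r.length).filter fun i => r.length - S.card ≤ i).card := by
      rw [hU]
      exact fcard _ _
    rw [h1]
    have h2 : ((Finset.range r.length).filter fun i => r.length - S.card ≤ i)
        = Finset.Ico (r.length - S.card) r.length := by
      ext i
      simp only [Finset.mem_filter, Finset.mem_range, Finset.mem_Ico]
      omega
    rw [h2, Nat.card_Ico]
    omega
  have hmono : ∀ i j : Fin r.length, i ≤ j → r.get i ≤ r.get j := by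
    intro i j hij
    rcases eq_or_lt_of_le hij with rfl | hlt
    · exact le_rfl
    · exact List.pairwise_iff_get.1 hr i j hlt
  -- compare the differences
  have e1 : ∑ i ∈ S, r.get i = ∑ i ∈ S \ U, r.get i + ∑ i ∈ S ∩ U, r.get i := by
    rw [← Finset.sum_union (Finset.disjoint_sdiff_inter S U), Finset.sdiff_union_inter]
  have e2 : ∑ i ∈ U, r.get i = ∑ i ∈ U \ S, r.get i + ∑ i ∈ S ∩ U, r.get i := by
    rw [Finset.inter_comm, ← Finset.sum_union (Finset.disjoint_sdiff_inter U S),
      Finset.sdiff_union_inter]
  rw [e1, e2]
  have hc : (S \ U).card = (U \ S).card := by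
    have a1 := Finset.card_sdiff_add_card_inter S U
    have a2 := Finset.card_sdiff_add_card_inter U S
    rw [Finset.inter_comm] at a2
    omega
  refine Nat.add_le_add_right ?_ _
  rcases Finset.eq_empty_or_nonempty (U \ S) with he | ⟨u, hu⟩
  · have : (S \ U) = ∅ := by
      rw [← Finset.card_eq_zero, hc, he]
      rfl
    rw [this]
    simp
  · have hn : 0 < r.length := u.pos
    have hS0 : S.card ≤ r.length := by simpa using Finset.card_le_univ S
    have hSpos : 0 < S.card := by
      rw [← hcard]
      exact Finset.card_pos.2 ⟨u, (Finset.mem_sdiff.1 hu).1⟩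
    have hb : r.length - S.card < r.length := by omega
    calc ∑ i ∈ S \ U, r.get i ≤ (S \ U).card • r.get ⟨r.length - S.card, hb⟩ := by
          refine Finset.sum_le_card_nsmul _ _ _ fun i hi => hmono _ _ ?_
          have : ¬ (r.length - S.card ≤ (i : ℕ)) := by
            have := (Finset.mem_sdiff.1 hi).2
            simpa [hU] using this
          rw [Fin.le_def]
          simp only
          omega
      _ = (U \ S).card • r.get ⟨r.length - S.card, hb⟩ := by rw [hc]
      _ ≤ ∑ i ∈ U \ S, r.get i := by
          refine Finset.card_nsmul_le_sum _ _ _ fun i hi => hmono _ _ ?_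
          have := (Finset.mem_sdiff.1 hi).1
          rw [Fin.le_def]
          simpa [hU] using this

theorem topTest_iff (b κ : ℕ) (r : List ℕ) (hr : r.Pairwise (· ≤ ·)) :
    topTest b κ r = true ↔
      ∀ S : Finset (Fin r.length), ∑ i ∈ S, (((r.get i : ℕ) : ℝ) + κ)
        ≤ ((b : ℝ) + 1) * ((S.card : ℝ) * (S.card - 1) / 2 + S.card * (r.length - S.card)) := by
  classical
  have hcast : ∀ k : ℕ, k ≤ r.length →
      ((((b + 1) * (k * (k - 1) + 2 * (k * (r.length - k))) : ℕ)) : ℝ)
        = 2 * (((b : ℝ) + 1) * ((k : ℝ) * (k - 1) / 2 + k * (r.length - k))) := by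
    intro k hk
    push_cast [Nat.cast_sub hk]
    rcases Nat.eq_zero_or_pos k with rfl | hk0
    · simp
    · rw [Nat.cast_sub hk0]
      push_cast
      ring
  simp only [topTest, List.all_eq_true, List.mem_range, decide_eq_true_eq]
  constructor
  · intro h S
    have hS : S.card ≤ r.length := by simpa using Finset.card_le_univ S
    have h1 := h S.card (by omega)
    have h2 := top_aux r hr S
    have h3 : (2 : ℝ) * (((r.drop (r.length - S.card)).sum : ℝ) + κ * S.card)
        ≤ 2 * (((b : ℝ) + 1) * ((S.card : ℝ) * (S.card - 1) / 2 + S.card * (r.length - S.card))) := by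
      rw [← hcast _ hS]
      exact_mod_cast h1
    have h4 : (∑ i ∈ S, ((r.get i : ℕ) : ℝ)) ≤ ((r.drop (r.length - S.card)).sum : ℝ) := by
      exact_mod_cast h2
    rw [Finset.sum_add_distrib, Finset.sum_const, nsmul_eq_mul]
    nlinarith
  · intro h k hk
    have hk' : k ≤ r.length := by omega
    have h1 := h (Finset.univ.filter fun i : Fin r.length => r.length - k ≤ (i : ℕ))
    have hcard : (Finset.univ.filter fun i : Fin r.length => r.length - k ≤ (i : ℕ)).card = k := by
      have h1 : (Finset.univ.filter fun i : Fin r.length => r.length - k ≤ (i : ℕ)).card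
          = ((Finset.range r.length).filter fun i => r.length - k ≤ i).card :=
        fcard _ _
      rw [h1]
      have h2 : ((Finset.range r.length).filter fun i => r.length - k ≤ i)
          = Finset.Ico (r.length - k) r.length := by
        ext i
        simp only [Finset.mem_filter, Finset.mem_range, Finset.mem_Ico]
        omega
      rw [h2, Nat.card_Ico]
      omega
    rw [hcard, Finset.sum_add_distrib, Finset.sum_const, nsmul_eq_mul, hcard] at h1
    have h2 := drop_sum r (r.length - k)
    rw [← Finset.sum_filter] at h2
    have h3 : ((r.drop (r.length - k)).sum : ℝ)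
        = ∑ i ∈ Finset.univ.filter (fun i : Fin r.length => r.length - k ≤ (i : ℕ)),
          ((r.get i : ℕ) : ℝ) := by
      rw [h2]
      push_cast
      rfl
    rw [← h3] at h1
    have h4 : ((2 * ((r.drop (r.length - k)).sum + κ * k) : ℕ) : ℝ)
        ≤ (((b + 1) * (k * (k - 1) + 2 * (k * (r.length - k))) : ℕ) : ℝ) := by
      rw [hcast k hk', Nat.cast_mul, Nat.cast_add, Nat.cast_mul]
      have : ((2 : ℕ) : ℝ) = 2 := by norm_num
      rw [this]
      linarith
    exact_mod_cast h4

end Pool.Agent.Work.MP_1a5986_lc.WO
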