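import Pool.Agent.Work.MP_1a5986_lc.WO.Peel

/-!
MODULE ChainU (M).  MP_1a5986_lc, board modsoc.  The recursion is attained by chains.

Proof of `chain_attain` by strong induction on `x`; claim: there is `χ` with `NoGap b χ`,
`χ i = 0` for `x ≤ i`, `1 ≤ χ i` for `i < x` and `∑ χ τ + low b χ = w x`. `x = 0`: `χ = 0`. Otherwise take
`x' < x` from `hw`, the function `χ'` for `x'` and `χ = peel b x' x χ'`; `peel_eq` gives the value.
`NoGap b χ`: for `i < x'`, `χ i = b * χ' i`; if `χ' i = 1`, take `j` with `j.val = x'` (`x' < x ≤ n`), `χ j = 1`;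
otherwise `χ' i = b * χ' k` with `χ' k ≠ 0`, so `k < x'` and `χ k = b * χ' k = χ' i`.
-/

set_option autoImplicit false

namespace Pool.Agent.Work.MP_1a5986_lc.WO

variable {n : ℕ}

private theorem chainU_aux (b : ℕ) (hb : 2 ≤ b) (τ : Fin n → ℝ) (w : ℕ → ℝ) (h0 : w 0 = 0)
    (hw : ∀ x ≤ n, 0 < x → ∃ x' < x,
      w x = pre τ x - pre τ x' + ((x : ℝ) - x') * ((n : ℝ) - x - b * x') + b * w x')
    (x : ℕ) : x ≤ n →
    ∃ χ : Fin n → ℕ, NoGap b χ ∧ (∀ i : Fin n, x ≤ (i : ℕ) → χ i = 0) ∧
      (∀ i : Fin n, (i : ℕ) < x → 1 ≤ χ i) ∧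
      ∑ i, (χ i : ℝ) * τ i + low b (fun i => (χ i : ℝ)) = w x := by
  induction x using Nat.strong_induction_on with
  | _ x ih =>
    intro hx
    rcases Nat.eq_zero_or_pos x with hx0 | hx0
    · subst hx0
      refine ⟨fun _ => 0, fun i => Or.inl rfl, fun i _ => rfl,
        fun i hi => absurd hi (Nat.not_lt_zero _), ?_⟩
      rw [h0]
      simp [low]
    · obtain ⟨x', hx', hwx⟩ := hw x hx hx0
      obtain ⟨χ', hg, hz, hp, hv⟩ := ih x' hx' (by omega)
      refine ⟨peel b x' x χ', ?_, ?_, ?_, ?_⟩
      · intro i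
        by_cases h1 : (i : ℕ) < x'
        · have e1 : peel b x' x χ' i = b * χ' i := if_pos h1
          have hpi := hp i h1
          rcases hg i with h2 | h2 | ⟨j, h2⟩
          · omega
          · right; right
            have hx'n : x' < n := by omega
            refine ⟨⟨x', hx'n⟩, ?_⟩
            have e2 : peel b x' x χ' ⟨x', hx'n⟩ = 1 := by
              unfold peel
              rw [if_neg (lt_irrefl x'), if_pos hx']
            rw [e1, e2, h2]
          · right; right
            refine ⟨j, ?_⟩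
            have hj : (j : ℕ) < x' := by
              by_contra hj
              have := hz j (by omega)
              rw [this] at h2
              omega
            have e2 : peel b x' x χ' j = b * χ' j := if_pos hj
            rw [e1, e2, ← h2]
        · by_cases h2 : (i : ℕ) < x
          · right; left
            unfold peel
            rw [if_neg h1, if_pos h2]
          · left
            unfold peel
            rw [if_neg h1, if_neg h2]
      · intro i hi
        unfold peel
        rw [if_neg (by omega), if_neg (by omega)]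
      · intro i hi
        unfold peel
        by_cases h1 : (i : ℕ) < x'
        · rw [if_pos h1]
          exact Nat.mul_pos (by omega) (hp i h1)
        · rw [if_neg h1, if_pos hi]
      · rw [peel_eq b (by omega) τ x' x hx' hx χ' hz hp, hv, hwx]

theorem chain_attain (b : ℕ) (hb : 2 ≤ b) (τ : Fin n → ℝ) (w : ℕ → ℝ) (h0 : w 0 = 0)
    (hw : ∀ x ≤ n, 0 < x → ∃ x' < x,
      w x = pre τ x - pre τ x' + ((x : ℝ) - x') * ((n : ℝ) - x - b * x') + b * w x')
    (x : ℕ) (hx : x ≤ n) :
    ∃ χ : Fin n → ℕ, NoGap b χ ∧ ∑ i, (χ i : ℝ) * τ i + low b (fun i => (χ i : ℝ)) = w x := by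
  obtain ⟨χ, h1, _, _, h4⟩ := chainU_aux b hb τ w h0 hw x hx
  exact ⟨χ, h1, h4⟩

end Pool.Agent.Work.MP_1a5986_lc.WO
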