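import Pool.Agent.Work.MP_1a5986_lc.WO.Defs

/-!
MODULE SortR (S-M).  MP_1a5986_lc, board modsoc.  Rearrangement.

Proof. Let `σ` be a permutation with `χ ∘ σ` antitone (e.g. `Tuple.sort` of `OrderDual.toDual ∘ χ`).
`NoGap b (χ ∘ σ)` and `low b (χ ∘ σ) = low b χ` (`Equiv.sum_comp` twice). By the rearrangement inequality
(`Antivary.sum_mul_le_sum_mul_comp_perm` or `_comp_perm_mul`, with the antitone `χ ∘ σ` and the
monotone `τ`) `∑ (χ ∘ σ) i * τ i ≤ ∑ χ i * τ i`.
-/

set_option autoImplicit false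

namespace Pool.Agent.Work.MP_1a5986_lc.WO

variable {n : ℕ}

theorem sort_red (b : ℕ) (τ : Fin n → ℝ) (hτ : Monotone τ)
    (h : ∀ χ : Fin n → ℕ, NoGap b χ → Antitone χ →
      0 ≤ ∑ i, (χ i : ℝ) * τ i + low b (fun i => (χ i : ℝ)))
    (χ : Fin n → ℕ) (hχ : NoGap b χ) :
    0 ≤ ∑ i, (χ i : ℝ) * τ i + low b (fun i => (χ i : ℝ)) := by
  let σ : Equiv.Perm (Fin n) := Tuple.sort (fun i => OrderDual.toDual (χ i))
  have hanti : Antitone (χ ∘ σ) := by
    intro i j hij
    have := Tuple.monotone_sort (fun i => OrderDual.toDual (χ i)) hij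
    exact this
  have hgap : NoGap b (χ ∘ σ) := by
    intro i
    rcases hχ (σ i) with h1 | h1 | ⟨j, h1⟩
    · exact Or.inl h1
    · exact Or.inr (Or.inl h1)
    · refine Or.inr (Or.inr ⟨σ.symm j, ?_⟩)
      rw [Function.comp_apply, Function.comp_apply, Equiv.apply_symm_apply]
      exact h1
  have h1 := h (χ ∘ σ) hgap hanti
  have hlow : low b (fun i => ((χ ∘ σ) i : ℝ)) = low b (fun i => (χ i : ℝ)) := by
    unfold low
    rw [← Equiv.sum_comp σ (fun i => ∑ j, max 0 ((χ j : ℝ) - b * (χ i : ℝ)))]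
    apply Finset.sum_congr rfl
    intro i _
    rw [← Equiv.sum_comp σ (fun j => max 0 ((χ j : ℝ) - b * (χ (σ i) : ℝ)))]
    rfl
  have hr : ∑ i, ((χ ∘ σ) i : ℝ) * τ i ≤ ∑ i, (χ i : ℝ) * τ i := by
    have ha : Antivary (fun i => ((χ ∘ σ) i : ℝ)) τ := by
      apply Antitone.antivary _ hτ
      intro i j hij
      exact Nat.cast_le.2 (hanti hij)
    have h2 := ha.sum_mul_le_sum_comp_perm_mul (σ := σ.symm)
    refine le_trans h2 (le_of_eq ?_)
    apply Finset.sum_congr rfl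
    intro i _
    rw [Function.comp_apply, Equiv.apply_symm_apply]
  rw [hlow] at h1
  linarith

end Pool.Agent.Work.MP_1a5986_lc.WO
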