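import Pool.Agent.Work.MP_1a5986_lc.WO.ChainL
import Pool.Agent.Work.MP_1a5986_lc.WO.ChainU
import Pool.Agent.Work.MP_1a5986_lc.WO.SortR

/-!
MODULE ChainI (M).  MP_1a5986_lc, board modsoc.  The bottom inequalities of a monotone sequence of
natural numbers are equivalent to the existence of a potential.

With `τ i = r i - (n - 1) - κ` and `preN r x = ∑_{i < x} r i` one has
`pre τ x - pre τ x' + (x - x') (n - x - b x') = preN r x - preN r x' - (x - x') (x - 1 + κ + b x')` for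
`x' < x ≤ n` (the truncated subtractions on the right are exact).
(⇐) `sort_red` (`τ` is monotone) and `chain_lower` with `w` cast to the reals.
(⇒) Define `W : ℕ → ℤ` by strong recursion: `W 0 = 0`, `W x = min` over `x' < x` of
`preN r x - preN r x' - (x - x') (x - 1 + κ + b x') + b * W x'` (for all `x`; with `preN r x = preN r n` for
`x > n`). By `chain_attain` (with `w = W` cast to the reals) and the hypothesis, `W x ≥ 0` for `x ≤ n`;
take `w x = (W x).toNat`.
-/

set_option autoImplicit false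

namespace Pool.Agent.Work.MP_1a5986_lc.WO

variable {n : ℕ}

/-- The sum of the first `x` values. -/
def preN (r : Fin n → ℕ) (x : ℕ) : ℕ := ∑ i : Fin n, if (i : ℕ) < x then r i else 0

/-- The recursion. -/
private noncomputable def wRec (c : ℕ → ℕ → ℤ) (b : ℤ) : ℕ → ℤ
  | 0 => 0
  | (x + 1) => (Finset.univ : Finset (Fin (x + 1))).inf' ⟨0, Finset.mem_univ _⟩
      (fun x' => c (x + 1) x' + b * wRec c b x')
termination_by x => x
decreasing_by exact x'.2

private theorem wRec_zero (c : ℕ → ℕ → ℤ) (b : ℤ) : wRec c b 0 = 0 := by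
  rw [wRec]

private theorem wRec_le (c : ℕ → ℕ → ℤ) (b : ℤ) (x x' : ℕ) (h : x' < x) :
    wRec c b x ≤ c x x' + b * wRec c b x' := by
  obtain ⟨y, rfl⟩ : ∃ y, x = y + 1 := ⟨x - 1, by omega⟩
  rw [wRec]
  exact Finset.inf'_le (fun x' : Fin (y + 1) => c (y + 1) x' + b * wRec c b x')
    (Finset.mem_univ (⟨x', h⟩ : Fin (y + 1)))

private theorem wRec_eq (c : ℕ → ℕ → ℤ) (b : ℤ) (x : ℕ) (h : 0 < x) :
    ∃ x' < x, wRec c b x = c x x' + b * wRec c b x' := by
  obtain ⟨y, rfl⟩ : ∃ y, x = y + 1 := ⟨x - 1, by omega⟩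
  obtain ⟨x', -, hx'⟩ := Finset.exists_mem_eq_inf' (s := (Finset.univ : Finset (Fin (y + 1))))
    ⟨0, Finset.mem_univ _⟩ (fun x' : Fin (y + 1) => c (y + 1) x' + b * wRec c b x')
  refine ⟨x', x'.2, ?_⟩
  rw [wRec]
  exact hx'

private theorem cnt_lt (x : ℕ) (hx : x ≤ n) :
    ∑ i : Fin n, (if (i : ℕ) < x then (1 : ℝ) else 0) = x := by
  rw [Finset.sum_boole]
  have h : (Finset.univ.filter fun i : Fin n => (i : ℕ) < x) =
      (Finset.univ : Finset (Fin x)).map (Fin.castLEEmb hx) := by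
    ext i
    simp only [Finset.mem_filter, Finset.mem_univ, true_and, Finset.mem_map]
    constructor
    · intro h
      exact ⟨⟨i, h⟩, by ext; rfl⟩
    · rintro ⟨a, rfl⟩
      exact a.2
  rw [h, Finset.card_map, Finset.card_univ, Fintype.card_fin]

private theorem pre_eq (κ : ℕ) (r : Fin n → ℕ) (x : ℕ) (hx : x ≤ n) :
    pre (fun i => (r i : ℝ) - ((n : ℝ) - 1) - κ) x =
      (preN r x : ℝ) - x * (((n : ℝ) - 1) + κ) := by
  unfold pre preN
  rw [← cnt_lt (n := n) x hx, Nat.cast_sum, Finset.sum_mul, ← Finset.sum_sub_distrib]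
  refine Finset.sum_congr rfl fun i _ => ?_
  by_cases h : (i : ℕ) < x
  · simp only [if_pos h]
    ring
  · simp only [if_neg h]
    simp

private theorem step_eq (b κ : ℕ) (r : Fin n → ℕ) (x x' : ℕ) (hx : x ≤ n) (hxx : x' < x)
    (w : ℝ) :
    pre (fun i => (r i : ℝ) - ((n : ℝ) - 1) - κ) x - pre (fun i => (r i : ℝ) - ((n : ℝ) - 1) - κ) x'
      + ((x : ℝ) - x') * ((n : ℝ) - x - b * x') + b * w =
    (preN r x : ℝ) - preN r x' - ((x : ℝ) - x') * ((x : ℝ) - 1 + κ + b * x') + b * w := by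
  rw [pre_eq κ r x hx, pre_eq κ r x' (by omega)]
  ring

theorem chain_iff (b κ : ℕ) (hb : 2 ≤ b) (r : Fin n → ℕ) (hr : Monotone r) :
    (∀ χ : Fin n → ℕ, NoGap b χ →
      0 ≤ ∑ i, (χ i : ℝ) * ((r i : ℝ) - ((n : ℝ) - 1) - κ) + low b (fun i => (χ i : ℝ))) ↔
    ∃ w : ℕ → ℕ, w 0 = 0 ∧ ∀ x ≤ n, ∀ x' < x,
      w x + (preN r x' + (x - x') * (x - 1 + κ + b * x')) ≤ preN r x + b * w x' := by
  have hτ : Monotone (fun i => (r i : ℝ) - ((n : ℝ) - 1) - κ) := by
    intro i j hij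
    have h1 : (r i : ℝ) ≤ r j := by exact_mod_cast hr hij
    show (r i : ℝ) - ((n : ℝ) - 1) - κ ≤ (r j : ℝ) - ((n : ℝ) - 1) - κ
    linarith
  constructor
  · intro H
    set c : ℕ → ℕ → ℤ := fun x x' => (preN r x : ℤ) - preN r x' -
      ((x : ℤ) - x') * ((x : ℤ) - 1 + κ + b * x') with hc
    have hnn : ∀ x ≤ n, 0 ≤ wRec c b x := by
      intro x hx
      obtain ⟨χ, h1, h2⟩ := chain_attain b hb (fun i => (r i : ℝ) - ((n : ℝ) - 1) - κ)
        (fun x => ((wRec c b x : ℤ) : ℝ)) (by simp [wRec_zero]) (by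
          intro x hx h0
          obtain ⟨x', hxx, h3⟩ := wRec_eq c b x h0
          refine ⟨x', hxx, ?_⟩
          rw [step_eq b κ r x x' hx hxx]
          show ((wRec c b x : ℤ) : ℝ) = _
          rw [h3, hc]
          push_cast
          ring) x hx
      have h3 := H χ h1
      rw [h2] at h3
      exact_mod_cast h3
    refine ⟨fun x => (wRec c b x).toNat, by simp [wRec_zero], ?_⟩
    intro x hx x' hxx
    have h1 : (((wRec c b x).toNat : ℕ) : ℤ) = wRec c b x := Int.toNat_of_nonneg (hnn x hx)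
    have h2 : (((wRec c b x').toNat : ℕ) : ℤ) = wRec c b x' :=
      Int.toNat_of_nonneg (hnn x' (by omega))
    have h3 := wRec_le c b x x' hxx
    have h4 : ((x - x' : ℕ) : ℤ) = (x : ℤ) - x' := Nat.cast_sub hxx.le
    have h5 : ((x - 1 : ℕ) : ℤ) = (x : ℤ) - 1 := by
      rw [Nat.cast_sub (by omega)]
      simp
    have h6 : (((wRec c b x).toNat + (preN r x' + (x - x') * (x - 1 + κ + b * x')) : ℕ) : ℤ) ≤
        ((preN r x + b * (wRec c b x').toNat : ℕ) : ℤ) := by
      push_cast [h4, h5]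
      rw [h1, h2]
      simp only [hc] at h3
      linarith
    exact_mod_cast h6
  · rintro ⟨w, h0, hw⟩ χ hχ
    refine sort_red b (fun i => (r i : ℝ) - ((n : ℝ) - 1) - κ) hτ ?_ χ hχ
    intro χ' hχ' ha
    refine chain_lower b hb (fun i => (r i : ℝ) - ((n : ℝ) - 1) - κ) (fun x => (w x : ℝ))
      (by simp [h0]) ?_ (fun x _ => Nat.cast_nonneg _) χ' hχ' ha
    intro x hx x' hxx
    rw [step_eq b κ r x x' hx hxx]
    have h1 := hw x hx x' hxx
    have h4 : ((x - x' : ℕ) : ℝ) = (x : ℝ) - x' := Nat.cast_sub hxx.le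
    have h5 : ((x - 1 : ℕ) : ℝ) = (x : ℝ) - 1 := by
      rw [Nat.cast_sub (by omega)]
      simp
    have h6 : ((w x + (preN r x' + (x - x') * (x - 1 + κ + b * x')) : ℕ) : ℝ) ≤
        ((preN r x + b * w x' : ℕ) : ℝ) := by exact_mod_cast h1
    push_cast [h4, h5] at h6
    show (w x : ℝ) ≤ _
    linarith

end Pool.Agent.Work.MP_1a5986_lc.WO
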