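import Pool.Agent.Work.MP_1a5986_lc.WO.Defs

/-!
MODULE GapR (M).  MP_1a5986_lc, board modsoc.  Powers of `b` reduce to powers without gaps.

Write `F χ = ∑ i, χ i * τ i + low b χ`; `F (c χ) = c F χ` for `c ≥ 0`.
* `nogap_red`. Step 1: multiply by `b ^ N` for a large natural `N`: we may assume that all values are
  `0` or `b ^ k` with `k : ℕ`, so `χ` comes from a function `Fin n → ℕ`. Step 2: strong induction on
  `∑ i, χ i` (natural number). If `NoGap b χ`, use `h`. Otherwise there are `i` and `e : ℕ` with
  `χ i = b ^ (e+1)` and `χ j ≠ b ^ e` for all `j`. Let `U = {j | b ^ (e+1) ≤ χ j}` (contains `i`). For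
  `j ∉ U` we have `b * χ j ≤ b ^ e` (a power of `b` below `b ^ (e+1)` and not `b ^ e`, or `0`). Let
  `z' = χ / b` on `U`, `χ` off `U`, and `u = χ / b` on `U`, `0` off `U`: powers of `b` or `0`, smaller sums.
  Claim `F χ = F z' + (b - 1) F u`. The linear part is clear. The terms `max 0 (χ j - b χ i)`:
  - `i ∉ U`, `j ∈ U`: `χ j - b χ i`, for `z'`: `χ j / b - b χ i ≥ 0`, for `u`: `χ j / b`. Sum correct.
  - `i ∈ U`, `j ∉ U`: all three are `0` (`χ j ≤ b ^ e < χ i`).
  - `i, j ∈ U`: `z'` and `u` give the term divided by `b`.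
  - `i, j ∉ U`: `z'` gives the term, `u` gives `0`.
* `nogap_pow`: by strong induction on `χ i`: if `χ i ≠ 0` then `χ i = b ^ k` and all `b ^ 0, …, b ^ k` are
  values of `χ`; these are `k + 1` different values, so `k + 1 ≤ n`.
-/

set_option autoImplicit false

namespace Pool.Agent.Work.MP_1a5986_lc.WO

variable {n : ℕ}

private theorem low_smul (b : ℝ) (c : ℝ) (hc : 0 ≤ c) (z : Fin n → ℝ) :
    low b (fun i => c * z i) = c * low b z := by
  unfold low
  rw [Finset.mul_sum]
  refine Finset.sum_congr rfl fun i _ => ?_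
  rw [Finset.mul_sum]
  refine Finset.sum_congr rfl fun j _ => ?_
  have h1 : c * z j - b * (c * z i) = c * (z j - b * z i) := by ring
  rw [h1]
  rcases le_total 0 (z j - b * z i) with h | h
  · rw [max_eq_right h, max_eq_right (mul_nonneg hc h)]
  · rw [max_eq_left h, max_eq_left (mul_nonpos_of_nonneg_of_nonpos hc h), mul_zero]

private theorem red_nat (b : ℕ) (hb : 2 ≤ b) (τ : Fin n → ℝ)
    (h : ∀ χ : Fin n → ℕ, NoGap b χ → 0 ≤ ∑ i, (χ i : ℝ) * τ i + low b (fun i => (χ i : ℝ))) :
    ∀ (S : ℕ) (χ : Fin n → ℕ), (∀ i, χ i = 0 ∨ ∃ k : ℕ, χ i = b ^ k) → ∑ i, χ i = S →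
      0 ≤ ∑ i, (χ i : ℝ) * τ i + low b (fun i => (χ i : ℝ)) := by
  intro S
  induction S using Nat.strong_induction_on with
  | _ S ih =>
    intro χ hχ hS
    by_cases hg : NoGap b χ
    · exact h χ hg
    · unfold NoGap at hg
      push Not at hg
      obtain ⟨i, hi0, hi1, hij⟩ := hg
      obtain ⟨k, hk⟩ := (hχ i).resolve_left hi0
      obtain ⟨e, rfl⟩ : ∃ e, k = e + 1 := by
        cases k with
        | zero => exact absurd (by simpa using hk) hi1
        | succ e => exact ⟨e, rfl⟩
      have hne : ∀ j, χ j ≠ b ^ e := by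
        intro j hj
        apply hij j
        rw [hk, hj, pow_succ, mul_comm]
      have hb1 : 1 < b := by omega
      have hU : ∀ j, b ^ (e + 1) ≤ χ j → ∃ a : ℕ, χ j = b * a ∧ b ^ e ≤ a ∧
          (a = 0 ∨ ∃ k : ℕ, a = b ^ k) := by
        intro j hj
        rcases hχ j with h0 | ⟨k, hk'⟩
        · exfalso
          rw [h0] at hj
          have := Nat.pos_of_ne_zero (pow_ne_zero (e + 1) (by omega : b ≠ 0))
          omega
        · rw [hk'] at hj
          have hle : e + 1 ≤ k := (Nat.pow_le_pow_iff_right hb1).1 hj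
          obtain ⟨m, rfl⟩ : ∃ m, k = m + 1 := ⟨k - 1, by omega⟩
          refine ⟨b ^ m, ?_, Nat.pow_le_pow_right (by omega) (by omega), Or.inr ⟨m, rfl⟩⟩
          rw [hk', pow_succ, mul_comm]
      have hV : ∀ j, ¬ b ^ (e + 1) ≤ χ j → b * χ j ≤ b ^ e := by
        intro j hj
        rcases hχ j with h0 | ⟨k, hk'⟩
        · rw [h0]; simp
        · rw [hk'] at hj ⊢
          have hlt : k < e + 1 := by
            by_contra hcon
            exact hj (Nat.pow_le_pow_right (by omega) (by omega))
          have hke : k ≠ e := by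
            intro hke
            exact hne j (by rw [hk', hke])
          calc b * b ^ k = b ^ (k + 1) := by rw [pow_succ, mul_comm]
            _ ≤ b ^ e := Nat.pow_le_pow_right (by omega) (by omega)
      classical
      choose! a ha using hU
      let z : Fin n → ℕ := fun j => if b ^ (e + 1) ≤ χ j then a j else χ j
      let u : Fin n → ℕ := fun j => if b ^ (e + 1) ≤ χ j then a j else 0
      have hzle : ∀ j, z j ≤ χ j := by
        intro j
        show (if b ^ (e + 1) ≤ χ j then a j else χ j) ≤ χ j
        split_ifs with hj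
        · rw [(ha j hj).1]
          exact Nat.le_mul_of_pos_left _ (by omega)
        · exact le_rfl
      have hule : ∀ j, u j ≤ z j := by
        intro j
        show (if b ^ (e + 1) ≤ χ j then a j else 0) ≤ (if b ^ (e + 1) ≤ χ j then a j else χ j)
        split_ifs with hj
        · exact le_rfl
        · exact Nat.zero_le _
      have hzi : z i < χ i := by
        have hii : b ^ (e + 1) ≤ χ i := by rw [hk]
        have h1 : z i = a i := if_pos hii
        rw [h1]
        have h2 := (ha i hii).1
        have h3 := (ha i hii).2.1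
        have h4 := Nat.pos_of_ne_zero (pow_ne_zero e (by omega : b ≠ 0))
        rw [h2]
        nlinarith
      have hzs : ∑ j, z j < S := by
        rw [← hS]
        exact Finset.sum_lt_sum (fun j _ => hzle j) ⟨i, Finset.mem_univ _, hzi⟩
      have hus : ∑ j, u j < S := lt_of_le_of_lt (Finset.sum_le_sum fun j _ => hule j) hzs
      have hz1 := ih _ hzs z (by
        intro j
        show (if b ^ (e + 1) ≤ χ j then a j else χ j) = 0 ∨
          ∃ k, (if b ^ (e + 1) ≤ χ j then a j else χ j) = b ^ k
        split_ifs with hj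
        · exact (ha j hj).2.2
        · exact hχ j) rfl
      have hu1 := ih _ hus u (by
        intro j
        show (if b ^ (e + 1) ≤ χ j then a j else 0) = 0 ∨
          ∃ k, (if b ^ (e + 1) ≤ χ j then a j else 0) = b ^ k
        split_ifs with hj
        · exact (ha j hj).2.2
        · exact Or.inl rfl) rfl
      have hbR : (2 : ℝ) ≤ b := by exact_mod_cast hb
      have key : ∑ i, (χ i : ℝ) * τ i + low b (fun i => (χ i : ℝ))
          = (∑ i, (z i : ℝ) * τ i + low b (fun i => (z i : ℝ)))
            + ((b : ℝ) - 1) * (∑ i, (u i : ℝ) * τ i + low b (fun i => (u i : ℝ))) := by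
        have e1 : ∑ i, (χ i : ℝ) * τ i
            = ∑ i, (z i : ℝ) * τ i + ((b : ℝ) - 1) * ∑ i, (u i : ℝ) * τ i := by
          rw [Finset.mul_sum, ← Finset.sum_add_distrib]
          refine Finset.sum_congr rfl fun j _ => ?_
          by_cases hj : b ^ (e + 1) ≤ χ j
          · have h1 : z j = a j := if_pos hj
            have h2 : u j = a j := if_pos hj
            rw [h1, h2, (ha j hj).1]
            push_cast
            ring
          · have h1 : z j = χ j := if_neg hj
            have h2 : u j = 0 := if_neg hj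
            rw [h1, h2]
            push_cast
            ring
        have e2 : low b (fun i => (χ i : ℝ)) = low b (fun i => (z i : ℝ))
            + ((b : ℝ) - 1) * low b (fun i => (u i : ℝ)) := by
          unfold low
          rw [Finset.mul_sum, ← Finset.sum_add_distrib]
          refine Finset.sum_congr rfl fun p _ => ?_
          rw [Finset.mul_sum, ← Finset.sum_add_distrib]
          refine Finset.sum_congr rfl fun q _ => ?_
          have hpeR : (1 : ℝ) ≤ (b : ℝ) ^ e := one_le_pow₀ (by linarith)
          show max 0 ((χ q : ℝ) - b * (χ p : ℝ)) = max 0 ((z q : ℝ) - b * (z p : ℝ))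
            + ((b : ℝ) - 1) * max 0 ((u q : ℝ) - b * (u p : ℝ))
          by_cases hp : b ^ (e + 1) ≤ χ p
          · have h1 : z p = a p := if_pos hp
            have h2 : u p = a p := if_pos hp
            have h3 : (b : ℝ) ^ e ≤ (a p : ℝ) := by exact_mod_cast (ha p hp).2.1
            by_cases hq : b ^ (e + 1) ≤ χ q
            · have h4 : z q = a q := if_pos hq
              have h5 : u q = a q := if_pos hq
              rw [h1, h2, h4, h5, (ha p hp).1, (ha q hq).1]
              push_cast
              have h6 : (b : ℝ) * (a q : ℝ) - b * (b * (a p : ℝ)) = b * ((a q : ℝ) - b * a p) := by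
                ring
              rw [h6]
              rcases le_total 0 ((a q : ℝ) - b * a p) with h | h
              · rw [max_eq_right h, max_eq_right (mul_nonneg (by linarith) h)]
                ring
              · rw [max_eq_left h,
                  max_eq_left (mul_nonpos_of_nonneg_of_nonpos (by linarith) h)]
                ring
            · have h4 : z q = χ q := if_neg hq
              have h5 : u q = 0 := if_neg hq
              have h6 : (b : ℝ) * (χ q : ℝ) ≤ (b : ℝ) ^ e := by exact_mod_cast hV q hq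
              have h7 : (0 : ℝ) ≤ (χ q : ℝ) := Nat.cast_nonneg _
              rw [h1, h2, h4, h5, (ha p hp).1]
              push_cast
              have h8 : (χ q : ℝ) ≤ (a p : ℝ) := by nlinarith
              have h9 : (0 : ℝ) ≤ (a p : ℝ) := Nat.cast_nonneg _
              have h10 : (χ q : ℝ) - b * (a p : ℝ) ≤ 0 := by nlinarith
              have h11 : (χ q : ℝ) - b * (b * (a p : ℝ)) ≤ 0 := by
                have : (a p : ℝ) ≤ b * (a p : ℝ) := by nlinarith
                nlinarith
              have h12 : (0 : ℝ) - b * (a p : ℝ) ≤ 0 := by nlinarith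
              rw [max_eq_left h10, max_eq_left h11, max_eq_left h12]
              ring
          · have h1 : z p = χ p := if_neg hp
            have h2 : u p = 0 := if_neg hp
            have h6 : (b : ℝ) * (χ p : ℝ) ≤ (b : ℝ) ^ e := by exact_mod_cast hV p hp
            by_cases hq : b ^ (e + 1) ≤ χ q
            · have h4 : z q = a q := if_pos hq
              have h5 : u q = a q := if_pos hq
              have h3 : (b : ℝ) ^ e ≤ (a q : ℝ) := by exact_mod_cast (ha q hq).2.1
              rw [h1, h2, h4, h5, (ha q hq).1]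
              push_cast
              have h7 : (0 : ℝ) ≤ (a q : ℝ) - b * (χ p : ℝ) := by linarith
              have h8 : (0 : ℝ) ≤ b * (a q : ℝ) - b * (χ p : ℝ) := by nlinarith
              have h9 : (0 : ℝ) ≤ (a q : ℝ) - b * 0 := by
                have : (0 : ℝ) ≤ (a q : ℝ) := Nat.cast_nonneg _
                linarith
              rw [max_eq_right h7, max_eq_right h8, max_eq_right h9]
              ring
            · have h4 : z q = χ q := if_neg hq
              have h5 : u q = 0 := if_neg hq
              rw [h1, h2, h4, h5]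
              simp
        rw [e1, e2]
        ring
      rw [key]
      have h3 : (0 : ℝ) ≤ (b : ℝ) - 1 := by linarith
      exact add_nonneg hz1 (mul_nonneg h3 hu1)

theorem nogap_red (b : ℕ) (hb : 2 ≤ b) (τ : Fin n → ℝ)
    (h : ∀ χ : Fin n → ℕ, NoGap b χ → 0 ≤ ∑ i, (χ i : ℝ) * τ i + low b (fun i => (χ i : ℝ)))
    (χ : Fin n → ℝ) (hχ : ∀ i, χ i = 0 ∨ ∃ k : ℤ, χ i = (b : ℝ) ^ k) :
    0 ≤ ∑ i, χ i * τ i + low b χ := by
  classical
  have hbR : (2 : ℝ) ≤ b := by exact_mod_cast hb
  have hb0 : (0 : ℝ) < b := by linarith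
  -- the exponents
  have hex : ∀ i, ∃ k : ℤ, χ i = 0 ∨ χ i = (b : ℝ) ^ k := by
    intro i
    rcases hχ i with h0 | ⟨k, hk⟩
    · exact ⟨0, Or.inl h0⟩
    · exact ⟨k, Or.inr hk⟩
  choose k hk using hex
  let N : ℕ := ∑ i, (k i).natAbs
  have hN : ∀ i, 0 ≤ k i + N := by
    intro i
    have h1 : (k i).natAbs ≤ N :=
      Finset.single_le_sum (f := fun i => (k i).natAbs) (fun _ _ => Nat.zero_le _)
        (Finset.mem_univ i)
    have h2 : -(k i) ≤ ((k i).natAbs : ℤ) := by omega
    have h3 : ((k i).natAbs : ℤ) ≤ (N : ℤ) := by exact_mod_cast h1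
    linarith
  let χ' : Fin n → ℕ := fun i => if χ i = 0 then 0 else b ^ (k i + N).toNat
  have hχ' : ∀ i, ((χ' i : ℕ) : ℝ) = (b : ℝ) ^ N * χ i := by
    intro i
    by_cases h0 : χ i = 0
    · have h1 : χ' i = 0 := if_pos h0
      rw [h1, h0]
      simp
    · have h1 : χ' i = b ^ (k i + N).toNat := if_neg h0
      have h2 := (hk i).resolve_left h0
      rw [h1, h2]
      push_cast
      rw [← zpow_natCast (b : ℝ) (k i + N).toNat, Int.toNat_of_nonneg (hN i),
        zpow_add₀ hb0.ne', zpow_natCast, mul_comm]
  have hmain := red_nat b hb τ h _ χ' (by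
    intro i
    show (if χ i = 0 then 0 else b ^ (k i + N).toNat) = 0 ∨
      ∃ l : ℕ, (if χ i = 0 then 0 else b ^ (k i + N).toNat) = b ^ l
    split_ifs with h0
    · exact Or.inl rfl
    · exact Or.inr ⟨_, rfl⟩) rfl
  have e1 : (fun i => ((χ' i : ℕ) : ℝ)) = fun i => (b : ℝ) ^ N * χ i := funext hχ'
  have e2 : ∑ i, ((χ' i : ℕ) : ℝ) * τ i = (b : ℝ) ^ N * ∑ i, χ i * τ i := by
    rw [Finset.mul_sum]
    refine Finset.sum_congr rfl fun i _ => ?_
    rw [hχ' i, mul_assoc]
  have hpos : (0 : ℝ) < (b : ℝ) ^ N := pow_pos hb0 N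
  rw [e1, e2, low_smul _ _ hpos.le, ← mul_add] at hmain
  exact nonneg_of_mul_nonneg_right hmain hpos

theorem nogap_pow (b : ℕ) (hb : 2 ≤ b) (χ : Fin n → ℕ) (hχ : NoGap b χ) (i : Fin n) :
    χ i = 0 ∨ ∃ k < n, χ i = b ^ k := by
  classical
  have key : ∀ (m : ℕ) (i : Fin n), χ i = m → m ≠ 0 →
      ∃ k, m = b ^ k ∧ ∀ l ≤ k, ∃ j, χ j = b ^ l := by
    intro m
    induction m using Nat.strong_induction_on with
    | _ m ih =>
      intro i hi hm
      rcases hχ i with h0 | h1 | ⟨j, hj⟩
      · exact absurd (hi.symm.trans h0) hm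
      · refine ⟨0, by rw [← hi, h1, pow_zero], ?_⟩
        intro l hl
        obtain rfl : l = 0 := by omega
        exact ⟨i, by rw [h1, pow_zero]⟩
      · have hj0 : χ j ≠ 0 := by
          intro h0
          apply hm
          rw [← hi, hj, h0, mul_zero]
        have hlt : χ j < m := by
          rw [← hi, hj]
          have : 0 < χ j := Nat.pos_of_ne_zero hj0
          nlinarith
        obtain ⟨k, hk, hl⟩ := ih (χ j) hlt j rfl hj0
        refine ⟨k + 1, by rw [← hi, hj, hk, pow_succ, mul_comm], ?_⟩
        intro l hlk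
        rcases Nat.lt_or_ge l (k + 1) with h | h
        · exact hl l (by omega)
        · obtain rfl : l = k + 1 := by omega
          exact ⟨i, by rw [hj, hk, pow_succ, mul_comm]⟩
  by_cases h0 : χ i = 0
  · exact Or.inl h0
  · right
    obtain ⟨k, hk, hl⟩ := key (χ i) i rfl h0
    refine ⟨k, ?_, hk⟩
    have hl' : ∀ l : Fin (k + 1), ∃ j, χ j = b ^ (l : ℕ) := fun l => hl l (by omega)
    choose f hf using hl'
    have hinj : Function.Injective f := by
      intro l l' hll
      have h1 : b ^ (l : ℕ) = b ^ (l' : ℕ) := by rw [← hf l, ← hf l', hll]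
      exact Fin.ext (Nat.pow_right_injective hb h1)
    have := Fintype.card_le_of_injective f hinj
    simp only [Fintype.card_fin] at this
    omega

end Pool.Agent.Work.MP_1a5986_lc.WO
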