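import Pool.Agent.Work.MP_1a5986_lc.WO.Psi

/-!
MODULE NegInt (M).  MP_1a5986_lc, board modsoc.  Nonpositive functionals reduce to powers of `b`.

Proof. For `l ∈ [1, b]` apply the hypothesis to `χ i = psi b l (z i)` (`psi_val`). For all `l`,
`max 0 (psi b l (z j) - b * psi b l (z i)) = if b * z i ≤ z j then psi b l (z j) - b * psi b l (z i) else 0`
by `psi_mono` and `psi_mul` (`b * psi b l (z i) = psi b l (b * z i)`), and likewise
`max 0 (z j - b * z i) = if b * z i ≤ z j then z j - b * z i else 0`. So the nonnegative function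
`g l = ∑ i, psi b l (z i) * τ i + low b (psi b l ∘ z)` is a linear combination of the integrable
functions `l ↦ psi b l (z i)`, and by `psi_int` its integral over `[1, b]` is `(b - 1) / b` times
`∑ i, z i * τ i + low b z`. The integral is nonnegative (`intervalIntegral.integral_nonneg`), `b > 1`.
-/

set_option autoImplicit false

namespace Pool.Agent.Work.MP_1a5986_lc.WO

variable {n : ℕ}

open MeasureTheory

theorem neg_int (b : ℕ) (hb : 2 ≤ b) (τ : Fin n → ℝ)
    (h : ∀ χ : Fin n → ℝ, (∀ i, χ i = 0 ∨ ∃ k : ℤ, χ i = (b : ℝ) ^ k) →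
      0 ≤ ∑ i, χ i * τ i + low b χ)
    (z : Fin n → ℝ) (hz : ∀ i, 0 ≤ z i) : 0 ≤ ∑ i, z i * τ i + low b z := by
  classical
  have h1 : (1 : ℝ) < b := by exact_mod_cast hb
  have hc : 0 < ((b : ℝ) - 1) / b := div_pos (by linarith) (by linarith)
  have hbz : ∀ i, 0 ≤ (b : ℝ) * z i := fun i => mul_nonneg (by linarith) (hz i)
  have hmax : ∀ (l : ℝ) (i j : Fin n), max 0 (psi b l (z j) - b * psi b l (z i)) =
      if (b : ℝ) * z i ≤ z j then psi b l (z j) - b * psi b l (z i) else 0 := by
    intro l i j
    rw [← psi_mul b hb l (z i) (hz i)]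
    split_ifs with hij
    · exact max_eq_right (sub_nonneg.2 (psi_mono b hb l _ _ (hbz i) hij))
    · exact max_eq_left (sub_nonpos.2 (psi_mono b hb l _ _ (hz j) (not_le.1 hij).le))
  have hmax2 : ∀ i j : Fin n, max 0 (z j - b * z i) =
      if (b : ℝ) * z i ≤ z j then z j - b * z i else 0 := by
    intro i j
    split_ifs with hij
    · exact max_eq_right (sub_nonneg.2 hij)
    · exact max_eq_left (sub_nonpos.2 (not_le.1 hij).le)
  have hI1 : ∀ i, IntervalIntegrable (fun l => psi b l (z i) * τ i) volume 1 b :=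
    fun i => (psi_integrable b hb (z i) (hz i)).mul_const (τ i)
  have hI2 : ∀ i j, IntervalIntegrable (fun l => if (b : ℝ) * z i ≤ z j then
      psi b l (z j) - b * psi b l (z i) else 0) volume 1 b := by
    intro i j
    by_cases hij : (b : ℝ) * z i ≤ z j
    · simp only [if_pos hij]
      exact (psi_integrable b hb (z j) (hz j)).sub
        ((psi_integrable b hb (z i) (hz i)).const_mul (b : ℝ))
    · simp only [if_neg hij]
      exact intervalIntegrable_const
  have hV2 : ∀ i j, ∫ l in (1 : ℝ)..b, (if (b : ℝ) * z i ≤ z j then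
      psi b l (z j) - b * psi b l (z i) else 0) =
      ((b : ℝ) - 1) / b * (if (b : ℝ) * z i ≤ z j then z j - b * z i else 0) := by
    intro i j
    by_cases hij : (b : ℝ) * z i ≤ z j
    · simp only [if_pos hij]
      rw [intervalIntegral.integral_sub (psi_integrable b hb (z j) (hz j))
        ((psi_integrable b hb (z i) (hz i)).const_mul (b : ℝ)),
        intervalIntegral.integral_const_mul, psi_int b hb (z j) (hz j), psi_int b hb (z i) (hz i)]
      ring
    · simp only [if_neg hij]
      simp
  have hV1 : ∀ i, ∫ l in (1 : ℝ)..b, psi b l (z i) * τ i =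
      ((b : ℝ) - 1) / b * (z i * τ i) := by
    intro i
    rw [intervalIntegral.integral_mul_const, psi_int b hb (z i) (hz i)]
    ring
  have hS1 : IntervalIntegrable (fun l => ∑ i, psi b l (z i) * τ i) volume 1 b := by
    have := IntervalIntegrable.sum (Finset.univ : Finset (Fin n)) (fun i _ => hI1 i)
    simpa only [Finset.sum_apply, Finset.sum_fn] using this
  have hS3 : ∀ i, IntervalIntegrable (fun l => ∑ j, (if (b : ℝ) * z i ≤ z j then
      psi b l (z j) - b * psi b l (z i) else 0)) volume 1 b := by
    intro i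
    have := IntervalIntegrable.sum (Finset.univ : Finset (Fin n)) (fun j _ => hI2 i j)
    simpa only [Finset.sum_apply, Finset.sum_fn] using this
  have hS2 : IntervalIntegrable (fun l => ∑ i, ∑ j, (if (b : ℝ) * z i ≤ z j then
      psi b l (z j) - b * psi b l (z i) else 0)) volume 1 b := by
    have := IntervalIntegrable.sum (Finset.univ : Finset (Fin n)) (fun i _ => hS3 i)
    simpa only [Finset.sum_apply, Finset.sum_fn] using this
  have hpos : 0 ≤ ∫ l in (1 : ℝ)..b, (∑ i, psi b l (z i) * τ i +
      ∑ i, ∑ j, (if (b : ℝ) * z i ≤ z j then psi b l (z j) - b * psi b l (z i) else 0)) := by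
    apply intervalIntegral.integral_nonneg h1.le
    intro l _
    have h2 := h (fun i => psi b l (z i)) (fun i => psi_val b l (z i))
    unfold low at h2
    simp only [hmax] at h2
    exact h2
  rw [intervalIntegral.integral_add hS1 hS2,
    intervalIntegral.integral_finset_sum (fun i _ => hI1 i),
    intervalIntegral.integral_finset_sum (fun i _ => hS3 i)] at hpos
  have e3 : ∀ i, ∫ l in (1 : ℝ)..b, ∑ j, (if (b : ℝ) * z i ≤ z j then
      psi b l (z j) - b * psi b l (z i) else 0) =
      ∑ j, ((b : ℝ) - 1) / b * (if (b : ℝ) * z i ≤ z j then z j - b * z i else 0) := by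
    intro i
    rw [intervalIntegral.integral_finset_sum (fun j _ => hI2 i j)]
    exact Finset.sum_congr rfl fun j _ => hV2 i j
  rw [Finset.sum_congr rfl fun i _ => hV1 i, Finset.sum_congr rfl fun i _ => e3 i] at hpos
  simp only [← Finset.mul_sum] at hpos
  rw [← mul_add] at hpos
  have h5 := (mul_nonneg_iff_of_pos_left hc).1 hpos
  unfold low
  simp only [hmax2]
  exact h5

end Pool.Agent.Work.MP_1a5986_lc.WO
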