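import Pool.Agent.Work.MP_1a5986_lc.WO.Defs

/-!
MODULE SplitY (S-M).  MP_1a5986_lc, board modsoc.  Splitting a functional into its positive and
its negative part.

* `hS_split`: termwise. Let `u = max y 0`, `v = max (-y) 0`. If `y i, y j ≥ 0`, the `v`-term is
  `max 0 (max 0 0) = 0` and the `u`-term is the term. If `y i, y j ≤ 0` the same with `u` and `v`
  exchanged. If `y i ≥ 0 ≥ y j`: the term is `b * y i - y j` (because `b * y j - y i ≤ 0`), the
  `u`-term is `max 0 (max (b * y i) (-y i)) = b * y i`, the `v`-term is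
  `max 0 (max (-y j) (b * y j)) = -y j`. Symmetric in the last case.
* `hS_neg`: for `i ≠ j` the term is `max 0 (max (z j - b * z i) (z i - b * z j))`, and at most one of
  the two is positive (`z j > b z i ≥ z i > b z j ≥ z j` is impossible), so it is
  `max 0 (z j - b * z i) + max 0 (z i - b * z j)`; sum over the ordered pairs and halve; the diagonal
  terms of `low` vanish because `z i - b * z i ≤ 0`.
* `hS_ind`: for `i ≠ j` the term is `b - 1` if both are in `S`, `b` if exactly one is, `0` otherwise;
  there are `k (k - 1)` ordered pairs of the first kind and `2 k (n - k)` of the second.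
-/

set_option autoImplicit false

namespace Pool.Agent.Work.MP_1a5986_lc.WO

variable {n : ℕ}

private theorem sy_split {b x y : ℝ} (hb : 1 ≤ b) :
    max 0 (max (b * x - y) (b * y - x)) =
      max 0 (max (b * max x 0 - max y 0) (b * max y 0 - max x 0)) +
      max 0 (max (b * -max (-x) 0 - -max (-y) 0) (b * -max (-y) 0 - -max (-x) 0)) := by
  have key : ∀ u v : ℝ, 0 ≤ u → v ≤ 0 → max 0 (max (b * u - v) (b * v - u)) = b * u - v := by
    intro u v hu hv
    have h1 : 0 ≤ b * u := mul_nonneg (by linarith) hu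
    have h2 : b * v ≤ 0 := mul_nonpos_of_nonneg_of_nonpos (by linarith) hv
    rw [max_eq_left (by linarith : b * v - u ≤ b * u - v),
      max_eq_right (by linarith : 0 ≤ b * u - v)]
  rcases le_total 0 x with hx | hx <;> rcases le_total 0 y with hy | hy
  · rw [max_eq_left hx, max_eq_left hy, max_eq_right (by linarith : -x ≤ 0),
      max_eq_right (by linarith : -y ≤ 0)]
    simp
  · rw [max_eq_left hx, max_eq_right hy, max_eq_right (by linarith : -x ≤ 0),
      max_eq_left (by linarith : 0 ≤ -y), key x y hx hy, key x 0 hx le_rfl]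
    have h1 := key 0 y le_rfl hy
    simp only [neg_zero, neg_neg]
    rw [h1]
    ring
  · rw [max_eq_right hx, max_eq_left hy, max_eq_left (by linarith : 0 ≤ -x),
      max_eq_right (by linarith : -y ≤ 0), max_comm (b * x - y), key y x hy hx,
      max_comm (b * 0 - y), key y 0 hy le_rfl]
    have h1 := key 0 x le_rfl hx
    simp only [neg_zero, neg_neg]
    rw [max_comm (b * x - 0), h1]
    ring
  · rw [max_eq_right hx, max_eq_right hy, max_eq_left (by linarith : 0 ≤ -x),
      max_eq_left (by linarith : 0 ≤ -y)]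
    simp

private theorem sy_neg {b x y : ℝ} (hb : 1 ≤ b) (hx : 0 ≤ x) (hy : 0 ≤ y) :
    max 0 (max (b * -x - -y) (b * -y - -x)) = max 0 (y - b * x) + max 0 (x - b * y) := by
  have e1 : b * -x - -y = y - b * x := by ring
  have e2 : b * -y - -x = x - b * y := by ring
  rw [e1, e2]
  have h1 : x ≤ b * x := by nlinarith
  have h2 : y ≤ b * y := by nlinarith
  rcases le_total 0 (y - b * x) with h3 | h3
  · have h4 : x - b * y ≤ 0 := by linarith
    rw [max_eq_left (by linarith : x - b * y ≤ y - b * x), max_eq_right h3, max_eq_left h4,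
      add_zero]
  · rcases le_total 0 (x - b * y) with h4 | h4
    · rw [max_eq_right (by linarith : y - b * x ≤ x - b * y), max_eq_right h4, max_eq_left h3,
        zero_add]
    · rw [max_eq_left h3, max_eq_left h4, max_eq_left (max_le h3 h4), add_zero]

private theorem sy_ind {b : ℝ} (hb : 1 ≤ b) {x y : ℝ} (hx : x = 0 ∨ x = 1) (hy : y = 0 ∨ y = 1) :
    max 0 (max (b * x - y) (b * y - x)) = b * (x + y) - (b + 1) * x * y := by
  rcases hx with rfl | rfl <;> rcases hy with rfl | rfl
  · simp
  · rw [max_eq_right (by linarith : b * 0 - 1 ≤ b * 1 - 0),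
      max_eq_right (by linarith : 0 ≤ b * 1 - 0)]
    ring
  · rw [max_eq_left (by linarith : b * 0 - 1 ≤ b * 1 - 0),
      max_eq_right (by linarith : 0 ≤ b * 1 - 0)]
    ring
  · rw [max_self, max_eq_right (by linarith : 0 ≤ b * 1 - 1)]
    ring

theorem hS_split (G : SimpleGraph (Fin n)) (b : ℝ) (hb : 1 ≤ b) (y : Fin n → ℝ) :
    hS G b y = hS G b (fun i => max (y i) 0) + hS G b (fun i => -max (-(y i)) 0) := by
  classical
  unfold hS
  rw [← mul_add, ← Finset.sum_add_distrib]
  congr 1
  refine Finset.sum_congr rfl fun i _ => ?_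
  rw [← Finset.sum_add_distrib]
  refine Finset.sum_congr rfl fun j _ => ?_
  by_cases h : G.Adj i j
  · rw [if_pos h, if_pos h, if_pos h]
    exact sy_split hb
  · rw [if_neg h, if_neg h, if_neg h, add_zero]

theorem hS_neg (b : ℝ) (hb : 1 ≤ b) (z : Fin n → ℝ) (hz : ∀ i, 0 ≤ z i) :
    hS ⊤ b (fun i => -z i) = low b z := by
  classical
  have h1 : ∀ i j : Fin n, (if (⊤ : SimpleGraph (Fin n)).Adj i j then
      max 0 (max (b * -z i - -z j) (b * -z j - -z i)) else 0) =
      max 0 (z j - b * z i) + max 0 (z i - b * z j) := by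
    intro i j
    by_cases h : i = j
    · subst h
      rw [if_neg (by simp)]
      have h2 : z i - b * z i ≤ 0 := by nlinarith [hz i]
      rw [max_eq_left h2, add_zero]
    · rw [if_pos (by simpa using h)]
      exact sy_neg hb (hz i) (hz j)
  unfold hS low
  simp only [h1]
  simp only [Finset.sum_add_distrib]
  rw [Finset.sum_comm (f := fun i j => max 0 (z i - b * z j))]
  ring

theorem hS_ind (b : ℝ) (hb : 1 ≤ b) (S : Finset (Fin n)) :
    hS ⊤ b (fun i => if i ∈ S then 1 else 0)
      = (b - 1) * ((S.card : ℝ) * (S.card - 1) / 2) + b * (S.card * (n - S.card)) := by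
  classical
  have hx01 : ∀ i : Fin n, (if i ∈ S then (1 : ℝ) else 0) = 0 ∨
      (if i ∈ S then (1 : ℝ) else 0) = 1 := by
    intro i
    by_cases h : i ∈ S
    · right
      rw [if_pos h]
    · left
      rw [if_neg h]
  obtain ⟨x, hxd⟩ : ∃ x : Fin n → ℝ, x = fun i => if i ∈ S then (1 : ℝ) else 0 := ⟨_, rfl⟩
  have hx : ∀ i, x i = 0 ∨ x i = 1 := by
    intro i
    rw [hxd]
    exact hx01 i
  rw [← hxd]
  have hs : ∑ i, x i = S.card := by
    rw [hxd]
    simp
  have h1 : hS ⊤ b x = (1 / 2) * ∑ i, ∑ j,
      (b * (x i + x j) - (b + 1) * x i * x j - if i = j then (b - 1) * x i else 0) := by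
    unfold hS
    congr 1
    refine Finset.sum_congr rfl fun i _ => Finset.sum_congr rfl fun j _ => ?_
    by_cases h : i = j
    · subst h
      rw [if_neg (by simp), if_pos rfl]
      rcases hx i with h2 | h2 <;> rw [h2] <;> ring
    · rw [if_pos (by simpa using h), if_neg h, sub_zero]
      exact sy_ind hb (hx i) (hx j)
  rw [h1]
  have h2 : ∀ i : Fin n, ∑ j, (b * (x i + x j) - (b + 1) * x i * x j -
      if i = j then (b - 1) * x i else 0) =
      b * (n * x i + S.card) - (b + 1) * x i * S.card - (b - 1) * x i := by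
    intro i
    rw [Finset.sum_sub_distrib, Finset.sum_sub_distrib, ← Finset.mul_sum, ← Finset.mul_sum,
      Finset.sum_add_distrib, hs, Finset.sum_const, Finset.card_univ, Fintype.card_fin,
      nsmul_eq_mul, Finset.sum_ite_eq, if_pos (Finset.mem_univ i)]
  simp only [h2]
  have h3 : ∑ i, (b * (n * x i + S.card) - (b + 1) * x i * S.card - (b - 1) * x i) =
      ∑ i, ((b * n - (b + 1) * S.card - (b - 1)) * x i + b * S.card) :=
    Finset.sum_congr rfl fun i _ => by ring
  rw [h3, Finset.sum_add_distrib, ← Finset.mul_sum, hs, Finset.sum_const, Finset.card_univ,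
    Fintype.card_fin, nsmul_eq_mul]
  ring

end Pool.Agent.Work.MP_1a5986_lc.WO
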