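import Pool.Agent.Work.MP_1a5986_lc.WO.Defs

/-!
MODULE Top (S-M).  MP_1a5986_lc, board modsoc.  Nonnegative functionals reduce to indicators of sets.

Proof of `top_le` by strong induction on the number of `i` with `u i ≠ 0`. If it is `0`, both sides
are `0` (`hS G b 0 = 0`). Otherwise let `S` be the support, `m > 0` the minimum of `u` on `S`, and
`u' = u - m * 1_S`, nonnegative, with a smaller support. Then `∑ u τ = m * ∑_S τ + ∑ u' τ` and
`hS G b u = m * hS G b 1_S + hS G b u'`: termwise, for `i, j ∈ S` with `u i ≥ u j` (so `u' i ≥ u' j ≥ 0`)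
the three terms are `b u i - u j`, `m (b - 1)` and `b u' i - u' j` (here `1 ≤ b` is used); for
`i ∈ S, j ∉ S` they are `b u i`, `m b`, `b u' i`; for `i, j ∉ S` all are `0`.
-/

set_option autoImplicit false

namespace Pool.Agent.Work.MP_1a5986_lc.WO

variable {n : ℕ}

private theorem tp_eq (b x y : ℝ) (hb : 1 ≤ b) (hx : 0 ≤ x) (hy : 0 ≤ y) :
    max 0 (max (b * x - y) (b * y - x)) = b * max x y - min x y := by
  rcases le_total x y with h | h
  · rw [max_eq_right h, min_eq_left h]
    have h1 : b * x - y ≤ b * y - x := by nlinarith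
    have h2 : 0 ≤ b * y - x := by nlinarith
    rw [max_eq_right h1, max_eq_right h2]
  · rw [max_eq_left h, min_eq_right h]
    have h1 : b * y - x ≤ b * x - y := by nlinarith
    have h2 : 0 ≤ b * x - y := by nlinarith
    rw [max_eq_left h1, max_eq_right h2]

private theorem tp_nonneg (G : SimpleGraph (Fin n)) (b : ℝ) (y : Fin n → ℝ) : 0 ≤ hS G b y := by
  unfold hS
  refine mul_nonneg (by norm_num) (Finset.sum_nonneg fun i _ => Finset.sum_nonneg fun j _ => ?_)
  split_ifs
  · exact le_max_left _ _
  · exact le_refl _

private theorem tp_split (G : SimpleGraph (Fin n)) (b : ℝ) (m : ℝ)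
    (u e u' : Fin n → ℝ)
    (h : ∀ i j, max 0 (max (b * u i - u j) (b * u j - u i)) =
      m * max 0 (max (b * e i - e j) (b * e j - e i)) +
        max 0 (max (b * u' i - u' j) (b * u' j - u' i))) :
    hS G b u = m * hS G b e + hS G b u' := by
  classical
  unfold hS
  have e1 : ∀ i j, (if G.Adj i j then max 0 (max (b * u i - u j) (b * u j - u i)) else 0) =
      m * (if G.Adj i j then max 0 (max (b * e i - e j) (b * e j - e i)) else 0) +
        (if G.Adj i j then max 0 (max (b * u' i - u' j) (b * u' j - u' i)) else 0) := by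
    intro i j
    split_ifs
    · exact h i j
    · ring
  simp only [e1, Finset.sum_add_distrib, ← Finset.mul_sum]
  ring

theorem top_le (G : SimpleGraph (Fin n)) (b : ℝ) (hb : 1 ≤ b) (τ : Fin n → ℝ)
    (h : ∀ S : Finset (Fin n), ∑ i ∈ S, τ i ≤ hS G b (fun i => if i ∈ S then 1 else 0))
    (u : Fin n → ℝ) (hu : ∀ i, 0 ≤ u i) : ∑ i, u i * τ i ≤ hS G b u := by
  induction hk : (Finset.univ.filter fun i => u i ≠ 0).card using Nat.strong_induction_on
    generalizing u with
  | _ k ih =>
    set S := Finset.univ.filter fun i => u i ≠ 0 with hSd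
    have hmem : ∀ i, i ∈ S ↔ u i ≠ 0 := by
      intro i
      rw [hSd, Finset.mem_filter]
      simp
    rcases S.eq_empty_or_nonempty with h0 | hne
    · have e : ∑ i, u i * τ i = 0 := by
        refine Finset.sum_eq_zero fun i _ => ?_
        have h1 : ¬ u i ≠ 0 := by
          rw [← hmem, h0]
          simp
        rw [not_not.1 h1, zero_mul]
      rw [e]
      exact tp_nonneg G b u
    · obtain ⟨i0, hi0, hmin⟩ := Finset.exists_min_image S u hne
      set m := u i0 with hm
      have hm0 : 0 < m := lt_of_le_of_ne (hu i0) (Ne.symm ((hmem i0).1 hi0))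
      set e : Fin n → ℝ := fun i => if i ∈ S then 1 else 0 with he
      set u' : Fin n → ℝ := fun i => u i - m * e i with hu'
      have e1 : ∀ i, i ∈ S → e i = 1 := fun i hi => if_pos hi
      have e0 : ∀ i, i ∉ S → e i = 0 := fun i hi => if_neg hi
      have u0 : ∀ i, i ∉ S → u i = 0 := fun i hi => by
        by_contra hne
        exact hi ((hmem i).2 hne)
      have v1 : ∀ i, i ∈ S → u' i = u i - m := fun i hi => by
        simp only [hu', e1 i hi, mul_one]
      have v0 : ∀ i, i ∉ S → u' i = 0 := fun i hi => by
        simp only [hu', e0 i hi, u0 i hi, mul_zero, sub_zero]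
      have hu'0 : ∀ i, 0 ≤ u' i := by
        intro i
        by_cases hi : i ∈ S
        · rw [v1 i hi]
          linarith [hmin i hi]
        · rw [v0 i hi]
      have hlt : (Finset.univ.filter fun i => u' i ≠ 0).card < k := by
        rw [← hk]
        apply Finset.card_lt_card
        rw [Finset.ssubset_iff_of_subset]
        · refine ⟨i0, hi0, ?_⟩
          rw [Finset.mem_filter]
          rintro ⟨-, h1⟩
          exact h1 (by rw [v1 i0 hi0]; exact sub_self _)
        · intro i hi
          rw [Finset.mem_filter] at hi
          by_contra hni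
          exact hi.2 (v0 i hni)
      have hI := ih _ hlt u' hu'0 rfl
      have hsum : ∑ i, u i * τ i = m * ∑ i ∈ S, τ i + ∑ i, u' i * τ i := by
        have e2 : ∑ i ∈ S, τ i = ∑ i, e i * τ i := by
          simp only [he, ite_mul, one_mul, zero_mul]
          rw [Finset.sum_ite_mem, Finset.univ_inter]
        rw [e2, Finset.mul_sum, ← Finset.sum_add_distrib]
        refine Finset.sum_congr rfl fun i _ => ?_
        simp only [hu']
        ring
      have hsp : hS G b u = m * hS G b e + hS G b u' := by
        apply tp_split
        intro i j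
        rw [tp_eq b (u i) (u j) hb (hu i) (hu j), tp_eq b (u' i) (u' j) hb (hu'0 i) (hu'0 j),
          tp_eq b (e i) (e j) hb (by simp only [he]; split_ifs <;> norm_num)
            (by simp only [he]; split_ifs <;> norm_num)]
        by_cases hi : i ∈ S
        · by_cases hj : j ∈ S
          · rw [v1 i hi, v1 j hj, e1 i hi, e1 j hj, max_sub_sub_right, min_sub_sub_right,
              max_self, min_self]
            ring
          · have h3 := hmin i hi
            rw [v1 i hi, v0 j hj, e1 i hi, e0 j hj, u0 j hj, max_eq_left (hu i),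
              min_eq_right (hu i), max_eq_left (show (0 : ℝ) ≤ u i - m by linarith),
              min_eq_right (show (0 : ℝ) ≤ u i - m by linarith),
              max_eq_left (show (0 : ℝ) ≤ 1 by norm_num),
              min_eq_right (show (0 : ℝ) ≤ 1 by norm_num)]
            ring
        · by_cases hj : j ∈ S
          · have h3 := hmin j hj
            rw [v0 i hi, v1 j hj, e0 i hi, e1 j hj, u0 i hi, max_eq_right (hu j),
              min_eq_left (hu j), max_eq_right (show (0 : ℝ) ≤ u j - m by linarith),
              min_eq_left (show (0 : ℝ) ≤ u j - m by linarith),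
              max_eq_right (show (0 : ℝ) ≤ 1 by norm_num),
              min_eq_left (show (0 : ℝ) ≤ 1 by norm_num)]
            ring
          · rw [v0 i hi, v0 j hj, e0 i hi, e0 j hj, u0 i hi, u0 j hj, max_self, min_self]
            ring
      rw [hsum, hsp]
      exact add_le_add (mul_le_mul_of_nonneg_left (h S) hm0.le) hI

end Pool.Agent.Work.MP_1a5986_lc.WO
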