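import Pool.Agent.Work.MP_1a5986_lc.WO.Bridge
import Pool.Agent.Work.MP_1a5986_lc.WO.Sep
import Pool.Agent.Work.MP_1a5986_lc.WO.SplitY
import Pool.Agent.Work.MP_1a5986_lc.WO.Top
import Pool.Agent.Work.MP_1a5986_lc.WO.NegInt
import Pool.Agent.Work.MP_1a5986_lc.WO.GapR

/-!
MODULE Char (M).  MP_1a5986_lc, board modsoc.  The explicit inequalities.

Everything in the coordinates `t = s - (n - 1)` (`expScore_eq`, `dg_top`); `k = S.card`.
(⇒) Top: `s' i = s i + κ` is `Expected`; `net_le` for the indicator of `S` and `hS_ind` give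
`∑_S (s i + κ - (n-1)) ≤ (b-1) k (k-1) / 2 + b k (n-k)`; add `k (n-1) = k (k-1) + k (n-k)`.
Bottom: `s' i = s i - κ` is `Expected`; `net_le` for `-χ` and `hS_neg` (`n = 0` is trivial).
(⇐) Let `|s' i - s i| ≤ κ`, `t' = s' - (n-1)`. For every `y`, with `u = max y 0`, `v = max (-y) 0`:
`∑ y t' = ∑ u t' - ∑ v t' ≤ ∑ u (s + κ - (n-1)) - ∑ v (s - κ - (n-1)) ≤ hS ⊤ b u + low b v = hS ⊤ b y` by
`top_le` (+ `hS_ind`), `neg_int` + `nogap_red`, `hS_neg`, `hS_split`. Now `sep` gives `p`.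
-/

set_option autoImplicit false

namespace Pool.Agent.Work.MP_1a5986_lc.WO

variable {n : ℕ}

theorem deep_iff (b κ : ℕ) (hb : 2 ≤ b) (s : Fin n → ℝ) :
    Deep (b + 1) κ s ↔
      (∀ S : Finset (Fin n), ∑ i ∈ S, (s i + κ)
        ≤ ((b : ℝ) + 1) * ((S.card : ℝ) * (S.card - 1) / 2 + S.card * (n - S.card))) ∧
      ∀ χ : Fin n → ℕ, NoGap b χ →
        0 ≤ ∑ i, (χ i : ℝ) * (s i - ((n : ℝ) - 1) - κ) + low b (fun i => (χ i : ℝ)) := by
  have hbR : (2 : ℝ) ≤ b := by exact_mod_cast hb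
  have hb1 : (1 : ℝ) ≤ b := by linarith
  have hκ : (0 : ℝ) ≤ (κ : ℝ) := Nat.cast_nonneg _
  have hdg : ∀ i : Fin n, ((dg (⊤ : SimpleGraph (Fin n)) i : ℕ) : ℝ) = (n : ℝ) - 1 := by
    intro i
    rw [dg_top]
    have hn : 1 ≤ n := by have := i.2; omega
    push_cast [Nat.cast_sub hn]
    ring
  have hnet : ∀ (p : Fin n → Fin n → ℝ) (s' : Fin n → ℝ) (i : Fin n),
      expScore ⊤ (b + 1) p i = s' i ↔ net ⊤ (b : ℝ) p i = s' i - ((n : ℝ) - 1) := by
    intro p s' i
    rw [expScore_eq, hdg]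
    constructor
    · intro h; linarith
    · intro h; linarith
  constructor
  · intro hD
    refine ⟨?_, ?_⟩
    · intro S
      obtain ⟨p, hp, hps⟩ := hD (fun i => s i + κ) (fun i => by
        rw [add_sub_cancel_left, abs_of_nonneg hκ])
      have h1 := net_le ⊤ (b : ℝ) hp (fun i => if i ∈ S then 1 else 0)
      rw [hS_ind (b : ℝ) hb1 S] at h1
      have h2 : ∑ i, (if i ∈ S then (1 : ℝ) else 0) * net ⊤ (b : ℝ) p i
          = ∑ i ∈ S, (s i + κ) - (S.card : ℝ) * ((n : ℝ) - 1) := by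
        have h3 : ∀ i, (if i ∈ S then (1 : ℝ) else 0) * net ⊤ (b : ℝ) p i
            = if i ∈ S then ((s i + κ) - ((n : ℝ) - 1)) else 0 := by
          intro i
          rw [(hnet p (fun i => s i + κ) i).1 (hps i)]
          split_ifs <;> simp
        rw [Finset.sum_congr rfl fun i _ => h3 i, Finset.sum_ite_mem, Finset.univ_inter,
          Finset.sum_sub_distrib, Finset.sum_const, nsmul_eq_mul]
      rw [h2] at h1
      nlinarith [h1]
    · intro χ hχ
      obtain ⟨p, hp, hps⟩ := hD (fun i => s i - κ) (fun i => by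
        rw [show s i - (κ : ℝ) - s i = -(κ : ℝ) by ring, abs_neg, abs_of_nonneg hκ])
      have h1 := net_le ⊤ (b : ℝ) hp (fun i => -((χ i : ℕ) : ℝ))
      rw [hS_neg (b : ℝ) hb1 (fun i => ((χ i : ℕ) : ℝ)) (fun i => Nat.cast_nonneg _)] at h1
      have h2 : ∑ i, -((χ i : ℕ) : ℝ) * net ⊤ (b : ℝ) p i
          = -∑ i, ((χ i : ℕ) : ℝ) * (s i - ((n : ℝ) - 1) - κ) := by
        rw [← Finset.sum_neg_distrib]
        refine Finset.sum_congr rfl fun i _ => ?_
        rw [(hnet p (fun i => s i - κ) i).1 (hps i)]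
        ring
      rw [h2] at h1
      linarith
  · rintro ⟨hT, hB⟩ s' hs'
    have hsep := sep (⊤ : SimpleGraph (Fin n)) (b : ℝ) (fun i => s' i - ((n : ℝ) - 1)) (by
      intro y
      have hu : ∀ i, 0 ≤ max (y i) 0 := fun i => le_max_right _ _
      have hv : ∀ i, 0 ≤ max (-(y i)) 0 := fun i => le_max_right _ _
      have hy : ∀ i, y i = max (y i) 0 - max (-(y i)) 0 := by
        intro i
        rcases le_total 0 (y i) with h | h
        · rw [max_eq_left h, max_eq_right (by linarith : -(y i) ≤ 0)]; ring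
        · rw [max_eq_right h, max_eq_left (by linarith : 0 ≤ -(y i))]; ring
      have htop := top_le (⊤ : SimpleGraph (Fin n)) (b : ℝ) hb1
        (fun i => s i + κ - ((n : ℝ) - 1)) (by
          intro S
          rw [hS_ind (b : ℝ) hb1 S, Finset.sum_sub_distrib, Finset.sum_const, nsmul_eq_mul]
          have := hT S
          nlinarith [this]) (fun i => max (y i) 0) hu
      have hbot := neg_int b hb (fun i => s i - ((n : ℝ) - 1) - κ) (by
          intro χ hχ
          exact nogap_red b hb (fun i => s i - ((n : ℝ) - 1) - κ) hB χ hχ)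
        (fun i => max (-(y i)) 0) hv
      rw [hS_split (⊤ : SimpleGraph (Fin n)) (b : ℝ) hb1 y,
        hS_neg (b : ℝ) hb1 (fun i => max (-(y i)) 0) hv]
      have h1 : ∑ i, y i * (s' i - ((n : ℝ) - 1))
          ≤ ∑ i, max (y i) 0 * (s i + κ - ((n : ℝ) - 1))
            - ∑ i, max (-(y i)) 0 * (s i - ((n : ℝ) - 1) - κ) := by
        rw [← Finset.sum_sub_distrib]
        refine Finset.sum_le_sum fun i _ => ?_
        have h2 := abs_le.1 (hs' i)
        have h3 : max (y i) 0 * (s' i - ((n : ℝ) - 1))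
            ≤ max (y i) 0 * (s i + κ - ((n : ℝ) - 1)) :=
          mul_le_mul_of_nonneg_left (by linarith [h2.2]) (hu i)
        have h4 : max (-(y i)) 0 * (s i - ((n : ℝ) - 1) - κ)
            ≤ max (-(y i)) 0 * (s' i - ((n : ℝ) - 1)) :=
          mul_le_mul_of_nonneg_left (by linarith [h2.1]) (hv i)
        have h5 : y i * (s' i - ((n : ℝ) - 1)) = max (y i) 0 * (s' i - ((n : ℝ) - 1))
            - max (-(y i)) 0 * (s' i - ((n : ℝ) - 1)) := by
          rw [← sub_mul, ← hy i]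
        rw [h5]
        linarith
      linarith)
    obtain ⟨p, hp, hps⟩ := hsep
    exact ⟨p, hp, fun i => (hnet p s' i).2 (hps i)⟩

end Pool.Agent.Work.MP_1a5986_lc.WO
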