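import Pool.Agent.Work.MP_1a5986_lc.WO.Defs

/-!
MODULE PermD (S).  MP_1a5986_lc, board modsoc.  Permutation of the teams.

* `deep_perm`: one direction suffices (use `σ.symm`). If `|s' i - s (σ i)| ≤ κ`, then
  `s'' = s' ∘ σ.symm` satisfies `|s'' i - s i| ≤ κ`; take `p` for `s''` and `p' i j = p (σ i) (σ j)`:
  `Mixed p'`, and `expScore ⊤ a p' i = expScore ⊤ a p (σ i) = s'' (σ i) = s' i` (`Equiv.sum_comp`).
* `deep_cast`: `n = m` by `subst`.
-/

set_option autoImplicit false

namespace Pool.Agent.Work.MP_1a5986_lc.WO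

variable {n : ℕ}

private theorem deep_perm_one (a κ : ℕ) (s : Fin n → ℝ) (σ : Equiv.Perm (Fin n))
    (h : Deep a κ s) : Deep a κ (fun i => s (σ i)) := by
  intro s' hs'
  obtain ⟨p, hp, hps⟩ := h (fun i => s' (σ.symm i)) (fun i => by
    have := hs' (σ.symm i)
    simpa using this)
  refine ⟨fun i j => p (σ i) (σ j), ⟨fun i j => hp.nonneg _ _, fun i j hij =>
    hp.add_le _ _ fun e => hij (σ.injective e)⟩, fun i => ?_⟩
  have h1 := hps (σ i)
  simp only [Equiv.symm_apply_apply] at h1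
  rw [← h1]
  unfold expScore
  refine Eq.trans ?_ (Equiv.sum_comp σ _)
  refine Finset.sum_congr rfl fun j _ => ?_
  by_cases hij : i = j
  · subst hij
    simp
  · have hij' : σ i ≠ σ j := fun e => hij (σ.injective e)
    simp [hij, hij']

theorem deep_perm (a κ : ℕ) (s : Fin n → ℝ) (σ : Equiv.Perm (Fin n)) :
    Deep a κ (fun i => s (σ i)) ↔ Deep a κ s := by
  constructor
  · intro h
    have := deep_perm_one a κ _ σ.symm h
    simpa using this
  · exact deep_perm_one a κ s σ

theorem deep_cast (a κ : ℕ) {m : ℕ} (h : n = m) (s : Fin m → ℝ) :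
    Deep a κ (fun i : Fin n => s (Fin.cast h i)) ↔ Deep a κ s := by
  subst h
  rfl

end Pool.Agent.Work.MP_1a5986_lc.WO
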