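import Pool.Agent.Work.MP_1a5986_lc.WO.AlgS
import Pool.Agent.Work.MP_1a5986_lc.WO.AlgB
import Pool.Agent.Work.MP_1a5986_lc.WO.AlgT
import Pool.Agent.Work.MP_1a5986_lc.WO.ChainI
import Pool.Agent.Work.MP_1a5986_lc.WO.Char
import Pool.Agent.Work.MP_1a5986_lc.WO.PermD

/-!
MODULE AlgM (S-M).  MP_1a5986_lc, board modsoc.  Correctness of the test.

By `exists_perm`, `deep_perm`, `deep_cast`: `Deep` for `l.get` is `Deep` for `(sortS l).get`. Let `r = sortS l`
(sorted, so `r.get` is monotone). By `deep_iff`, `topTest_iff`, `chain_iff` (with `r.get`) and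
`botTest_iff`: `preN r.get x = (r.take x).sum` (e.g. by induction on `x`, or `List.take` and `List.sum_ofFn`),
so the condition in `chain_iff` is the one in `botTest_iff` (`lhs`, `rhs` unfolded).
-/

set_option autoImplicit false

namespace Pool.Agent.Work.MP_1a5986_lc.WO

private theorem preN_get (r : List ℕ) (x : ℕ) : preN r.get x = (r.take x).sum := by
  induction r generalizing x with
  | nil => simp [preN]
  | cons a r ih =>
    cases x with
    | zero => simp [preN]
    | succ x =>
      rw [List.take_succ_cons, List.sum_cons, ← ih]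
      unfold preN
      change (∑ i : Fin (r.length + 1), _) = _
      rw [Fin.sum_univ_succ]
      simp

theorem test_iff (b κ : ℕ) (hb : 2 ≤ b) (l : List ℕ) :
    test b κ l = true ↔ Deep (b + 1) κ (fun i : Fin l.length => ((l.get i : ℕ) : ℝ)) := by
  have hlen : (sortS l).length = l.length := (sortS_perm l).length_eq
  obtain ⟨σ, hσ⟩ := exists_perm l hlen
  have h1 : Deep (b + 1) κ (fun i : Fin l.length => ((l.get i : ℕ) : ℝ)) ↔
      Deep (b + 1) κ (fun i : Fin (sortS l).length => (((sortS l).get i : ℕ) : ℝ)) := by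
    rw [← deep_perm (b + 1) κ (fun i : Fin l.length => ((l.get i : ℕ) : ℝ)) σ]
    rw [← deep_cast (b + 1) κ hlen (fun i : Fin l.length => ((l.get (σ i) : ℕ) : ℝ))]
    have : (fun i : Fin (sortS l).length => (((sortS l).get i : ℕ) : ℝ))
        = fun i : Fin (sortS l).length => ((l.get (σ (Fin.cast hlen i)) : ℕ) : ℝ) := by
      funext i
      rw [hσ i]
    rw [this]
  rw [h1]
  set r := sortS l with hr
  have hs : r.Pairwise (· ≤ ·) := sortS_sorted l
  have hmono : Monotone r.get := by
    intro i j hij
    rcases eq_or_lt_of_le hij with rfl | hlt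
    · exact le_rfl
    · exact List.pairwise_iff_get.1 hs i j hlt
  rw [deep_iff b κ hb]
  unfold test
  rw [Bool.and_eq_true, ← hr, topTest_iff b κ r hs, botTest_iff]
  have h2 := chain_iff b κ hb r.get hmono
  rw [h2]
  simp only [preN_get, lhs, rhs]
  exact and_comm

end Pool.Agent.Work.MP_1a5986_lc.WO
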