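import Pool.Agent.Work.MP_1a5986_lc.WO.AlgDefs

/-!
MODULE AlgS (S-M).  MP_1a5986_lc, board modsoc.  Sorting.

`insS l a` is a permutation of `a :: l` (`List.filter_append_perm` for complementary conditions), and
it is sorted if `l` is (filters of a sorted list are sorted; everything in the first filter is `≤ a`,
everything in the second is `> a`). Induction on the list in `foldl` with a general start.
`exists_perm`: with `σ = Tuple.sort l.get`, `List.ofFn (l.get ∘ σ)` is sorted (`Tuple.monotone_sort`) and a
permutation of `l` (`Equiv.Perm.ofFn_comp_perm`, `List.ofFn_get`), so it is `sortS l`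
(`List.Perm.eq_of_sorted` or its new name).
-/

set_option autoImplicit false

namespace Pool.Agent.Work.MP_1a5986_lc.WO

private theorem insS_perm (l : List ℕ) (a : ℕ) : (insS l a).Perm (a :: l) := by
  unfold insS
  refine List.perm_middle.trans (List.Perm.cons a ?_)
  have h : (fun c => decide (a < c)) = fun c => !decide (c ≤ a) := by
    funext c
    by_cases h1 : c ≤ a
    · simp [h1]
    · simp [h1, not_le.1 h1]
  rw [h]
  exact List.filter_append_perm _ l

private theorem insS_sorted (l : List ℕ) (a : ℕ) (h : l.Pairwise (· ≤ ·)) :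
    (insS l a).Pairwise (· ≤ ·) := by
  unfold insS
  rw [List.pairwise_append, List.pairwise_cons]
  refine ⟨h.filter _, ⟨?_, h.filter _⟩, ?_⟩
  · intro c hc
    have h1 := (List.mem_filter.1 hc).2
    exact (of_decide_eq_true h1).le
  · intro c hc d hd
    have h1 : c ≤ a := of_decide_eq_true (List.mem_filter.1 hc).2
    rcases List.mem_cons.1 hd with rfl | hd
    · exact h1
    · have h2 : a < d := of_decide_eq_true (List.mem_filter.1 hd).2
      exact h1.trans h2.le

private theorem foldl_perm (l : List ℕ) : ∀ acc : List ℕ, (l.foldl insS acc).Perm (acc ++ l) := by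
  induction l with
  | nil => intro acc; simp
  | cons a l ih =>
    intro acc
    rw [List.foldl_cons]
    refine (ih _).trans ?_
    refine (List.Perm.append_right l (insS_perm acc a)).trans ?_
    exact List.perm_middle.symm

private theorem foldl_sorted (l : List ℕ) : ∀ acc : List ℕ, acc.Pairwise (· ≤ ·) →
    (l.foldl insS acc).Pairwise (· ≤ ·) := by
  induction l with
  | nil => intro acc h; exact h
  | cons a l ih =>
    intro acc h
    rw [List.foldl_cons]
    exact ih _ (insS_sorted acc a h)

theorem sortS_perm (l : List ℕ) : (sortS l).Perm l := by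
  have h := foldl_perm l []
  rwa [List.nil_append] at h

theorem sortS_sorted (l : List ℕ) : (sortS l).Pairwise (· ≤ ·) := by
  exact foldl_sorted l [] List.Pairwise.nil

theorem exists_perm (l : List ℕ) (h : (sortS l).length = l.length) :
    ∃ σ : Equiv.Perm (Fin l.length),
      ∀ i : Fin (sortS l).length, (sortS l).get i = l.get (σ (Fin.cast h i)) := by
  refine ⟨Tuple.sort l.get, fun i => ?_⟩
  have hp : (List.ofFn (l.get ∘ Tuple.sort l.get)).Perm l := by
    have h1 := Equiv.Perm.ofFn_comp_perm (Tuple.sort l.get) l.get
    rwa [List.ofFn_get] at h1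
  have hso : (List.ofFn (l.get ∘ Tuple.sort l.get)).Pairwise (· ≤ ·) := by
    rw [List.pairwise_ofFn]
    intro i j hij
    exact Tuple.monotone_sort l.get hij.le
  have hs : sortS l = List.ofFn (l.get ∘ Tuple.sort l.get) := by
    refine List.Perm.eq_of_pairwise ?_ (sortS_sorted l) hso ((sortS_perm l).trans hp.symm)
    intro a b _ _ h1 h2
    exact le_antisymm h1 h2
  rw [List.get_of_eq hs i, List.get_ofFn]
  rfl

end Pool.Agent.Work.MP_1a5986_lc.WO
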