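import Pool.Agent.Work.MP_1a5986_lc.WO.AlgB
import Pool.Agent.Work.MP_1a5986_lc.WO.AlgS
import Pool.Agent.Work.PolyTime.More
import Pool.Agent.Work.PolyTime.Raw

/-!
MODULE AlgPT (M-L).  MP_1a5986_lc, board modsoc.  The test of a word is computed in polynomial time.

With the library `Pool/Agent/Work/PolyTime` (`Typed`, `Lists`, `More`, `Raw`; natural numbers are coded in
unary, `sz n = 2 n + 1`): `PTime.foldl` for `readW` (the size of the state is at most a polynomial in the
length of the word), `sortS` (every state is a permutation of a prefix of the list), `botTest` (states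
bounded by `botTest_bound`: at most `r.length + 1` numbers, each at most `r.sum`; a state `none` stays
`none`), `PTime.filter`, `append`, `cons`, `take`, `drop`, `listSum`, `zipIdx`, `map`, `all`, `natMin`, `natMul`, `natSub`,
`natLe`, `range`, `length`, `and`, `ite`, `optionCases`, `reverse`. `b` and `κ` are constants.
Last statement: `f w = if wordTest b κ w then [true] else []` is `PTime`, so
`polyTimeComputable_of_PTime_word` applies.
-/

set_option autoImplicit false

namespace Pool.Agent.Work.MP_1a5986_lc.WO

open Pool.Agent.Work.PolyTime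

private theorem sz_perm_apt {l m : List ℕ} (h : l.Perm m) : sz l = sz m := by
  rw [sz_list, sz_list, (h.map _).sum_eq]

private theorem pt_readStep {α : Type} [Code α] {f : α → List ℕ × ℕ} {g : α → Bool}
    (hf : PTime f) (hg : PTime g) : PTime (fun y => readStep (f y) (g y)) := by
  have h : PTime (fun y => bif g y then ((f y).1, (f y).2 + 1) else ((f y).2 :: (f y).1, 0)) := by
    fun_prop
  refine h.code_congr (fun y => ?_)
  unfold readStep
  cases g y <;> rfl

private theorem pt_readW : PTime readW := by
  have h : PTime (fun w : List Bool => w.foldl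
      (fun s b => (fun y : List Bool × (List ℕ × ℕ) × Bool => readStep y.2.1 y.2.2) (w, s, b))
      (([] : List ℕ), 0)) := by
    refine PTime.foldlGrow (f := fun y : List Bool × (List ℕ × ℕ) × Bool => readStep y.2.1 y.2.2)
      (l := fun w : List Bool => w) PTime.id (PTime.const _) ?_ (G := fun _ => 2) (PB.const 2) ?_
    · exact pt_readStep (by fun_prop) (by fun_prop)
    · rintro x b - ⟨s, n⟩
      cases b
      · simp only [readStep, sz_pair, sz_cons, sz_nat, Bool.false_eq_true, if_false]
        omega
      · simp only [readStep, sz_pair, sz_nat, if_true]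
        omega
  exact h.code_congr (fun w => rfl)

private theorem pt_insS {α : Type} [Code α] {f : α → List ℕ} {g : α → ℕ}
    (hf : PTime f) (hg : PTime g) : PTime (fun y => insS (f y) (g y)) := by
  unfold insS
  have h1 : PTime (fun y => (f y).filter (fun c => decide (c ≤ g y))) := by
    refine PTime.filter hf ?_
    have h2 : PTime (fun y : α × ℕ => g y.1) := hg.comp PTime.fst
    fun_prop
  have h2 : PTime (fun y => (f y).filter (fun c => decide (g y < c))) := by
    refine PTime.filter hf ?_
    have h2 : PTime (fun y : α × ℕ => g y.1) := hg.comp PTime.fst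
    have h3 : PTime (fun y : α × ℕ => decide (g y.1 + 1 ≤ y.2)) := by fun_prop
    exact h3
  exact PTime.append h1 (PTime.cons hg h2)

private theorem pt_sortS : PTime sortS := by
  have h : PTime (fun w : List ℕ => w.foldl
      (fun s b => (fun y : List ℕ × List ℕ × ℕ => insS y.2.1 y.2.2) (w, s, b))
      ([] : List ℕ)) := by
    refine PTime.foldl (f := fun y : List ℕ × List ℕ × ℕ => insS y.2.1 y.2.2)
      (l := fun w : List ℕ => w) PTime.id (PTime.const _) ?_ (B := fun w => sz w) PB.self ?_
    · exact pt_insS (by fun_prop) (by fun_prop)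
    · intro x l' hl'
      have h1 : sz (sortS l') = sz l' := sz_perm_apt (sortS_perm l')
      exact h1.le.trans (sz_prefix hl')
  exact h.code_congr (fun w => rfl)

private theorem pt_foldMin {α : Type} [Code α] {l : α → List ℕ} {s : α → ℕ}
    (hl : PTime l) (hs : PTime s) : PTime (fun y => (l y).foldl min (s y)) := by
  have h : PTime (fun w : α => (l w).foldl
      (fun s b => (fun y : α × ℕ × ℕ => min y.2.1 y.2.2) (w, s, b)) (s w)) := by
    refine PTime.foldlGrow (f := fun y : α × ℕ × ℕ => min y.2.1 y.2.2)
      hl hs (by fun_prop) (G := fun _ => 0) (PB.const 0) ?_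
    intro x b _ s
    simp only [sz_nat]
    omega
  exact h.code_congr (fun w => rfl)

private theorem pt_lhs {α : Type} [Code α] (b κ : ℕ) {r : α → List ℕ} {x x' : α → ℕ}
    (hr : PTime r) (hx : PTime x) (hx' : PTime x') :
    PTime (fun y => lhs b κ (r y) (x y) (x' y)) := by
  unfold lhs
  fun_prop

private theorem pt_rhs {α : Type} [Code α] (b : ℕ) {r : α → List ℕ} {x x' : α → ℕ}
    (hr : PTime r) (hx : PTime x) (hx' : PTime x') :
    PTime (fun y => rhs b (r y) (x y) (x' y)) := by
  unfold rhs
  fun_prop

private theorem pt_stepS {α : Type} [Code α] (b κ : ℕ) {r : α → List ℕ}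
    {st : α → Option (List ℕ)} {x : α → ℕ}
    (hr : PTime r) (hst : PTime st) (hx : PTime x) :
    PTime (fun y => stepS b κ (r y) (st y) (x y)) := by
  have h1 : PTime (fun z : α × List ℕ => z.2.zipIdx.all
      (fun q => decide (lhs b κ (r z.1) (x z.1) q.2 ≤ rhs b (r z.1) (x z.1) q.1))) := by
    refine PTime.all (PTime.zipIdx (by fun_prop)) ?_
    have hr' : PTime (fun z : (α × List ℕ) × ℕ × ℕ => r z.1.1) :=
      hr.comp (f := fun z : (α × List ℕ) × ℕ × ℕ => z.1.1) (by fun_prop)
    have hx' : PTime (fun z : (α × List ℕ) × ℕ × ℕ => x z.1.1) :=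
      hx.comp (f := fun z : (α × List ℕ) × ℕ × ℕ => z.1.1) (by fun_prop)
    exact PTime.natLe (pt_lhs b κ hr' hx' (by fun_prop)) (pt_rhs b hr' hx' (by fun_prop))
  have h2 : PTime (fun z : α × List ℕ => z.2 ++ [(z.2.zipIdx.map
      fun q => rhs b (r z.1) (x z.1) q.1 - lhs b κ (r z.1) (x z.1) q.2).foldl min
        ((r z.1).take (x z.1)).sum]) := by
    have hr' : PTime (fun z : (α × List ℕ) × ℕ × ℕ => r z.1.1) :=
      hr.comp (f := fun z : (α × List ℕ) × ℕ × ℕ => z.1.1) (by fun_prop)
    have hx' : PTime (fun z : (α × List ℕ) × ℕ × ℕ => x z.1.1) :=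
      hx.comp (f := fun z : (α × List ℕ) × ℕ × ℕ => z.1.1) (by fun_prop)
    have hr'' : PTime (fun z : α × List ℕ => r z.1) := hr.comp PTime.fst
    have hx'' : PTime (fun z : α × List ℕ => x z.1) := hx.comp PTime.fst
    refine PTime.append (by fun_prop) (PTime.cons ?_ (PTime.const _))
    refine pt_foldMin ?_ (by fun_prop)
    refine PTime.map (PTime.zipIdx (by fun_prop)) ?_
    exact PTime.natSub (pt_rhs b hr' hx' (by fun_prop)) (pt_lhs b κ hr' hx' (by fun_prop))
  refine PTime.optionCases hst (g := fun _ => none)
    (h := fun z : α × List ℕ => bif z.2.zipIdx.all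
      (fun q => decide (lhs b κ (r z.1) (x z.1) q.2 ≤ rhs b (r z.1) (x z.1) q.1)) then
        some (z.2 ++ [(z.2.zipIdx.map
      fun q => rhs b (r z.1) (x z.1) q.1 - lhs b κ (r z.1) (x z.1) q.2).foldl min
        ((r z.1).take (x z.1)).sum]) else none) (PTime.const _)
    (PTime.cond h1 h2.mkSome (PTime.const _)) ?_ ?_
  · intro y hy
    rw [hy]
    rfl
  · intro y ws hy
    rw [hy]
    simp only [stepS]
    rw [← Bool.cond_eq_ite]

private theorem pt_isSome {α β : Type} [Code α] [Code β] {o : α → Option β} (ho : PTime o) :
    PTime (fun y => (o y).isSome) := by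
  refine PTime.optionCases ho (g := fun _ => false) (h := fun _ => true) (PTime.const _)
    (PTime.const _) ?_ ?_
  · intro y hy
    rw [hy]
    rfl
  · intro y ws hy
    rw [hy]
    rfl

private theorem pt_botTest (b κ : ℕ) : PTime (botTest b κ) := by
  have h : PTime (fun r : List ℕ => (List.range r.length).foldl
      (fun s x => (fun y : List ℕ × Option (List ℕ) × ℕ => stepS b κ y.1 y.2.1 (y.2.2 + 1))
        (r, s, x)) (some [0])) := by
    refine PTime.foldl
      (f := fun y : List ℕ × Option (List ℕ) × ℕ => stepS b κ y.1 y.2.1 (y.2.2 + 1))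
      (l := fun r : List ℕ => List.range r.length) (by fun_prop) (PTime.const _) ?_
      (B := fun r => 3 + (sz r + 1) * (1 + sz r.sum)) ?_ ?_
    · exact pt_stepS b κ (by fun_prop) (by fun_prop) (by fun_prop)
    · exact (PB.const 3).add ((PB.self.add (PB.const 1)).mul ((PB.const 1).add
        (PTime.sz_le (f := fun r : List ℕ => r.sum) (by fun_prop))))
    · intro r l' hl'
      have h1 : l' = List.range l'.length := by
        have h2 := List.prefix_iff_eq_take.1 hl'
        rw [List.take_range] at h2
        have h3 : l'.length = min l'.length r.length := by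
          conv_lhs => rw [h2, List.length_range]
        rw [← h3] at h2
        exact h2
      have h4 : l'.length ≤ sz r := by
        have h5 := hl'.length_le
        rw [List.length_range] at h5
        exact h5.trans (length_lt_sz r).le
      cases h6 : l'.foldl (fun s x => stepS b κ r s (x + 1)) (some [0]) with
      | none =>
        rw [sz_none]
        omega
      | some ws =>
        have h7 := h6
        rw [h1] at h7
        obtain ⟨h8, h9⟩ := botTest_bound b κ r _ ws h7
        rw [sz_some]
        have h10 := sz_list_le ws (sz r.sum) (fun c hc => by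
          have := h9 c hc
          simp only [sz_nat]
          omega)
        have h11 : ws.length * (1 + sz r.sum) ≤ (sz r + 1) * (1 + sz r.sum) := by
          apply Nat.mul_le_mul_right
          omega
        omega
  exact (pt_isSome h).code_congr (fun w => rfl)

private theorem pt_topTest (b κ : ℕ) : PTime (topTest b κ) := by
  unfold topTest
  refine PTime.all (by fun_prop) ?_
  exact PTime.natLe (by fun_prop) (by fun_prop)

private theorem pt_wordTest (b κ : ℕ) : PTime (wordTest b κ) := by
  have h1 : PTime (fun w => (readW w).1.reverse) := by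
    have := pt_readW
    fun_prop
  have h2 : PTime (fun w => sortS (readW w).1.reverse) := pt_sortS.comp h1
  unfold wordTest test
  refine PTime.and ?_ (PTime.and ((pt_botTest b κ).comp h2) ((pt_topTest b κ).comp h2))
  have h3 : PTime (fun w => (readW w).2) := by
    have := pt_readW
    fun_prop
  exact PTime.eq h3 (PTime.const 0)

theorem wordTest_poly (b κ : ℕ) :
    PolyTimeComputable (fun w : List Bool => if wordTest b κ w then [true] else []) := by
  apply polyTimeComputable_of_PTime_word
  have h := PTime.cond (pt_wordTest b κ) (PTime.const [true]) (PTime.const ([] : List Bool))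
  refine h.code_congr (fun w => ?_)
  rw [Bool.cond_eq_ite]

end Pool.Agent.Work.MP_1a5986_lc.WO
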