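import Pool.Agent.Work.MP_1a5986_lc.WO.Peel

/-!
MODULE ChainL (M).  MP_1a5986_lc, board modsoc.  A potential bounds all chains from below.

Proof of `chain_lower` by strong induction on `x`, the number of `i` with `χ i ≠ 0`, for all antitone
`χ` with `NoGap b χ`; claim: `w x ≤ ∑ χ τ + low b χ`. As `χ` is antitone, `χ i ≠ 0 ↔ i < x`. If `x = 0`
then `χ = 0` and both sides are `0` (`w 0 = 0`). Let `x > 0` and let `x'` be the number of `i` with
`b ≤ χ i`, so `b ≤ χ i ↔ i < x'`. The smallest nonzero value of `χ` is `1` (if it were `v = b * χ j` then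
`χ j < v` would be nonzero), so `x' < x`, and on `[x', x)` the values are `1` (a nonzero value other than
`1` is `b * χ j ≥ b`). Let `χ' i = χ i / b` for `i < x'` and `0` otherwise. For `i < x'` we have
`χ i = b * χ j` with `χ j ≠ 0`, so `χ' i = χ j ≥ 1`; if `χ j ≠ 1` then `χ j = b * χ k`, so `j < x'` and
`χ' j = χ k`, so `χ' i = b * χ' j`: `NoGap b χ'`. `χ'` is antitone, with support `[0, x')`, and
`χ = peel b x' x χ'`. By `peel_eq`, the induction hypothesis (`w x' ≤ F χ'`, and `0 ≤ b`) and `hw`,
`F χ = A(x, x') + b F χ' ≥ A(x, x') + b * w x' ≥ w x`.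
-/

set_option autoImplicit false

namespace Pool.Agent.Work.MP_1a5986_lc.WO

variable {n : ℕ}

private theorem exists_cut (χ : Fin n → ℕ) (ha : Antitone χ) (c : ℕ) :
    ∃ x ≤ n, ∀ i, c ≤ χ i ↔ (i : ℕ) < x := by
  classical
  by_cases hall : ∀ i, c ≤ χ i
  · exact ⟨n, le_rfl, fun i => ⟨fun _ => i.2, fun _ => hall i⟩⟩
  · push Not at hall
    have hne : (Finset.univ.filter fun i : Fin n => χ i < c).Nonempty := by
      obtain ⟨i, hi⟩ := hall
      exact ⟨i, by simp [hi]⟩
    obtain ⟨i0, hi0, hmin⟩ := Finset.exists_min_image _ (fun i : Fin n => (i : ℕ)) hne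
    rw [Finset.mem_filter] at hi0
    refine ⟨i0, i0.2.le, fun i => ⟨fun h => ?_, fun h => ?_⟩⟩
    · by_contra hcon
      have h1 : χ i ≤ χ i0 := ha (Fin.le_def.2 (by omega))
      omega
    · by_contra hcon
      have h1 := hmin i (by rw [Finset.mem_filter]; exact ⟨Finset.mem_univ _, by omega⟩)
      omega

private theorem chain_aux (b : ℕ) (hb : 2 ≤ b) (τ : Fin n → ℝ) (w : ℕ → ℝ) (h0 : w 0 = 0)
    (hw : ∀ x ≤ n, ∀ x' < x,
      w x ≤ pre τ x - pre τ x' + ((x : ℝ) - x') * ((n : ℝ) - x - b * x') + b * w x') :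
    ∀ (x : ℕ), x ≤ n → ∀ χ : Fin n → ℕ, NoGap b χ → Antitone χ →
      (∀ i, χ i ≠ 0 ↔ (i : ℕ) < x) →
      w x ≤ ∑ i, (χ i : ℝ) * τ i + low b (fun i => (χ i : ℝ)) := by
  intro x
  induction x using Nat.strong_induction_on with
  | _ x ih =>
    intro hxn χ hχ ha hsupp
    rcases Nat.eq_zero_or_pos x with hx0 | hxpos
    · subst hx0
      have hz : ∀ i, χ i = 0 := by
        intro i
        by_contra h
        exact absurd ((hsupp i).1 h) (by omega)
      rw [h0]
      have e1 : ∑ i, (χ i : ℝ) * τ i = 0 := by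
        refine Finset.sum_eq_zero fun i _ => ?_
        rw [hz i]; simp
      have e2 : low b (fun i => (χ i : ℝ)) = 0 := by
        unfold low
        refine Finset.sum_eq_zero fun i _ => Finset.sum_eq_zero fun j _ => ?_
        show max 0 ((χ j : ℝ) - b * (χ i : ℝ)) = 0
        rw [hz i, hz j]; simp
      rw [e1, e2]; simp
    · obtain ⟨x', hx'n, hx'⟩ := exists_cut χ ha b
      -- values at least `b` have a predecessor
      have hpred : ∀ i, b ≤ χ i → ∃ j, χ i = b * χ j ∧ χ j ≠ 0 := by
        intro i hi
        rcases hχ i with h | h | ⟨j, hj⟩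
        · omega
        · omega
        · refine ⟨j, hj, ?_⟩
          intro h
          rw [h, mul_zero] at hj
          omega
      have hxx : x' < x := by
        by_contra hcon
        have hlt : x - 1 < n := by omega
        have h1 : b ≤ χ ⟨x - 1, hlt⟩ := (hx' ⟨x - 1, hlt⟩).2 (by show x - 1 < x'; omega)
        obtain ⟨j, hj, hj0⟩ := hpred _ h1
        have hjx : (j : ℕ) < x := (hsupp j).1 hj0
        have h2 : χ ⟨x - 1, hlt⟩ ≤ χ j := ha (Fin.le_def.2 (by show (j : ℕ) ≤ x - 1; omega))
        have h3 : 0 < χ j := Nat.pos_of_ne_zero hj0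
        nlinarith
      have hdiv : ∀ i, b ≤ χ i → χ i = b * (χ i / b) ∧ 1 ≤ χ i / b := by
        intro i hi
        obtain ⟨j, hj, hj0⟩ := hpred i hi
        have h1 : χ i / b = χ j := by
          rw [hj]; exact Nat.mul_div_cancel_left _ (by omega)
        rw [h1]
        exact ⟨hj, Nat.pos_of_ne_zero hj0⟩
      let χ' : Fin n → ℕ := fun i => if (i : ℕ) < x' then χ i / b else 0
      have hp : ∀ i : Fin n, (i : ℕ) < x' → χ' i = χ i / b := fun i hi => if_pos hi
      have hn : ∀ i : Fin n, ¬ (i : ℕ) < x' → χ' i = 0 := fun i hi => if_neg hi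
      have hχ'0 : ∀ i : Fin n, x' ≤ (i : ℕ) → χ' i = 0 := fun i hi => hn i (by omega)
      have hχ'1 : ∀ i : Fin n, (i : ℕ) < x' → 1 ≤ χ' i := by
        intro i hi
        rw [hp i hi]
        exact (hdiv i ((hx' i).2 hi)).2
      have hgap : NoGap b χ' := by
        intro i
        by_cases hi : (i : ℕ) < x'
        · right
          obtain ⟨j, hj, hj0⟩ := hpred i ((hx' i).2 hi)
          have h1 : χ' i = χ j := by
            rw [hp i hi, hj]; exact Nat.mul_div_cancel_left _ (by omega)
          rcases hχ j with h | h | ⟨k, hk⟩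
          · exact absurd h hj0
          · left; rw [h1, h]
          · right
            have hk0 : χ k ≠ 0 := by
              intro h
              rw [h, mul_zero] at hk
              exact hj0 hk
            have hbj : b ≤ χ j := by
              rw [hk]
              exact Nat.le_mul_of_pos_right _ (Nat.pos_of_ne_zero hk0)
            have hjx := (hx' j).1 hbj
            refine ⟨j, ?_⟩
            rw [h1, hp j hjx]
            exact (hdiv j hbj).1
        · left; exact hn i hi
      have hanti : Antitone χ' := by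
        intro i k hik
        by_cases hk : (k : ℕ) < x'
        · have hi : (i : ℕ) < x' := lt_of_le_of_lt (Fin.le_def.1 hik) hk
          rw [hp i hi, hp k hk]
          exact Nat.div_le_div_right (ha hik)
        · rw [hn k hk]
          exact Nat.zero_le _
      have hsupp' : ∀ i, χ' i ≠ 0 ↔ (i : ℕ) < x' := by
        intro i
        constructor
        · intro h
          by_contra hcon
          exact h (hn i hcon)
        · intro h
          have := hχ'1 i h
          omega
      have hIH := ih x' hxx hx'n χ' hgap hanti hsupp'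
      have hpeel : ∀ i, peel b x' x χ' i = χ i := by
        intro i
        unfold peel
        by_cases h1 : (i : ℕ) < x'
        · rw [if_pos h1, hp i h1]
          exact (hdiv i ((hx' i).2 h1)).1.symm
        · rw [if_neg h1]
          have hnb : ¬ b ≤ χ i := fun h => h1 ((hx' i).1 h)
          by_cases h2 : (i : ℕ) < x
          · rw [if_pos h2]
            have h3 := (hsupp i).2 h2
            rcases hχ i with h | h | ⟨j, hj⟩
            · exact absurd h h3
            · exact h.symm
            · exfalso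
              have hj0 : χ j ≠ 0 := by
                intro h
                rw [h, mul_zero] at hj
                exact h3 hj
              apply hnb
              rw [hj]
              exact Nat.le_mul_of_pos_right _ (Nat.pos_of_ne_zero hj0)
          · rw [if_neg h2]
            by_contra h3
            exact h2 ((hsupp i).1 (fun h => h3 h.symm))
      have hpe := peel_eq b (by omega) τ x' x hxx hxn χ' hχ'0 hχ'1
      simp only [hpeel] at hpe
      rw [hpe]
      have h4 := hw x hxn x' hxx
      have h5 : (b : ℝ) * w x' ≤ b * (∑ i, (χ' i : ℝ) * τ i + low b (fun i => (χ' i : ℝ))) :=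
        mul_le_mul_of_nonneg_left hIH (Nat.cast_nonneg _)
      linarith

theorem chain_lower (b : ℕ) (hb : 2 ≤ b) (τ : Fin n → ℝ) (w : ℕ → ℝ) (h0 : w 0 = 0)
    (hw : ∀ x ≤ n, ∀ x' < x,
      w x ≤ pre τ x - pre τ x' + ((x : ℝ) - x') * ((n : ℝ) - x - b * x') + b * w x')
    (hpos : ∀ x ≤ n, 0 ≤ w x) (χ : Fin n → ℕ) (hχ : NoGap b χ) (ha : Antitone χ) :
    0 ≤ ∑ i, (χ i : ℝ) * τ i + low b (fun i => (χ i : ℝ)) := by
  obtain ⟨x, hx, hsupp⟩ := exists_cut χ ha 1
  refine (hpos x hx).trans (chain_aux b hb τ w h0 hw x hx χ hχ ha fun i => ?_)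
  rw [← hsupp i]
  omega

end Pool.Agent.Work.MP_1a5986_lc.WO
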