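import Pool.Agent.Work.MP_1a5986_lc.WO.Defs

/-!
MODULE CostG (S-M).  MP_1a5986_lc, board modsoc.  The cost of the reserved matches.

* `hS_compl`: `⊤.Adj i j` iff exactly one of `H.Adj i j`, `Hᶜ.Adj i j`; add termwise.
* `cost`: for adjacent `i, j`,
  `max 0 (max (2 y i - y j) (2 y j - y i)) ≤ A i + A j` with `A i = 2 * max (y i) 0 + max (-(y i)) 0`
  (`2 y i ≤ 2 max (y i) 0`, `- y j ≤ max (-(y j)) 0`). So `hS H 2 y ≤ ∑ i, dg H i * A i ≤ 9 ∑ A i` (exchange
  of the sums, `H.symm`). With `y i = max (y i) 0 - max (-(y i)) 0`, `|y i|` = their sum: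
  `9 A i - 2 y i ≤ 18 |y i|`.
-/

set_option autoImplicit false

namespace Pool.Agent.Work.MP_1a5986_lc.WO

variable {n : ℕ}

theorem hS_compl (H : SimpleGraph (Fin n)) (b : ℝ) (y : Fin n → ℝ) :
    hS ⊤ b y = hS Hᶜ b y + hS H b y := by
  classical
  unfold hS
  rw [← mul_add, ← Finset.sum_add_distrib]
  congr 1
  refine Finset.sum_congr rfl fun i _ => ?_
  rw [← Finset.sum_add_distrib]
  refine Finset.sum_congr rfl fun j _ => ?_
  by_cases h : i = j
  · subst h
    simp
  · by_cases h2 : H.Adj i j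
    · simp [h, h2, SimpleGraph.compl_adj]
    · simp [h, h2, SimpleGraph.compl_adj]

theorem cost (H : SimpleGraph (Fin n)) (hH : ∀ i, dg H i ≤ 9) (y : Fin n → ℝ) :
    hS H 2 y ≤ 2 * ∑ i, y i + 18 * ∑ i, |y i| := by
  classical
  obtain ⟨A, hAdef⟩ : ∃ A : Fin n → ℝ, ∀ i, A i = 2 * max (y i) 0 + max (-(y i)) 0 :=
    ⟨_, fun _ => rfl⟩
  have hy1 : ∀ i, y i ≤ max (y i) 0 := fun i => le_max_left _ _
  have hy2 : ∀ i, 0 ≤ max (y i) 0 := fun i => le_max_right _ _
  have hy3 : ∀ i, -(y i) ≤ max (-(y i)) 0 := fun i => le_max_left _ _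
  have hy4 : ∀ i, 0 ≤ max (-(y i)) 0 := fun i => le_max_right _ _
  have hA : ∀ i, 0 ≤ A i := by
    intro i
    rw [hAdef]
    linarith [hy2 i, hy4 i]
  have h1 : ∑ i, ∑ j, (if H.Adj i j then max 0 (max (2 * y i - y j) (2 * y j - y i)) else 0) ≤
      ∑ i, ∑ j, (if H.Adj i j then A i + A j else 0) := by
    refine Finset.sum_le_sum fun i _ => Finset.sum_le_sum fun j _ => ?_
    split_ifs
    · refine max_le (by linarith [hA i, hA j]) (max_le ?_ ?_)
      · rw [hAdef i, hAdef j]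
        linarith [hy1 i, hy2 j, hy3 j, hy4 i]
      · rw [hAdef i, hAdef j]
        linarith [hy1 j, hy2 i, hy3 i, hy4 j]
    · exact le_rfl
  have h3 : ∑ i, ∑ j, (if H.Adj i j then A i else 0) = ∑ i, (dg H i : ℝ) * A i := by
    refine Finset.sum_congr rfl fun i _ => ?_
    unfold dg
    push_cast
    rw [Finset.sum_mul]
    refine Finset.sum_congr rfl fun j _ => ?_
    split_ifs
    · rw [one_mul]
    · rw [zero_mul]
  have h4 : ∑ i, ∑ j, (if H.Adj i j then A j else 0) =
      ∑ i, ∑ j, (if H.Adj i j then A i else 0) := by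
    rw [Finset.sum_comm]
    refine Finset.sum_congr rfl fun i _ => Finset.sum_congr rfl fun j _ => ?_
    rw [H.adj_comm]
  have h5 : ∑ i, ∑ j, (if H.Adj i j then A i + A j else 0) =
      ∑ i, ∑ j, (if H.Adj i j then A i else 0) + ∑ i, ∑ j, (if H.Adj i j then A j else 0) := by
    rw [← Finset.sum_add_distrib]
    refine Finset.sum_congr rfl fun i _ => ?_
    rw [← Finset.sum_add_distrib]
    refine Finset.sum_congr rfl fun j _ => ?_
    split_ifs
    · rfl
    · rw [add_zero]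
  have h6 : ∑ i, (dg H i : ℝ) * A i ≤ ∑ i, (2 * y i + 18 * |y i|) := by
    refine Finset.sum_le_sum fun i _ => ?_
    have h7 : (dg H i : ℝ) ≤ 9 := by exact_mod_cast hH i
    refine (mul_le_mul_of_nonneg_right h7 (hA i)).trans ?_
    rw [hAdef]
    rcases le_total 0 (y i) with h8 | h8
    · rw [abs_of_nonneg h8, max_eq_left h8, max_eq_right (by linarith)]
      linarith
    · rw [abs_of_nonpos h8, max_eq_right h8, max_eq_left (by linarith)]
      linarith
  rw [Finset.sum_add_distrib, ← Finset.mul_sum, ← Finset.mul_sum] at h6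
  unfold hS
  linarith [h1, h3, h4, h5, h6]

end Pool.Agent.Work.MP_1a5986_lc.WO
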