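import Mathlib
import Pool.Agent.Work.MP_1a5986_lc.Defs
import Pool.Agent.Work.PolyTime.NPDefs

/-!
Expected score sequences of soccer tournaments: definitions (FIXED).
A win is worth `a` points, a draw one point; `a = 3` for soccer.
-/

set_option autoImplicit false

namespace Pool.Agent.Work.MP_1a5986_lc.WO

open Pool.Agent.Work.MP_1a5986_lc

/-- The points for a result. -/
def pts (a : ℕ) : Res → ℕ
  | .win => a
  | .draw => 1
  | .loss => 0

section

variable {n : ℕ}

open Classical in
/-- The score of the team `i` when only the pairs of adjacent teams of `G` play. -/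
noncomputable def scoreOn (G : SimpleGraph (Fin n)) (a : ℕ) (T : Tournament (Fin n))
    (i : Fin n) : ℕ :=
  ∑ j, if G.Adj i j then pts a (T.res i j) else 0

/-- Win probabilities: `p i j` is the probability that `i` wins against `j`, and
`1 - p i j - p j i` is the probability of a draw. -/
structure Mixed (p : Fin n → Fin n → ℝ) : Prop where
  nonneg : ∀ i j, 0 ≤ p i j
  add_le : ∀ i j, i ≠ j → p i j + p j i ≤ 1

open Classical in
/-- The expected score of the team `i` when only the pairs of adjacent teams of `G` play. -/
noncomputable def expScore (G : SimpleGraph (Fin n)) (a : ℕ) (p : Fin n → Fin n → ℝ)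
    (i : Fin n) : ℝ :=
  ∑ j, if G.Adj i j then a * p i j + (1 - p i j - p j i) else 0

/-- `s` is the sequence of the expected scores of a random tournament. -/
def Expected (G : SimpleGraph (Fin n)) (a : ℕ) (s : Fin n → ℝ) : Prop :=
  ∃ p, Mixed p ∧ ∀ i, expScore G a p i = s i

/-- Every real sequence at distance at most `κ` from `s` in the maximum norm is the sequence of
the expected scores of a random tournament of all teams. -/
def Deep (a κ : ℕ) (s : Fin n → ℝ) : Prop :=
  ∀ s' : Fin n → ℝ, (∀ i, |s' i - s i| ≤ κ) → Expected ⊤ a s'

end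

/-- The word `1 ^ s₁ 0 1 ^ s₂ 0 ⋯` of a list of natural numbers. -/
def enc (s : List ℕ) : List Bool := s.flatMap fun k => List.replicate k true ++ [false]

/-- The language of the lists of scores with the property `Deep`. -/
def deepLang (a κ : ℕ) : Set (List Bool) :=
  {w | ∃ s : List ℕ, w = enc s ∧ Deep a κ (fun i : Fin s.length => ((s.get i : ℕ) : ℝ))}

/-- The language of the lists of natural numbers that are sequences of expected scores. -/
def expLang (a : ℕ) : Set (List Bool) :=
  {w | ∃ s : List ℕ, w = enc s ∧ Expected ⊤ a (fun i : Fin s.length => ((s.get i : ℕ) : ℝ))}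

/-- The language of the score sequences: the problem SOCCER SCORES for `a = 3`. -/
def scoreLang (a : ℕ) : Set (List Bool) :=
  {w | ∃ s : List ℕ, w = enc s ∧
    ∃ T : Tournament (Fin s.length), ∀ i, T.score a i = s.get i}

/-! ### Working notions (net scores: `b` for a win, `0` for a draw, `-1` for a loss) -/

/-- The net value of a result. -/
def val (b : ℕ) : Res → ℤ
  | .win => b
  | .draw => 0
  | .loss => -1

section

variable {n : ℕ}

open Classical in
/-- Net score in a tournament. -/
noncomputable def netT (G : SimpleGraph (Fin n)) (b : ℕ) (T : Tournament (Fin n))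
    (i : Fin n) : ℤ :=
  ∑ j, if G.Adj i j then val b (T.res i j) else 0

open Classical in
/-- Expected net score. -/
noncomputable def net (G : SimpleGraph (Fin n)) (b : ℝ) (p : Fin n → Fin n → ℝ)
    (i : Fin n) : ℝ :=
  ∑ j, if G.Adj i j then b * p i j - p j i else 0

open Classical in
/-- The number of matches of `i`. -/
noncomputable def dg (G : SimpleGraph (Fin n)) (i : Fin n) : ℕ :=
  ∑ j, if G.Adj i j then 1 else 0

open Classical in
/-- The support function of the polytope of the expected net scores. -/
noncomputable def hS (G : SimpleGraph (Fin n)) (b : ℝ) (y : Fin n → ℝ) : ℝ :=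
  (1 / 2) * ∑ i, ∑ j, if G.Adj i j then max 0 (max (b * y i - y j) (b * y j - y i)) else 0

/-- Its value at `-z` for `z ≥ 0` and the complete graph. -/
noncomputable def low (b : ℝ) (z : Fin n → ℝ) : ℝ := ∑ i, ∑ j, max 0 (z j - b * z i)

/-- Powers of `b` and zeros, without gaps. -/
def NoGap (b : ℕ) (z : Fin n → ℕ) : Prop := ∀ i, z i = 0 ∨ z i = 1 ∨ ∃ j, z i = b * z j

end

end Pool.Agent.Work.MP_1a5986_lc.WO
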