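import Pool.Agent.Work.MP_1a5986_lc.WO.InPM
import Pool.Agent.Work.MP_1a5986_lc.WO.Round

/-! The explicit form of the inequalities and the languages (assembled from the modules). -/

set_option autoImplicit false

namespace Pool.Agent.Work.MP_1a5986_lc.WO

open Pool.Agent.Work.PolyTime Pool.Agent.Work.MP_1a5986_lc

variable {n : ℕ}

theorem expected_iff_deep (a : ℕ) (s : Fin n → ℝ) : Expected ⊤ a s ↔ Deep a 0 s := by
  constructor
  · intro h s' hs'
    have : s' = s := by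
      funext i
      have := hs' i
      simp only [Nat.cast_zero, abs_nonpos_iff, sub_eq_zero] at this
      exact this
    rw [this]
    exact h
  · intro h
    exact h s fun i => by simp

theorem low_eq (b : ℝ) (χ : Fin n → ℕ) (s : Fin n → ℝ) (κ : ℝ) :
    0 ≤ ∑ i, (χ i : ℝ) * (s i - ((n : ℝ) - 1) - κ) + low b (fun i => (χ i : ℝ)) ↔
    ∑ i, (χ i : ℝ) * ((n : ℝ) - 1 + κ)
      ≤ ∑ i, (χ i : ℝ) * s i + ∑ i, ∑ j, max 0 ((χ j : ℝ) - b * χ i) := by
  have h1 : ∑ i, (χ i : ℝ) * (s i - ((n : ℝ) - 1) - κ)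
      = ∑ i, (χ i : ℝ) * s i - ∑ i, (χ i : ℝ) * ((n : ℝ) - 1 + κ) := by
    rw [← Finset.sum_sub_distrib]
    exact Finset.sum_congr rfl fun i _ => by ring
  rw [h1]
  unfold low
  constructor <;> intro h <;> linarith

theorem deep_expl (a κ : ℕ) (ha : 3 ≤ a) (s : Fin n → ℝ) :
    Deep a κ s ↔
      (∀ S : Finset (Fin n), ∑ i ∈ S, (s i + κ)
        ≤ (a : ℝ) * ((S.card : ℝ) * (S.card - 1) / 2 + S.card * (n - S.card))) ∧
      ∀ z : Fin n → ℕ, (∀ i, z i = 0 ∨ ∃ k < n, z i = (a - 1) ^ k) →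
        ∑ i, (z i : ℝ) * ((n : ℝ) - 1 + κ)
          ≤ ∑ i, (z i : ℝ) * s i + ∑ i, ∑ j, max 0 ((z j : ℝ) - ((a : ℝ) - 1) * z i) := by
  obtain ⟨b, rfl⟩ : ∃ b, a = b + 1 := ⟨a - 1, by omega⟩
  have hb : 2 ≤ b := by omega
  have hc : ((b + 1 : ℕ) : ℝ) = (b : ℝ) + 1 := by push_cast; ring
  have hc' : ((b + 1 : ℕ) : ℝ) - 1 = b := by push_cast; ring
  simp only [hc', Nat.add_sub_cancel]
  rw [hc]
  constructor
  · intro h
    have h0 := (deep_iff b κ hb s).1 h
    refine ⟨h0.1, fun z hz => ?_⟩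
    rw [← low_eq]
    -- all functions with powers as values
    have key := neg_int b hb (fun i => s i - ((n : ℝ) - 1) - κ)
      (fun χ hχ => nogap_red b hb _ h0.2 χ hχ) (fun i => (z i : ℝ)) (fun i => Nat.cast_nonneg _)
    exact key
  · rintro ⟨h1, h2⟩
    refine (deep_iff b κ hb s).2 ⟨h1, fun χ hχ => ?_⟩
    rw [low_eq]
    exact h2 χ fun i => nogap_pow b hb χ hχ i

theorem expLang_eq (a : ℕ) : expLang a = deepLang a 0 := by
  ext w
  simp only [expLang, deepLang, Set.mem_setOf_eq, expected_iff_deep]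

theorem score_mem (a : ℕ) : scoreLang a ⊆ deepLang a 0 := by
  rintro w ⟨s, rfl, T, hT⟩
  refine ⟨s, rfl, (expected_iff_deep a _).1 ?_⟩
  have h := expected_of_tournament ⊤ a T
  have e : (fun i => (scoreOn ⊤ a T i : ℝ)) = fun i : Fin s.length => ((s.get i : ℕ) : ℝ) := by
    funext i
    rw [← hT i, score_top]
  rwa [e] at h

theorem mem_near (a : ℕ) (ha : 3 ≤ a) (l : List ℕ) (h : enc l ∈ deepLang a 0) :
    ∃ T : Tournament (Fin l.length), ∀ i, |(T.score a i : ℤ) - l.get i| ≤ a - 2 := by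
  have h1 := (expected_iff_deep a _).2 ((enc_mem_iff a 0 l).1 h)
  obtain ⟨T, hT⟩ := round_score ⊤ a (by omega) (fun i : Fin l.length => ((l.get i : ℕ) : ℤ)) (by
    have e : (fun i : Fin l.length => (((l.get i : ℕ) : ℤ) : ℝ)) = fun i => ((l.get i : ℕ) : ℝ) := by
      funext i
      push_cast
      rfl
    rw [e]
    exact h1)
  exact ⟨T, fun i => by rw [score_top]; exact hT i⟩

end Pool.Agent.Work.MP_1a5986_lc.WO
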