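import Pool.Agent.Work.MP_1a5986_lc.WO.Defs

/-!
MODULE GroupsG (S-M).  MP_1a5986_lc, board modsoc.  Groups of nine or ten teams.

* `groups`: `q = n / 9 ≥ 8`, `g i = i % q`. The number of `i < n` with `i % q = c` (`c < q`) is
  `(n - c + q - 1) / q` (or use `Nat.count_modEq_card`), and `9 q ≤ n ≤ 9 q + 8 ≤ 10 q`, so it is `9` or `10`.
* `sameG g` joins different teams of the same group; `dg` is the size of the group minus one.
-/

set_option autoImplicit false

namespace Pool.Agent.Work.MP_1a5986_lc.WO

variable {n : ℕ}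

/-- Two different teams of the same group. -/
def sameG {q : ℕ} (g : Fin n → Fin q) : SimpleGraph (Fin n) where
  Adj i j := i ≠ j ∧ g i = g j
  symm := ⟨fun _ _ h => ⟨h.1.symm, h.2.symm⟩⟩
  loopless := ⟨fun _ h => h.1 rfl⟩

private theorem arith (q v : ℕ) (hq : q = n / 9) (hn : 72 ≤ n) :
    (n / q + if v % q < n % q then 1 else 0) = 9 ∨
      (n / q + if v % q < n % q then 1 else 0) = 10 := by
  by_cases hlt : n < 10 * q
  · have h4 : n / q = 9 := by
      apply Nat.div_eq_of_lt_le
      · omega
      · omega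
    rw [h4]
    split_ifs
    · exact Or.inr rfl
    · exact Or.inl rfl
  · have h5 : q = 8 := by omega
    have h6 : n = 80 := by omega
    rw [h5, h6]
    right
    norm_num

theorem groups (hn : 72 ≤ n) : ∃ (q : ℕ) (g : Fin n → Fin q), ∀ c,
    (Finset.univ.filter fun i => g i = c).card = 9 ∨
      (Finset.univ.filter fun i => g i = c).card = 10 := by
  have hq : 0 < n / 9 := by omega
  refine ⟨n / 9, fun i => ⟨i.val % (n / 9), Nat.mod_lt _ hq⟩, fun c => ?_⟩
  have h1 : (Finset.univ.filter fun i : Fin n =>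
      (⟨i.val % (n / 9), Nat.mod_lt _ hq⟩ : Fin (n / 9)) = c).card =
      n.count (fun k => k ≡ c.val [MOD (n / 9)]) := by
    rw [Nat.count_eq_card_filter_range]
    refine Finset.card_bij (fun i _ => i.val) ?_ ?_ ?_
    · intro i hi
      rw [Finset.mem_filter] at hi
      rw [Finset.mem_filter, Finset.mem_range]
      refine ⟨i.isLt, ?_⟩
      have h2 : i.val % (n / 9) = c.val := congrArg Fin.val hi.2
      show i.val % (n / 9) = c.val % (n / 9)
      rw [h2, Nat.mod_eq_of_lt c.isLt]
    · intro i _ j _ hij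
      exact Fin.ext hij
    · intro k hk
      rw [Finset.mem_filter, Finset.mem_range] at hk
      refine ⟨⟨k, hk.1⟩, ?_, rfl⟩
      rw [Finset.mem_filter]
      refine ⟨Finset.mem_univ _, Fin.ext ?_⟩
      have h2 : k % (n / 9) = c.val % (n / 9) := hk.2
      show k % (n / 9) = c.val
      rw [h2, Nat.mod_eq_of_lt c.isLt]
  have h3 : n.count (fun k => k ≡ c.val [MOD (n / 9)]) =
      n / (n / 9) + if c.val % (n / 9) < n % (n / 9) then 1 else 0 :=
    Nat.count_modEq_card n hq c.val
  rw [h1, h3]
  exact arith _ _ rfl hn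

theorem dg_sameG {q : ℕ} (g : Fin n → Fin q)
    (hg : ∀ c, (Finset.univ.filter fun i => g i = c).card = 9 ∨
      (Finset.univ.filter fun i => g i = c).card = 10) (i : Fin n) : dg (sameG g) i ≤ 9 := by
  classical
  have h1 : dg (sameG g) i = ((Finset.univ.filter fun j => g j = g i).erase i).card := by
    unfold dg
    rw [Finset.card_eq_sum_ones, ← Finset.sum_filter]
    refine Finset.sum_congr ?_ fun _ _ => rfl
    ext j
    simp only [Finset.mem_filter, Finset.mem_univ, true_and, Finset.mem_erase, sameG]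
    constructor
    · rintro ⟨h1, h2⟩
      exact ⟨fun h => h1 h.symm, h2.symm⟩
    · rintro ⟨h1, h2⟩
      exact ⟨fun h => h1 h.symm, h2.symm⟩
  rw [h1, Finset.card_erase_of_mem (by simp)]
  rcases hg (g i) with h | h <;> omega

end Pool.Agent.Work.MP_1a5986_lc.WO
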