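import Pool.Agent.Work.MP_1a5986_lc.WO.Table
import Pool.Agent.Work.MP_1a5986_lc.WO.GroupsG

/-!
MODULE Gadget (M).  MP_1a5986_lc, board modsoc.  Prescribed net scores 1, 2, 3 inside the groups.

For a group `c` let `m` be its size (`9` or `10`) and `p, q, r` the numbers of its teams with `e i = 1, 2, 3`
(`p + q + r = m`). Take the tournament of `table` and a bijection `φ` from the group (subtype
`{i // g i = c}`) to `Fin m` which maps the teams with `e i = 1` to `[0, p)`, those with `e i = 2` to
`[p, p+q)`, the others to `[p+q, m)` (exists, because the fibres of `e` on the group and of the three-valued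
function on `Fin m` have equal cardinalities; e.g. general lemma: if `f : α → τ`, `h : β → τ` on finite types
have fibres of equal cardinality, there is `φ : α ≃ β` with `h ∘ φ = f`, by `Equiv.sigmaFiberEquiv`). Let
`T.res i j` for `g i = g j = c` be the result of `φ i` and `φ j`, and `draw` if `g i ≠ g j`.
In `netT (sameG g) 2 T i` only the `j` of the group of `i` count.
-/

set_option autoImplicit false

namespace Pool.Agent.Work.MP_1a5986_lc.WO

open Pool.Agent.Work.MP_1a5986_lc

variable {n : ℕ}

private theorem exEquiv {α β τ : Type} [Fintype α] [Fintype β] [DecidableEq τ] (f : α → τ)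
    (h : β → τ) (H : ∀ t, Fintype.card {a // f a = t} = Fintype.card {b // h b = t}) :
    ∃ φ : α ≃ β, ∀ a, h (φ a) = f a := by
  classical
  let E : ∀ t, {a // f a = t} ≃ {b // h b = t} := fun t => Fintype.equivOfCardEq (H t)
  refine ⟨(Equiv.sigmaFiberEquiv f).symm.trans
    ((Equiv.sigmaCongrRight E).trans (Equiv.sigmaFiberEquiv h)), fun a => ?_⟩
  have h1 : ((Equiv.sigmaFiberEquiv f).symm.trans
    ((Equiv.sigmaCongrRight E).trans (Equiv.sigmaFiberEquiv h))) a = (E (f a) ⟨a, rfl⟩).1 := rfl
  rw [h1]
  exact (E (f a) ⟨a, rfl⟩).2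

private theorem cardLt (m x : ℕ) (hx : x ≤ m) :
    (Finset.univ.filter fun k : Fin m => (k : ℕ) < x).card = x := by
  have h1 : (Finset.univ.filter fun k : Fin m => (k : ℕ) < x)
      = (Finset.univ : Finset (Fin x)).map (Fin.castLEEmb hx) := by
    ext k
    simp only [Finset.mem_filter, Finset.mem_univ, true_and, Finset.mem_map]
    constructor
    · intro hk
      exact ⟨⟨k, hk⟩, by ext; simp⟩
    · rintro ⟨y, rfl⟩
      simp
  rw [h1, Finset.card_map, Finset.card_univ, Fintype.card_fin]

/-- The three valued function. -/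
private def hv (p q : ℕ) {m : ℕ} (k : Fin m) : ℤ :=
  if (k : ℕ) < p then 1 else if (k : ℕ) < p + q then 2 else 3

private theorem hv1 (p q : ℕ) {m : ℕ} (k : Fin m) : hv p q k = 1 ↔ (k : ℕ) < p := by
  unfold hv
  split_ifs <;> simp_all

private theorem hv12 (p q : ℕ) {m : ℕ} (k : Fin m) :
    (hv p q k = 1 ∨ hv p q k = 2) ↔ (k : ℕ) < p + q := by
  unfold hv
  split_ifs with h1 h2
  · simp; omega
  · simp [h2]
  · simp [h2]

private theorem hv3 (p q : ℕ) {m : ℕ} (k : Fin m) :
    hv p q k = 1 ∨ hv p q k = 2 ∨ hv p q k = 3 := by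
  unfold hv
  split_ifs <;> simp

private theorem cardsEq {α : Type} [Fintype α] (e : α → ℤ) (he : ∀ i, e i = 1 ∨ e i = 2 ∨ e i = 3) :
    (Finset.univ.filter fun a => e a = 1).card + (Finset.univ.filter fun a => e a = 2).card
      + (Finset.univ.filter fun a => e a = 3).card = Fintype.card α := by
  classical
  rw [← Finset.card_union_of_disjoint, ← Finset.card_union_of_disjoint, ← Finset.card_univ]
  · congr 1
    ext a
    simp only [Finset.mem_union, Finset.mem_filter, Finset.mem_univ, true_and, iff_true]
    rcases he a with h | h | h <;> simp [h]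
  · rw [Finset.disjoint_left]
    intro a ha hb
    simp only [Finset.mem_union, Finset.mem_filter, Finset.mem_univ, true_and] at ha hb
    omega
  · rw [Finset.disjoint_left]
    intro a ha hb
    simp only [Finset.mem_filter, Finset.mem_univ, true_and] at ha hb
    omega

private theorem place {α : Type} [Fintype α] (e : α → ℤ) (he : ∀ i, e i = 1 ∨ e i = 2 ∨ e i = 3)
    (m : ℕ) (hm : Fintype.card α = m) :
    ∃ p q r : ℕ, p + q + r = m ∧ ∃ φ : α ≃ Fin m, ∀ a, hv p q (φ a) = e a := by
  classical
  set p := (Finset.univ.filter fun a => e a = 1).card with hp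
  set q := (Finset.univ.filter fun a => e a = 2).card with hq
  set r := (Finset.univ.filter fun a => e a = 3).card with hr
  have hs : p + q + r = m := by rw [← hm]; exact cardsEq e he
  refine ⟨p, q, r, hs, exEquiv e (fun k : Fin m => hv p q k) ?_⟩
  intro t
  have hA := cardsEq (fun k : Fin m => hv p q k) (fun k => hv3 p q k)
  rw [Fintype.card_fin] at hA
  have h1 : (Finset.univ.filter fun k : Fin m => hv p q k = 1).card = p := by
    refine Eq.trans ?_ (cardLt m p (by omega))
    congr 1
    ext k
    simp only [Finset.mem_filter, Finset.mem_univ, true_and]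
    exact hv1 p q k
  have h2 : (Finset.univ.filter fun k : Fin m => hv p q k = 1).card
      + (Finset.univ.filter fun k : Fin m => hv p q k = 2).card = p + q := by
    rw [← Finset.card_union_of_disjoint]
    · refine Eq.trans ?_ (cardLt m (p + q) (by omega))
      congr 1
      ext k
      simp only [Finset.mem_union, Finset.mem_filter, Finset.mem_univ, true_and]
      exact hv12 p q k
    · rw [Finset.disjoint_left]
      intro a ha hb
      simp only [Finset.mem_filter, Finset.mem_univ, true_and] at ha hb
      omega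
  rw [Fintype.card_subtype, Fintype.card_subtype]
  by_cases t1 : t = 1
  · subst t1; rw [h1]
  by_cases t2 : t = 2
  · subst t2; rw [← hq]; omega
  by_cases t3 : t = 3
  · subst t3; rw [← hr]; omega
  · have e1 : (Finset.univ.filter fun a => e a = t) = ∅ := by
      apply Finset.filter_eq_empty_iff.2
      intro a _ ha
      rcases he a with h | h | h <;> rw [h] at ha <;> omega
    have e2 : (Finset.univ.filter fun k : Fin m => hv p q k = t) = ∅ := by
      apply Finset.filter_eq_empty_iff.2
      intro k _ hk
      rcases hv3 p q k with h | h | h <;> rw [h] at hk <;> omega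
    rw [e1, e2]
    rfl

theorem gadget {q : ℕ} (g : Fin n → Fin q)
    (hg : ∀ c, (Finset.univ.filter fun i => g i = c).card = 9 ∨
      (Finset.univ.filter fun i => g i = c).card = 10)
    (e : Fin n → ℤ) (he : ∀ i, e i = 1 ∨ e i = 2 ∨ e i = 3) :
    ∃ T : Tournament (Fin n), ∀ i, netT (sameG g) 2 T i = e i := by
  classical
  have key : ∀ c : Fin q, ∃ m : ℕ, ∃ T : Tournament (Fin m), ∃ φ : {i : Fin n // g i = c} ≃ Fin m,
      ∀ a, (∑ k, if φ a ≠ k then val 2 (T.res (φ a) k) else 0) = e a.1 := by
    intro c
    obtain ⟨p, q', r, hs, φ, hφ⟩ := place (fun a : {i : Fin n // g i = c} => e a.1)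
      (fun a => he a.1) (Fintype.card {i : Fin n // g i = c}) rfl
    have hm : Fintype.card {i : Fin n // g i = c} = 9 ∨ Fintype.card {i : Fin n // g i = c} = 10 := by
      rw [Fintype.card_subtype]
      exact hg c
    obtain ⟨T, hT⟩ := table _ hm p q' r hs
    refine ⟨_, T, φ, fun a => ?_⟩
    rw [hT (φ a)]
    exact hφ a
  choose m T φ hφ using key
  let R : Fin q → Fin n → Fin n → Res := fun c i j =>
    if h : g i = c ∧ g j = c then (T c).res (φ c ⟨i, h.1⟩) (φ c ⟨j, h.2⟩) else Res.draw
  have hR : ∀ c i j, i ≠ j → R c j i = (R c i j).swap := by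
    intro c i j hij
    by_cases h : g i = c ∧ g j = c
    · have h' : g j = c ∧ g i = c := ⟨h.2, h.1⟩
      simp only [R, dif_pos h, dif_pos h']
      apply (T c).res_swap
      intro heq
      exact hij (congrArg Subtype.val ((φ c).injective heq))
    · have h' : ¬ (g j = c ∧ g i = c) := fun h' => h ⟨h'.2, h'.1⟩
      simp only [R, dif_neg h, dif_neg h']
      rfl
  let T' : Tournament (Fin n) :=
    { res := fun i j => if g i = g j then R (g i) i j else Res.draw
      res_swap := by
        intro i j hij
        by_cases h : g i = g j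
        · have h' : g j = g i := h.symm
          simp only [if_pos h, if_pos h']
          rw [h', hR _ i j hij]
        · have h' : ¬ g j = g i := fun h' => h h'.symm
          simp only [if_neg h, if_neg h']
          rfl }
  refine ⟨T', fun i => ?_⟩
  rw [← hφ (g i) ⟨i, rfl⟩]
  unfold netT
  rw [← Equiv.sum_comp (φ (g i))]
  have h1 : ∀ j : Fin n, (if (sameG g).Adj i j then val 2 (T'.res i j) else 0)
      = if g j = g i then (if i ≠ j then val 2 (R (g i) i j) else 0) else 0 := by
    intro j
    by_cases h : g j = g i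
    · rw [if_pos h]
      by_cases h2 : i ≠ j
      · rw [if_pos h2, if_pos (show (sameG g).Adj i j from ⟨h2, h.symm⟩)]
        simp only [T', if_pos h.symm]
      · rw [if_neg h2, if_neg (show ¬ (sameG g).Adj i j from fun hh => h2 hh.1)]
    · rw [if_neg h, if_neg (show ¬ (sameG g).Adj i j from fun hh => h hh.2.symm)]
  rw [Finset.sum_congr rfl fun j _ => h1 j, ← Finset.sum_filter]
  rw [Finset.sum_subtype (p := fun j => g j = g i) _ (by simp)]
  apply Finset.sum_congr rfl
  intro a _
  by_cases h : i = a.1
  · have ha : (⟨i, rfl⟩ : {j : Fin n // g j = g i}) = a := Subtype.ext h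
    rw [if_neg (by simpa using h), if_neg (by simp [ha])]
  · have ha : (φ (g i)) ⟨i, rfl⟩ ≠ (φ (g i)) a := by
      intro hh
      exact h (congrArg Subtype.val ((φ (g i)).injective hh))
    rw [if_pos h, if_pos ha]
    congr 1
    have hc : g i = g i ∧ g a.1 = g i := ⟨rfl, a.2⟩
    show (if h : g i = g i ∧ g a.1 = g i then (T (g i)).res (φ (g i) ⟨i, h.1⟩)
      (φ (g i) ⟨a.1, h.2⟩) else Res.draw) = _
    rw [dif_pos hc]


end Pool.Agent.Work.MP_1a5986_lc.WO
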