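import Pool.Agent.Work.MP_1a5986_lc.WO.AlgDefs

/-!
MODULE ReadP (S-M).  MP_1a5986_lc, board modsoc.  Reading words.

By induction on `s` (general start state): `foldl readStep (acc, 0)` over `enc s` is `(s.reverse ++ acc, 0)`.
Conversely, by induction on `w` from the right (`List.reverseRecOn`): if `readW w = (acc, c)`, then
`w = enc acc.reverse ++ List.replicate c true`.
-/

set_option autoImplicit false

namespace Pool.Agent.Work.MP_1a5986_lc.WO

private theorem foldl_rep (k : ℕ) : ∀ (acc : List ℕ) (c : ℕ),
    (List.replicate k true).foldl readStep (acc, c) = (acc, c + k) := by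
  induction k with
  | zero => intro acc c; rfl
  | succ k ih =>
    intro acc c
    rw [List.replicate_succ, List.foldl_cons]
    have : readStep (acc, c) true = (acc, c + 1) := rfl
    rw [this, ih]
    congr 1
    omega

private theorem enc_cons (k : ℕ) (s : List ℕ) :
    enc (k :: s) = (List.replicate k true ++ [false]) ++ enc s := rfl

private theorem foldl_enc (s : List ℕ) : ∀ acc : List ℕ,
    (enc s).foldl readStep (acc, 0) = (s.reverse ++ acc, 0) := by
  induction s with
  | nil => intro acc; rfl
  | cons k s ih =>
    intro acc
    rw [enc_cons, List.foldl_append, List.foldl_append, foldl_rep]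
    have : List.foldl readStep (acc, 0 + k) [false] = (k :: acc, 0) := by
      simp [readStep]
    rw [this, ih]
    simp

private theorem enc_append (s s' : List ℕ) : enc (s ++ s') = enc s ++ enc s' := by
  simp [enc]

private theorem eq_of_read (w : List Bool) :
    w = enc (readW w).1.reverse ++ List.replicate (readW w).2 true := by
  induction w using List.reverseRecOn with
  | nil => rfl
  | append_singleton w c ih =>
    have h : readW (w ++ [c]) = readStep (readW w) c := by
      simp [readW, List.foldl_append]
    rw [h]
    cases c with
    | true =>
      have h1 : readStep (readW w) true = ((readW w).1, (readW w).2 + 1) := rfl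
      rw [h1]
      simp only
      rw [List.replicate_succ']
      rw [← List.append_assoc, ← ih]
    | false =>
      have h1 : readStep (readW w) false = ((readW w).2 :: (readW w).1, 0) := rfl
      rw [h1]
      simp only [List.reverse_cons, List.replicate_zero, List.append_nil]
      rw [enc_append, enc_cons]
      have h2 : enc [] = [] := rfl
      rw [h2, List.append_nil, ← List.append_assoc, ← ih]

theorem readW_enc (s : List ℕ) : readW (enc s) = (s.reverse, 0) := by
  unfold readW
  rw [foldl_enc]
  simp

theorem eq_enc_of_readW (w : List Bool) (h : (readW w).2 = 0) : w = enc (readW w).1.reverse := by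
  have := eq_of_read w
  rw [h] at this
  simpa using this

theorem enc_inj {s s' : List ℕ} (h : enc s = enc s') : s = s' := by
  have h1 := readW_enc s
  have h2 := readW_enc s'
  rw [h, h2] at h1
  have h3 := congrArg (fun x => x.1.reverse) h1
  simpa using h3.symm

end Pool.Agent.Work.MP_1a5986_lc.WO
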