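import Pool.Agent.Work.MP_1a5986_lc.WO.AlgM
import Pool.Agent.Work.MP_1a5986_lc.WO.AlgPT
import Pool.Agent.Work.MP_1a5986_lc.WO.ReadP

/-! The languages of the deep sequences are in P (assembled from the modules). -/

set_option autoImplicit false

namespace Pool.Agent.Work.MP_1a5986_lc.WO

open Pool.Agent.Work.PolyTime Pool.Agent.Work.MP_1a5986_lc

theorem enc_mem_iff (a κ : ℕ) (l : List ℕ) :
    enc l ∈ deepLang a κ ↔ Deep a κ (fun i : Fin l.length => ((l.get i : ℕ) : ℝ)) := by
  constructor
  · rintro ⟨s, h, hs⟩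
    obtain rfl := enc_inj h
    exact hs
  · intro h
    exact ⟨l, rfl, h⟩

theorem deepLang_inP (a κ : ℕ) (ha : 3 ≤ a) : InP (deepLang a κ) := by
  obtain ⟨b, rfl⟩ : ∃ b, a = b + 1 := ⟨a - 1, by omega⟩
  refine ⟨_, wordTest_poly b κ, fun w => ?_⟩
  constructor
  · rintro ⟨s, rfl, hs⟩
    have h1 : wordTest b κ (enc s) = true := by
      simp only [wordTest, readW_enc, decide_true, List.reverse_reverse, Bool.true_and]
      exact (test_iff b κ (by omega) s).2 hs
    simp [h1]
  · intro h
    by_cases h1 : wordTest b κ w = true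
    · simp only [wordTest, Bool.and_eq_true, decide_eq_true_eq] at h1
      exact ⟨_, eq_enc_of_readW w h1.1, (test_iff b κ (by omega) _).1 h1.2⟩
    · simp [h1] at h

end Pool.Agent.Work.MP_1a5986_lc.WO
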