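import Pool.Agent.Work.MP_1a5986_lc.WO.Defs

/-!
MODULE Opt (S-M).  MP_1a5986_lc, board modsoc.  Rounding one match.

`u`, `v` are the probabilities that `i` wins against `j` and conversely; exactly one of
`u`, `v`, `1 - u - v` is zero. The two results `r true`, `r false` (seen from `i`):
* `v = 0`, `0 < u < 1`: `r true = draw` (errors `-b u`, `u`), `r false = win` (errors `b (1-u)`, `-(1-u)`).
* `u = 0`, `0 < v < 1`: `r true = loss` (errors `-(1-v)`, `b (1-v)`), `r false = draw` (errors `v`, `-b v`).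
* `u + v = 1`, `0 < u < 1`: `r true = loss` if `(b+1) u < b` (errors `-(b+1) u`, `(b+1) u`), otherwise `draw`
  (errors `1 - (b+1) u ∈ (-b, 1-b]`, `(b+1) u - b ∈ [0,1)`); `r false = win` if `1 < (b+1) u` (errors
  `(b+1)(1-u)`, `-(b+1)(1-u)`), otherwise `draw` (errors `1 - (b+1) u ∈ [0,1)`, `(b+1) u - b ∈ (-b, 1-b]`).
-/

set_option autoImplicit false

namespace Pool.Agent.Work.MP_1a5986_lc.WO

open Pool.Agent.Work.MP_1a5986_lc

theorem opt (b : ℕ) (hb : 1 ≤ b) (u v : ℝ) (hu : 0 ≤ u) (hv : 0 ≤ v) (huv : u + v ≤ 1)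
    (h : (v = 0 ∧ 0 < u ∧ u < 1) ∨ (u = 0 ∧ 0 < v ∧ v < 1) ∨ (u + v = 1 ∧ 0 < u ∧ u < 1)) :
    ∃ r : Bool → Res,
      (-(b : ℝ) < (val b (r true) : ℝ) - (b * u - v) ∧ (val b (r true) : ℝ) - (b * u - v) ≤ 0) ∧
      (0 ≤ (val b (r true).swap : ℝ) - (b * v - u) ∧
        (val b (r true).swap : ℝ) - (b * v - u) < b) ∧
      (0 ≤ (val b (r false) : ℝ) - (b * u - v) ∧ (val b (r false) : ℝ) - (b * u - v) < b) ∧
      (-(b : ℝ) < (val b (r false).swap : ℝ) - (b * v - u) ∧
        (val b (r false).swap : ℝ) - (b * v - u) ≤ 0) := by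
  have hb' : (1 : ℝ) ≤ b := by exact_mod_cast hb
  rcases h with ⟨rfl, h0, h1⟩ | ⟨rfl, h0, h1⟩ | ⟨h2, h0, h1⟩
  · refine ⟨fun c => if c then .draw else .win, ?_⟩
    simp only [val, Res.swap, if_true, Bool.false_eq_true, if_false]
    push_cast
    refine ⟨⟨?_, ?_⟩, ⟨?_, ?_⟩, ⟨?_, ?_⟩, ?_, ?_⟩ <;> nlinarith
  · refine ⟨fun c => if c then .loss else .draw, ?_⟩
    simp only [val, Res.swap, if_true, Bool.false_eq_true, if_false]
    push_cast
    refine ⟨⟨?_, ?_⟩, ⟨?_, ?_⟩, ⟨?_, ?_⟩, ?_, ?_⟩ <;> nlinarith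
  · obtain rfl : v = 1 - u := by linarith
    refine ⟨fun c => if c then (if ((b : ℝ) + 1) * u < b then .loss else .draw)
      else (if 1 < ((b : ℝ) + 1) * u then .win else .draw), ?_⟩
    simp only [if_true, Bool.false_eq_true, if_false]
    refine ⟨?_, ?_, ?_, ?_⟩
    · split_ifs with hh
      · simp only [val]
        push_cast
        constructor <;> nlinarith
      · simp only [val]
        push_cast
        constructor <;> nlinarith
    · split_ifs with hh
      · simp only [val, Res.swap]
        push_cast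
        constructor <;> nlinarith
      · simp only [val, Res.swap]
        push_cast
        constructor <;> nlinarith
    · split_ifs with hh
      · simp only [val]
        push_cast
        constructor <;> nlinarith
      · simp only [val]
        push_cast
        constructor <;> nlinarith
    · split_ifs with hh
      · simp only [val, Res.swap]
        push_cast
        constructor <;> nlinarith
      · simp only [val, Res.swap]
        push_cast
        constructor <;> nlinarith

end Pool.Agent.Work.MP_1a5986_lc.WO
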