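import Pool.Agent.Work.MP_1a5986_lc.WO.RDefs

/-!
MODULE Own (M).  MP_1a5986_lc, board modsoc.  Owners, by the theorem of Hall.

Items: pairs `(e, c)` with `e = (i, j)`, `i < j`, `Adj i j` and `c < cnt e - 1` (a finite type, e.g. a
subtype of `(Fin n × Fin n) × Fin 2`, as `cnt ≤ 3`). For a finite set `A` of items let `F` be the set of
its first components: `|A| ≤ ∑_{e ∈ F} (cnt e - 1) ≤ |⋃_{e ∈ F} {e.1, e.2}|`. By Hall
(`Finset.all_card_le_biUnion_card_iff_exists_injective`) there is an injective `f` with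
`f (e, c) ∈ {e.1, e.2}`. For `i < j` with `cnt = 2` let `o i j = o j i = f ((i, j), 0)`; otherwise
`o i j = i` (any). If `cnt e = 3`, then `f (e, 0) ≠ f (e, 1)` are the two endpoints of `e`. So for every `v`
and every `j` as in the last statement there is an item of the pair `{v, j}` with value `v` under `f`;
`f` is injective, so `j` is unique. (`cnt p i j = cnt p j i`, `add_comm`.)
-/

set_option autoImplicit false

namespace Pool.Agent.Work.MP_1a5986_lc.WO

variable {n : ℕ}

private lemma cnt_comm (p : Fin n → Fin n → ℝ) (i j : Fin n) : cnt p i j = cnt p j i := by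
  classical
  unfold cnt
  rw [add_comm (p i j) (p j i), add_comm (if 0 < p i j then 1 else 0) (if 0 < p j i then 1 else 0)]

/-- The type of items. -/
private abbrev Item (G : SimpleGraph (Fin n)) (p : Fin n → Fin n → ℝ) : Type :=
  {x : (Fin n × Fin n) × Fin 2 // x.1.1 < x.1.2 ∧ G.Adj x.1.1 x.1.2 ∧
    (x.2 : ℕ) < cnt p x.1.1 x.1.2 - 1}

private lemma hall (G : SimpleGraph (Fin n)) (p : Fin n → Fin n → ℝ)
    (h : ∀ F : Finset (Fin n × Fin n), (∀ e ∈ F, e.1 < e.2 ∧ G.Adj e.1 e.2) →
        ∑ e ∈ F, (cnt p e.1 e.2 - 1)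
          ≤ (F.biUnion fun e => ({e.1, e.2} : Finset (Fin n))).card) :
    ∃ f : Item G p → Fin n, Function.Injective f ∧ ∀ x : Item G p, f x = x.1.1.1 ∨ f x = x.1.1.2 := by
  classical
  have key := (Finset.all_card_le_biUnion_card_iff_exists_injective
    (fun x : Item G p => ({x.1.1.1, x.1.1.2} : Finset (Fin n)))).1 ?_
  · obtain ⟨f, hf, hm⟩ := key
    refine ⟨f, hf, fun x => ?_⟩
    have := hm x
    simpa using this
  · intro s
    have hF := h (s.image fun x => x.1.1) (by
      intro e he
      obtain ⟨x, _, rfl⟩ := Finset.mem_image.1 he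
      exact ⟨x.2.1, x.2.2.1⟩)
    rw [Finset.image_biUnion] at hF
    refine le_trans ?_ hF
    rw [Finset.card_eq_sum_card_fiberwise (f := fun x : Item G p => x.1.1)
      (t := s.image fun x => x.1.1)
      (fun x hx => Finset.mem_coe.2 (Finset.mem_image_of_mem _ (Finset.mem_coe.1 hx)))]
    refine Finset.sum_le_sum fun e he => ?_
    calc (Finset.filter (fun x : Item G p => x.1.1 = e) s).card
        ≤ (Finset.range (cnt p e.1 e.2 - 1)).card := by
          refine Finset.card_le_card_of_injOn (fun x => (x.1.2 : ℕ)) ?_ ?_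
          · intro x hx
            have hx' := (Finset.mem_filter.1 (Finset.mem_coe.1 hx)).2
            subst hx'
            exact Finset.mem_coe.2 (Finset.mem_range.2 x.2.2.2)
          · intro x hx y hy hxy
            have hx' := (Finset.mem_filter.1 (Finset.mem_coe.1 hx)).2
            have hy' := (Finset.mem_filter.1 (Finset.mem_coe.1 hy)).2
            apply Subtype.ext
            apply Prod.ext
            · rw [hx', hy']
            · exact Fin.ext hxy
      _ = cnt p e.1 e.2 - 1 := Finset.card_range _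

theorem own (G : SimpleGraph (Fin n)) (p : Fin n → Fin n → ℝ)
    (h : ∀ F : Finset (Fin n × Fin n), (∀ e ∈ F, e.1 < e.2 ∧ G.Adj e.1 e.2) →
        ∑ e ∈ F, (cnt p e.1 e.2 - 1)
          ≤ (F.biUnion fun e => ({e.1, e.2} : Finset (Fin n))).card) :
    ∃ o : Fin n → Fin n → Fin n, (∀ i j, o i j = o j i) ∧
      (∀ i j, G.Adj i j → cnt p i j = 2 → o i j = i ∨ o i j = j) ∧
      ∀ v j j', G.Adj v j → G.Adj v j' →
        (cnt p v j = 3 ∨ (cnt p v j = 2 ∧ o v j = v)) →
        (cnt p v j' = 3 ∨ (cnt p v j' = 2 ∧ o v j' = v)) → j = j' := by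
  classical
  obtain ⟨f, hf, hm⟩ := hall G p h
  let g : Fin n → Fin n → Fin n := fun a b =>
    if hh : a < b ∧ G.Adj a b ∧ ((0 : Fin 2) : ℕ) < cnt p a b - 1 then f ⟨((a, b), 0), hh⟩ else a
  let o : Fin n → Fin n → Fin n := fun i j => g (min i j) (max i j)
  -- facts about an adjacent pair
  have hlt : ∀ i j, G.Adj i j → min i j < max i j := fun i j hij => by
    rcases lt_or_gt_of_ne hij.ne with h1 | h1
    · rwa [min_eq_left h1.le, max_eq_right h1.le]
    · rwa [min_eq_right h1.le, max_eq_left h1.le]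
  have hadj : ∀ i j, G.Adj i j → G.Adj (min i j) (max i j) := fun i j hij => by
    rcases lt_or_gt_of_ne hij.ne with h1 | h1
    · rwa [min_eq_left h1.le, max_eq_right h1.le]
    · rw [min_eq_right h1.le, max_eq_left h1.le]; exact hij.symm
  have hcnt : ∀ i j, cnt p (min i j) (max i j) = cnt p i j := fun i j => by
    rcases le_total i j with h1 | h1
    · rw [min_eq_left h1, max_eq_right h1]
    · rw [min_eq_right h1, max_eq_left h1]; exact cnt_comm p j i
  have hmm : ∀ i j w : Fin n, (w = min i j ∨ w = max i j) → (w = i ∨ w = j) := fun i j w hw => by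
    rcases le_total i j with h1 | h1
    · rwa [min_eq_left h1, max_eq_right h1] at hw
    · rw [min_eq_right h1, max_eq_left h1] at hw; exact hw.symm
  have hmm' : ∀ i j w : Fin n, (w = i ∨ w = j) → (w = min i j ∨ w = max i j) := fun i j w hw => by
    rcases le_total i j with h1 | h1
    · rwa [min_eq_left h1, max_eq_right h1]
    · rw [min_eq_right h1, max_eq_left h1]; exact hw.symm
  have key : ∀ v j, G.Adj v j → (cnt p v j = 3 ∨ (cnt p v j = 2 ∧ o v j = v)) →
      ∃ x : Item G p, x.1.1 = (min v j, max v j) ∧ f x = v := by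
    intro v j hvj hc
    rcases hc with hc | ⟨hc, ho⟩
    · have h0 : ((0 : Fin 2) : ℕ) < cnt p (min v j) (max v j) - 1 := by rw [hcnt, hc]; decide
      have h1 : ((1 : Fin 2) : ℕ) < cnt p (min v j) (max v j) - 1 := by rw [hcnt, hc]; decide
      let x0 : Item G p := ⟨((min v j, max v j), 0), hlt v j hvj, hadj v j hvj, h0⟩
      let x1 : Item G p := ⟨((min v j, max v j), 1), hlt v j hvj, hadj v j hvj, h1⟩
      have hne : f x0 ≠ f x1 := by
        intro he
        have h2 := congrArg (fun x : Item G p => x.1.2) (hf he)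
        have h3 : (0 : Fin 2) = 1 := h2
        exact absurd h3 (by decide)
      have hv : v = min v j ∨ v = max v j := hmm' v j v (Or.inl rfl)
      have hx0 : f x0 = min v j ∨ f x0 = max v j := hm x0
      have hx1 : f x1 = min v j ∨ f x1 = max v j := hm x1
      by_cases hv0 : f x0 = v
      · exact ⟨x0, rfl, hv0⟩
      · refine ⟨x1, rfl, ?_⟩
        rcases hv with hv | hv <;> rcases hx0 with hx0 | hx0 <;> rcases hx1 with hx1 | hx1
        · exact absurd (hx0.trans hv.symm) hv0
        · exact absurd (hx0.trans hv.symm) hv0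
        · exact hx1.trans hv.symm
        · exact absurd (hx0.trans hx1.symm) hne
        · exact absurd (hx0.trans hx1.symm) hne
        · exact hx1.trans hv.symm
        · exact absurd (hx0.trans hv.symm) hv0
        · exact absurd (hx0.trans hv.symm) hv0
    · have h0 : ((0 : Fin 2) : ℕ) < cnt p (min v j) (max v j) - 1 := by rw [hcnt, hc]; decide
      refine ⟨⟨((min v j, max v j), 0), hlt v j hvj, hadj v j hvj, h0⟩, rfl, ?_⟩
      have h1 : o v j = f ⟨((min v j, max v j), 0), hlt v j hvj, hadj v j hvj, h0⟩ :=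
        dif_pos ⟨hlt v j hvj, hadj v j hvj, h0⟩
      rw [← h1]
      exact ho
  refine ⟨o, ?_, ?_, ?_⟩
  · intro i j
    show g (min i j) (max i j) = g (min j i) (max j i)
    rw [min_comm, max_comm]
  · intro i j hij hc
    have h0 : ((0 : Fin 2) : ℕ) < cnt p (min i j) (max i j) - 1 := by rw [hcnt, hc]; decide
    have h1 : o i j = f ⟨((min i j, max i j), 0), hlt i j hij, hadj i j hij, h0⟩ :=
      dif_pos ⟨hlt i j hij, hadj i j hij, h0⟩
    rw [h1]
    exact hmm i j _ (hm ⟨((min i j, max i j), 0), hlt i j hij, hadj i j hij, h0⟩)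
  · intro v j j' hj hj' hc hc'
    obtain ⟨x, hx, hxv⟩ := key v j hj hc
    obtain ⟨y, hy, hyv⟩ := key v j' hj' hc'
    have hxy : x = y := hf (hxv.trans hyv.symm)
    rw [hxy, hy] at hx
    have h1 : min v j' = min v j := congrArg Prod.fst hx
    have h2 : max v j' = max v j := congrArg Prod.snd hx
    have hjv : j ≠ v := fun e => hj.ne e.symm
    rcases hmm' v j j (Or.inr rfl) with h3 | h3
    · rcases hmm v j' j (Or.inl (h3.trans h1.symm)) with h4 | h4
      · exact absurd h4 hjv
      · exact h4
    · rcases hmm v j' j (Or.inr (h3.trans h2.symm)) with h4 | h4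
      · exact absurd h4 hjv
      · exact h4

end Pool.Agent.Work.MP_1a5986_lc.WO
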