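import Pool.Agent.Work.MP_1a5986_lc.WO.Defs

/-!
MODULE Peel (M).  MP_1a5986_lc, board modsoc.  The peeling identity.

`pre τ x` is the sum of the first `x` values, `peel b x' x χ'` is `b * χ'` on `[0, x')`, `1` on `[x', x)`
and `0` on `[x, n)`; here `χ' = 0` on `[x', n)` and `χ' ≥ 1` on `[0, x')`.

Proof of `peel_eq`. The linear part is `b ∑ χ' τ + (pre τ x - pre τ x')`. The terms
`max 0 (χ j - b χ i)` of `low b χ`, with `A = [0,x')`, `B = [x',x)`, `Z = [x,n)`:
- `j ∈ A, i ∈ A`: `b` times the term of `χ'`;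
- `j ∈ A, i ∈ B`: `b χ' j - b ≥ 0`; the term of `χ'` is `χ' j`, so it is `b` times that term minus `b`
  (there are `x' (x - x')` such pairs);
- `j ∈ A, i ∈ Z`: `b χ' j`, that is `b` times the term of `χ'`;
- `j ∈ B, i ∈ A ∪ B`: `0` (`1 ≤ b`), and the term of `χ'` is `0`;
- `j ∈ B, i ∈ Z`: `1`, there are `(x - x') (n - x)` such pairs; the term of `χ'` is `0`;
- `j ∈ Z`: `0`, and `0` for `χ'`.
-/

set_option autoImplicit false

namespace Pool.Agent.Work.MP_1a5986_lc.WO

variable {n : ℕ}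

/-- The sum of the first `x` values. -/
noncomputable def pre (τ : Fin n → ℝ) (x : ℕ) : ℝ := ∑ i : Fin n, if (i : ℕ) < x then τ i else 0

/-- One more layer. -/
def peel (b x' x : ℕ) (χ' : Fin n → ℕ) (i : Fin n) : ℕ :=
  if (i : ℕ) < x' then b * χ' i else if (i : ℕ) < x then 1 else 0

private theorem peel_cnt (x : ℕ) (hx : x ≤ n) :
    ∑ i : Fin n, (if (i : ℕ) < x then (1 : ℝ) else 0) = x := by
  rw [Finset.sum_boole]
  congr 1
  have h : (Finset.univ.filter fun i : Fin n => (i : ℕ) < x) =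
      (Finset.univ : Finset (Fin x)).map (Fin.castLEEmb hx) := by
    ext i
    simp only [Finset.mem_filter, Finset.mem_univ, true_and, Finset.mem_map]
    constructor
    · intro h
      exact ⟨⟨i, h⟩, by ext; rfl⟩
    · rintro ⟨a, rfl⟩
      exact a.2
  rw [h, Finset.card_map, Finset.card_univ, Fintype.card_fin]

private theorem peel_term (b : ℕ) (hb : 1 ≤ b) (x' x : ℕ) (hxx : x' < x)
    (χ' : Fin n → ℕ) (h0 : ∀ i : Fin n, x' ≤ (i : ℕ) → χ' i = 0)
    (h1 : ∀ i : Fin n, (i : ℕ) < x' → 1 ≤ χ' i) (i j : Fin n) :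
    max 0 (((peel b x' x χ' j : ℕ) : ℝ) - b * ((peel b x' x χ' i : ℕ) : ℝ)) =
      b * max 0 ((χ' j : ℝ) - b * (χ' i : ℝ)) -
        b * (((if (i : ℕ) < x then (1 : ℝ) else 0) - (if (i : ℕ) < x' then (1 : ℝ) else 0)) *
          (if (j : ℕ) < x' then (1 : ℝ) else 0)) +
        (1 - (if (i : ℕ) < x then (1 : ℝ) else 0)) *
          ((if (j : ℕ) < x then (1 : ℝ) else 0) - (if (j : ℕ) < x' then (1 : ℝ) else 0)) := by
  have hbr : (1 : ℝ) ≤ b := by exact_mod_cast hb
  have hb0 : (0 : ℝ) ≤ b := by linarith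
  unfold peel
  by_cases hj : (j : ℕ) < x'
  · have hj2 : (j : ℕ) < x := lt_trans hj hxx
    have hχj : (1 : ℝ) ≤ (χ' j : ℝ) := by exact_mod_cast h1 j hj
    by_cases hi : (i : ℕ) < x'
    · have hi2 : (i : ℕ) < x := lt_trans hi hxx
      simp only [if_pos hj, if_pos hi, if_pos hj2, if_pos hi2]
      push_cast
      have h2 : (b : ℝ) * (χ' j : ℝ) - b * (b * (χ' i : ℝ)) =
          b * ((χ' j : ℝ) - b * (χ' i : ℝ)) := by ring
      have h5 : max 0 ((b : ℝ) * ((χ' j : ℝ) - b * (χ' i : ℝ))) =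
          b * max 0 ((χ' j : ℝ) - b * (χ' i : ℝ)) := by
        rw [mul_max_of_nonneg _ _ hb0, mul_zero]
      rw [h2, h5]
      ring
    · have hi0 : (χ' i : ℝ) = 0 := by
        rw [h0 i (not_lt.1 hi)]
        simp
      by_cases hi2 : (i : ℕ) < x
      · simp only [if_pos hj, if_neg hi, if_pos hj2, if_pos hi2, hi0]
        push_cast
        rw [max_eq_right (by nlinarith), max_eq_right (by nlinarith)]
        ring
      · simp only [if_pos hj, if_neg hi, if_pos hj2, if_neg hi2, hi0]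
        push_cast
        rw [max_eq_right (by nlinarith), max_eq_right (by nlinarith)]
        ring
  · have hj0 : (χ' j : ℝ) = 0 := by
      rw [h0 j (not_lt.1 hj)]
      simp
    have hR : max 0 ((χ' j : ℝ) - b * (χ' i : ℝ)) = 0 := by
      apply max_eq_left
      rw [hj0]
      have : (0 : ℝ) ≤ b * (χ' i : ℝ) := by positivity
      linarith
    rw [hR]
    by_cases hj2 : (j : ℕ) < x
    · by_cases hi : (i : ℕ) < x'
      · have hi2 : (i : ℕ) < x := lt_trans hi hxx
        have hχi : (1 : ℝ) ≤ (χ' i : ℝ) := by exact_mod_cast h1 i hi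
        simp only [if_neg hj, if_pos hi, if_pos hj2, if_pos hi2]
        push_cast
        have h3 : (1 : ℝ) ≤ b * (χ' i : ℝ) := by nlinarith
        rw [max_eq_left (by nlinarith)]
        ring
      · by_cases hi2 : (i : ℕ) < x
        · simp only [if_neg hj, if_neg hi, if_pos hj2, if_pos hi2]
          push_cast
          rw [max_eq_left (by linarith)]
          ring
        · simp only [if_neg hj, if_neg hi, if_pos hj2, if_neg hi2]
          push_cast
          rw [max_eq_right (by linarith)]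
          ring
    · simp only [if_neg hj, if_neg hj2]
      have h4 : (0 : ℝ) ≤ b * ((if (i : ℕ) < x' then b * χ' i else if (i : ℕ) < x then 1 else 0 :
          ℕ) : ℝ) := by positivity
      rw [max_eq_left (by push_cast at h4 ⊢; linarith)]
      ring

theorem peel_eq (b : ℕ) (hb : 1 ≤ b) (τ : Fin n → ℝ) (x' x : ℕ) (hxx : x' < x) (hx : x ≤ n)
    (χ' : Fin n → ℕ) (h0 : ∀ i : Fin n, x' ≤ (i : ℕ) → χ' i = 0)
    (h1 : ∀ i : Fin n, (i : ℕ) < x' → 1 ≤ χ' i) :
    ∑ i, ((peel b x' x χ' i : ℕ) : ℝ) * τ i + low b (fun i => ((peel b x' x χ' i : ℕ) : ℝ))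
      = pre τ x - pre τ x' + ((x : ℝ) - x') * ((n : ℝ) - x - b * x')
        + b * (∑ i, (χ' i : ℝ) * τ i + low b (fun i => (χ' i : ℝ))) := by
  have hlin : ∑ i, ((peel b x' x χ' i : ℕ) : ℝ) * τ i =
      b * (∑ i, (χ' i : ℝ) * τ i) + (pre τ x - pre τ x') := by
    unfold pre
    rw [Finset.mul_sum, ← Finset.sum_sub_distrib, ← Finset.sum_add_distrib]
    apply Finset.sum_congr rfl
    intro i _
    unfold peel
    by_cases hi : (i : ℕ) < x'
    · have hi2 : (i : ℕ) < x := lt_trans hi hxx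
      simp only [if_pos hi, if_pos hi2]
      push_cast
      ring
    · have hi0 : (χ' i : ℝ) = 0 := by
        rw [h0 i (not_lt.1 hi)]
        simp
      by_cases hi2 : (i : ℕ) < x
      · simp only [if_neg hi, if_pos hi2, hi0]
        push_cast
        ring
      · simp only [if_neg hi, if_neg hi2, hi0]
        push_cast
        ring
  have hlow : low b (fun i => ((peel b x' x χ' i : ℕ) : ℝ)) =
      b * low b (fun i => (χ' i : ℝ)) - b * (((x : ℝ) - x') * x') +
        ((n : ℝ) - x) * ((x : ℝ) - x') := by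
    have hx' : x' ≤ n := le_trans hxx.le hx
    have e1 : ∑ i : Fin n, ∑ j : Fin n,
        b * (((if (i : ℕ) < x then (1 : ℝ) else 0) - (if (i : ℕ) < x' then (1 : ℝ) else 0)) *
          (if (j : ℕ) < x' then (1 : ℝ) else 0)) = b * (((x : ℝ) - x') * x') := by
      simp only [← Finset.mul_sum, peel_cnt x' hx']
      rw [← Finset.sum_mul, Finset.sum_sub_distrib, peel_cnt x' hx', peel_cnt x hx]
    have e2 : ∑ i : Fin n, ∑ j : Fin n, (1 - (if (i : ℕ) < x then (1 : ℝ) else 0)) *
          ((if (j : ℕ) < x then (1 : ℝ) else 0) - (if (j : ℕ) < x' then (1 : ℝ) else 0)) =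
        ((n : ℝ) - x) * ((x : ℝ) - x') := by
      simp only [← Finset.mul_sum, Finset.sum_sub_distrib, peel_cnt x' hx', peel_cnt x hx]
      rw [← Finset.sum_mul, Finset.sum_sub_distrib, peel_cnt x hx]
      simp
    have e3 : b * low b (fun i => (χ' i : ℝ)) = ∑ i : Fin n, ∑ j : Fin n,
        (b : ℝ) * max 0 ((χ' j : ℝ) - b * (χ' i : ℝ)) := by
      unfold low
      rw [Finset.mul_sum]
      apply Finset.sum_congr rfl
      intro i _
      rw [Finset.mul_sum]
    rw [← e1, ← e2, e3]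
    unfold low
    rw [← Finset.sum_sub_distrib, ← Finset.sum_add_distrib]
    apply Finset.sum_congr rfl
    intro i _
    rw [← Finset.sum_sub_distrib, ← Finset.sum_add_distrib]
    apply Finset.sum_congr rfl
    intro j _
    exact peel_term b hb x' x hxx χ' h0 h1 i j
  rw [hlin, hlow]
  ring

end Pool.Agent.Work.MP_1a5986_lc.WO
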