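import Pool.Agent.Work.MP_1a5986_lc.WO.Defs

/-!
MODULE Psi (M).  MP_1a5986_lc, board modsoc.  A real number as an average of powers of `b`.

For `x > 0` let `k = Int.log b x` (so `b ^ k ≤ x < b ^ (k+1)`: `Int.zpow_log_le_self`,
`Int.lt_zpow_succ_log_self`) and let `x / b ^ k ∈ [1, b)` be its mantissa.
* `psi_mono`: if the logarithms of `x ≤ x'` are equal, compare the mantissas; otherwise
  `psi b l x ≤ b ^ k ≤ b ^ (k' - 1) ≤ psi b l x'`. (`x = 0` is trivial.)
* `psi_mul`: `Int.log b (b * x) = Int.log b x + 1`, the mantissa is the same.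
* `psi_int`: the function of `l` is a step function; with `m` the mantissa the integral over `[1, b]` is
  `b ^ k (m - 1) + b ^ (k-1) (b - m) = b ^ k m (1 - 1 / b) = (b - 1) / b * x`.
-/

set_option autoImplicit false

namespace Pool.Agent.Work.MP_1a5986_lc.WO

open MeasureTheory

/-- The power of `b` rounded down from `x / l`. -/
noncomputable def psi (b : ℕ) (l x : ℝ) : ℝ :=
  if x = 0 then 0
  else if l ≤ x / (b : ℝ) ^ Int.log b x then (b : ℝ) ^ Int.log b x
  else (b : ℝ) ^ (Int.log b x - 1)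

theorem psi_val (b : ℕ) (l x : ℝ) : psi b l x = 0 ∨ ∃ k : ℤ, psi b l x = (b : ℝ) ^ k := by
  unfold psi
  split_ifs
  · exact Or.inl rfl
  · exact Or.inr ⟨_, rfl⟩
  · exact Or.inr ⟨_, rfl⟩

private theorem ps_one (b : ℕ) (hb : 2 ≤ b) : (1 : ℝ) < b := by exact_mod_cast hb

private theorem ps_le (b : ℕ) (hb : 2 ≤ b) (l x : ℝ) (hx : 0 < x) :
    psi b l x ≤ (b : ℝ) ^ Int.log b x := by
  have h1 := ps_one b hb
  unfold psi
  rw [if_neg hx.ne']
  split_ifs
  · exact le_refl _
  · exact zpow_le_zpow_right₀ h1.le (by omega)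

private theorem ps_ge (b : ℕ) (hb : 2 ≤ b) (l x : ℝ) (hx : 0 < x) :
    (b : ℝ) ^ (Int.log b x - 1) ≤ psi b l x := by
  have h1 := ps_one b hb
  unfold psi
  rw [if_neg hx.ne']
  split_ifs
  · exact zpow_le_zpow_right₀ h1.le (by omega)
  · exact le_refl _

private theorem ps_nonneg (b : ℕ) (l x : ℝ) : 0 ≤ psi b l x := by
  unfold psi
  split_ifs
  · exact le_refl _
  · positivity
  · positivity

theorem psi_mono (b : ℕ) (hb : 2 ≤ b) (l x x' : ℝ) (hx : 0 ≤ x) (hxx : x ≤ x') :
    psi b l x ≤ psi b l x' := by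
  have h1 := ps_one b hb
  rcases hx.eq_or_lt with h0 | h0
  · have e : psi b l x = 0 := by
      unfold psi
      rw [if_pos h0.symm]
    rw [e]
    exact ps_nonneg b l x'
  · have h0' : 0 < x' := h0.trans_le hxx
    have hk : Int.log b x ≤ Int.log b x' := Int.log_mono_right h0 hxx
    rcases hk.eq_or_lt with hk | hk
    · by_cases hl : l ≤ x / (b : ℝ) ^ Int.log b x
      · have hl' : l ≤ x' / (b : ℝ) ^ Int.log b x' := by
          rw [← hk]
          refine hl.trans ?_
          gcongr
        have e : psi b l x' = (b : ℝ) ^ Int.log b x' := by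
          unfold psi
          rw [if_neg h0'.ne', if_pos hl']
        rw [e, ← hk]
        exact ps_le b hb l x h0
      · have e : psi b l x = (b : ℝ) ^ (Int.log b x - 1) := by
          unfold psi
          rw [if_neg h0.ne', if_neg hl]
        rw [e, hk]
        exact ps_ge b hb l x' h0'
    · calc psi b l x ≤ (b : ℝ) ^ Int.log b x := ps_le b hb l x h0
        _ ≤ (b : ℝ) ^ (Int.log b x' - 1) := zpow_le_zpow_right₀ h1.le (by omega)
        _ ≤ psi b l x' := ps_ge b hb l x' h0'

theorem psi_mul (b : ℕ) (hb : 2 ≤ b) (l x : ℝ) (hx : 0 ≤ x) :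
    psi b l (b * x) = b * psi b l x := by
  have h1 := ps_one b hb
  have hb0 : (b : ℝ) ≠ 0 := by positivity
  rcases hx.eq_or_lt with h0 | h0
  · rw [← h0, mul_zero]
    unfold psi
    rw [if_pos rfl, mul_zero]
  · have hb1 : 1 < b := by omega
    have hbx : 0 < (b : ℝ) * x := by positivity
    have hlog : Int.log b ((b : ℝ) * x) = Int.log b x + 1 := by
      apply le_antisymm
      · have h2 : (b : ℝ) * x < (b : ℝ) ^ (Int.log b x + 1 + 1) := by
          rw [zpow_add_one₀ hb0, mul_comm]
          exact mul_lt_mul_of_pos_right (Int.lt_zpow_succ_log_self hb1 x) (by positivity)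
        have h3 := (Int.lt_zpow_iff_log_lt hb1 hbx).1 h2
        omega
      · have h2 : (b : ℝ) ^ (Int.log b x + 1) ≤ (b : ℝ) * x := by
          rw [zpow_add_one₀ hb0, mul_comm]
          exact mul_le_mul_of_nonneg_left (Int.zpow_log_le_self hb1 h0) (by positivity)
        exact (Int.zpow_le_iff_le_log hb1 hbx).1 h2
    have hm : (b : ℝ) * x / (b : ℝ) ^ (Int.log b x + 1) = x / (b : ℝ) ^ Int.log b x := by
      rw [zpow_add_one₀ hb0, mul_comm ((b : ℝ) ^ Int.log b x) (b : ℝ),
        mul_div_mul_left _ _ hb0]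
    unfold psi
    rw [if_neg hbx.ne', if_neg h0.ne', hlog, hm]
    split_ifs
    · rw [zpow_add_one₀ hb0, mul_comm]
    · rw [← zpow_one_add₀ hb0]
      congr 1
      ring

private theorem ps_form (b : ℕ) (l x : ℝ) (hx : 0 < x) :
    psi b l x = if l ≤ x / (b : ℝ) ^ Int.log b x then (b : ℝ) ^ Int.log b x
      else (b : ℝ) ^ (Int.log b x - 1) := by
  unfold psi
  rw [if_neg hx.ne']

private theorem ps_anti (b : ℕ) (hb : 2 ≤ b) (x : ℝ) (hx : 0 < x) :
    Antitone (fun l => psi b l x) := by
  intro l l' hl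
  simp only
  have h1 := ps_one b hb
  rw [ps_form b l x hx, ps_form b l' x hx]
  by_cases h : l' ≤ x / (b : ℝ) ^ Int.log b x
  · rw [if_pos h, if_pos (hl.trans h)]
  · rw [if_neg h]
    split_ifs
    · exact zpow_le_zpow_right₀ h1.le (by omega)
    · exact le_refl _

private theorem ps_zero (b : ℕ) (l : ℝ) : psi b l 0 = 0 := by
  unfold psi
  rw [if_pos rfl]

theorem psi_integrable (b : ℕ) (hb : 2 ≤ b) (x : ℝ) (hx : 0 ≤ x) :
    IntervalIntegrable (fun l => psi b l x) volume 1 b := by
  rcases hx.eq_or_lt with h0 | h0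
  · rw [← h0]
    simp only [ps_zero]
    exact intervalIntegrable_const
  · exact (ps_anti b hb x h0).intervalIntegrable

theorem psi_int (b : ℕ) (hb : 2 ≤ b) (x : ℝ) (hx : 0 ≤ x) :
    ∫ l in (1 : ℝ)..b, psi b l x = ((b : ℝ) - 1) / b * x := by
  have h1 := ps_one b hb
  have hb0 : (b : ℝ) ≠ 0 := by positivity
  rcases hx.eq_or_lt with h0 | h0
  · rw [← h0]
    simp only [ps_zero]
    simp
  · have hb1 : 1 < b := by omega
    set k := Int.log b x with hk
    have hpk : 0 < (b : ℝ) ^ k := by positivity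
    set m := x / (b : ℝ) ^ k with hm
    have hm1 : 1 ≤ m := by
      rw [hm, one_le_div hpk]
      exact Int.zpow_log_le_self hb1 h0
    have hmb : m ≤ b := by
      rw [hm, div_le_iff₀ hpk, mul_comm, ← zpow_add_one₀ hb0]
      exact (Int.lt_zpow_succ_log_self hb1 x).le
    have ha := ps_anti b hb x h0
    rw [← intervalIntegral.integral_add_adjacent_intervals (b := m)
      ha.intervalIntegrable ha.intervalIntegrable]
    have e1 : ∫ l in (1 : ℝ)..m, psi b l x = ∫ _ in (1 : ℝ)..m, (b : ℝ) ^ k := by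
      apply intervalIntegral.integral_congr
      intro l hl
      rw [Set.uIcc_of_le hm1] at hl
      simp only
      rw [ps_form b l x h0, if_pos hl.2]
    have e2 : ∫ l in m..(b : ℝ), psi b l x = ∫ _ in m..(b : ℝ), (b : ℝ) ^ (k - 1) := by
      apply intervalIntegral.integral_congr_ae
      refine Filter.Eventually.of_forall fun l hl => ?_
      rw [Set.uIoc_of_le hmb] at hl
      rw [ps_form b l x h0, if_neg (not_le.2 hl.1)]
    rw [e1, e2, intervalIntegral.integral_const, intervalIntegral.integral_const, smul_eq_mul,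
      smul_eq_mul, zpow_sub_one₀ hb0]
    have hx2 : x = m * (b : ℝ) ^ k := (div_mul_cancel₀ _ hpk.ne').symm
    rw [hx2]
    field_simp
    ring

end Pool.Agent.Work.MP_1a5986_lc.WO
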