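import Pool.Agent.Work.MP_1a5986_lc.WO.Defs

/-! Definition for the rounding modules (FIXED). -/

set_option autoImplicit false

namespace Pool.Agent.Work.MP_1a5986_lc.WO

open Classical in
/-- The number of the three results of the match of `i` and `j` that have positive probability. -/
noncomputable def cnt {n : ℕ} (p : Fin n → Fin n → ℝ) (i j : Fin n) : ℕ :=
  (if 0 < p i j then 1 else 0) + (if 0 < p j i then 1 else 0) + (if p i j + p j i < 1 then 1 else 0)

end Pool.Agent.Work.MP_1a5986_lc.WO
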