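import Mathlib

/-!
MODULE RoundL (M).  MP_1a5986_lc, board modsoc.  The rounding lemma (pure combinatorics).

Every edge `e` has an owner `o e` (injective) and a parent `q e`; for each of the two signs it gives the
errors `α` at the owner and `β` at the parent, of opposite signs and of absolute value `< B`.

Proof. Claim for every finset `A` of edges, by induction on its cardinality: there is `σ` with
`|x v + ∑ e ∈ A with o e = v, α e (σ e) + ∑ e ∈ A with q e = v, β e (σ e)| < B` for all `v`. `A = ∅`: `hx`.
Case 1: some `e ∈ A` has `o e ≠ q e'` for all `e' ∈ A`. Take `σ` for `A \ {e}`, let `y` be the total at `q e`,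
and put `σ e = false` if `0 ≤ y`, `true` otherwise: the new total `y + β e (σ e)` at `q e` is in `(-B, B)`
(and `q e ≠ o e`). At `o e` the old total is `0` (`hxo`, `ho`, no child), the new one is `α e (σ e)`.
Case 2: every `o e`, `e ∈ A`, is in `q '' A`. As `o` is injective, `|o '' A| = |A| ≥ |q '' A|`, so
`q '' A = o '' A` and `q` is injective on `A`. Let `σ = true`: at `v = o e` there are exactly one owner term in
`(-B, 0]` and one parent term in `[0, B)`, and `x v = 0`; elsewhere there are no terms.
-/

set_option autoImplicit false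

namespace Pool.Agent.Work.MP_1a5986_lc.WO

private theorem round_aux {V E : Type} [DecidableEq V] [DecidableEq E] (B : ℝ)
    (o q : E → V) (ho : Function.Injective o) (α β : E → Bool → ℝ)
    (hα1 : ∀ e, -B < α e true ∧ α e true ≤ 0) (hβ1 : ∀ e, 0 ≤ β e true ∧ β e true < B)
    (hα2 : ∀ e, 0 ≤ α e false ∧ α e false < B) (hβ2 : ∀ e, -B < β e false ∧ β e false ≤ 0)
    (x : V → ℝ) (hx : ∀ v, |x v| < B) (hxo : ∀ e, x (o e) = 0) (n : ℕ) :
    ∀ A : Finset E, A.card = n → ∃ σ : E → Bool, ∀ v,
      |x v + (∑ e ∈ A, if o e = v then α e (σ e) else 0) +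
        ∑ e ∈ A, if q e = v then β e (σ e) else 0| < B := by
  induction n with
  | zero =>
    intro A hA
    rw [Finset.card_eq_zero] at hA
    subst hA
    refine ⟨fun _ => true, fun v => ?_⟩
    rw [Finset.sum_empty, Finset.sum_empty, add_zero, add_zero]
    exact hx v
  | succ n ih =>
    intro A hA
    by_cases hc : ∃ e ∈ A, ∀ e' ∈ A, q e' ≠ o e
    · obtain ⟨e, heA, he⟩ := hc
      obtain ⟨σ', hσ'⟩ := ih (A.erase e) (by rw [Finset.card_erase_of_mem heA, hA]; rfl)
      obtain ⟨y, hy⟩ : ∃ y, y = x (q e) +
          (∑ e' ∈ A.erase e, if o e' = q e then α e' (σ' e') else 0) +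
          ∑ e' ∈ A.erase e, if q e' = q e then β e' (σ' e') else 0 := ⟨_, rfl⟩
      have hyB : |y| < B := by rw [hy]; exact hσ' (q e)
      obtain ⟨b, hb⟩ : ∃ b : Bool, |y + β e b| < B := by
        rw [abs_lt] at hyB
        rcases le_or_gt 0 y with h0 | h0
        · refine ⟨false, abs_lt.mpr ⟨?_, ?_⟩⟩
          · have := (hβ2 e).1; linarith
          · have := (hβ2 e).2; linarith
        · refine ⟨true, abs_lt.mpr ⟨?_, ?_⟩⟩
          · have := (hβ1 e).1; linarith
          · have := (hβ1 e).2; linarith
      have hBpos : 0 < B := lt_of_le_of_lt (abs_nonneg _) hyB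
      have hαb : |α e b| < B := by
        cases b
        · exact abs_lt.mpr ⟨by have := (hα2 e).1; linarith, (hα2 e).2⟩
        · exact abs_lt.mpr ⟨(hα1 e).1, by have := (hα1 e).2; linarith⟩
      refine ⟨Function.update σ' e b, fun v => ?_⟩
      rw [← Finset.add_sum_erase A _ heA, ← Finset.add_sum_erase A _ heA]
      have s1 : ∑ e' ∈ A.erase e, (if o e' = v then α e' (Function.update σ' e b e') else 0) =
          ∑ e' ∈ A.erase e, (if o e' = v then α e' (σ' e') else 0) := by
        refine Finset.sum_congr rfl fun e' he' => ?_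
        rw [Function.update_of_ne (Finset.ne_of_mem_erase he')]
      have s2 : ∑ e' ∈ A.erase e, (if q e' = v then β e' (Function.update σ' e b e') else 0) =
          ∑ e' ∈ A.erase e, (if q e' = v then β e' (σ' e') else 0) := by
        refine Finset.sum_congr rfl fun e' he' => ?_
        rw [Function.update_of_ne (Finset.ne_of_mem_erase he')]
      rw [s1, s2, Function.update_self]
      by_cases hvo : o e = v
      · subst hvo
        have hq : q e ≠ o e := he e heA
        have t1 : ∑ e' ∈ A.erase e, (if o e' = o e then α e' (σ' e') else 0) = 0 := by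
          refine Finset.sum_eq_zero fun e' he' => ?_
          rw [if_neg fun h => Finset.ne_of_mem_erase he' (ho h)]
        have t2 : ∑ e' ∈ A.erase e, (if q e' = o e then β e' (σ' e') else 0) = 0 := by
          refine Finset.sum_eq_zero fun e' he' => ?_
          rw [if_neg (he e' (Finset.mem_of_mem_erase he'))]
        rw [t1, t2, if_pos rfl, if_neg hq, hxo]
        simpa using hαb
      · by_cases hvq : q e = v
        · subst hvq
          rw [if_neg hvo, if_pos rfl, zero_add]
          have h1 : x (q e) + (∑ e' ∈ A.erase e, if o e' = q e then α e' (σ' e') else 0) +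
              (β e b + ∑ e' ∈ A.erase e, if q e' = q e then β e' (σ' e') else 0) =
              y + β e b := by
            rw [hy]; ring
          rw [h1]
          exact hb
        · rw [if_neg hvo, if_neg hvq, zero_add, zero_add]
          exact hσ' v
    · push Not at hc
      have hsub : A.image o ⊆ A.image q := by
        intro v hv
        obtain ⟨e, he, rfl⟩ := Finset.mem_image.mp hv
        obtain ⟨e', he', h⟩ := hc e he
        exact Finset.mem_image.mpr ⟨e', he', h⟩
      have hco : (A.image o).card = A.card := Finset.card_image_of_injective A ho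
      have hle : (A.image q).card ≤ (A.image o).card := by
        rw [hco]; exact Finset.card_image_le
      have heq : A.image o = A.image q := Finset.eq_of_subset_of_card_le hsub hle
      have hinj : Set.InjOn q A := by
        rw [← Finset.card_image_iff, ← heq, hco]
      refine ⟨fun _ => true, fun v => ?_⟩
      by_cases hv : v ∈ A.image o
      · have hv2 := hv
        rw [heq] at hv2
        obtain ⟨e, he, rfl⟩ := Finset.mem_image.mp hv
        obtain ⟨e', he', hqe⟩ := Finset.mem_image.mp hv2
        have t1 : ∑ e₁ ∈ A, (if o e₁ = o e then α e₁ true else 0) = α e true := by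
          rw [Finset.sum_eq_single e]
          · rw [if_pos rfl]
          · intro e₁ _ hne
            rw [if_neg fun h => hne (ho h)]
          · intro h
            exact absurd he h
        have t2 : ∑ e₁ ∈ A, (if q e₁ = o e then β e₁ true else 0) = β e' true := by
          rw [Finset.sum_eq_single e']
          · rw [if_pos hqe]
          · intro e₁ h₁ hne
            rw [if_neg fun h => hne (hinj h₁ he' (h.trans hqe.symm))]
          · intro h
            exact absurd he' h
        rw [t1, t2, hxo, zero_add, abs_lt]
        have a1 := hα1 e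
        have b1 := hβ1 e'
        constructor
        · linarith [a1.1, b1.1]
        · linarith [a1.2, b1.2]
      · have t1 : ∑ e₁ ∈ A, (if o e₁ = v then α e₁ true else 0) = 0 := by
          refine Finset.sum_eq_zero fun e' he' => ?_
          rw [if_neg fun h => hv (Finset.mem_image.mpr ⟨e', he', h⟩)]
        have t2 : ∑ e₁ ∈ A, (if q e₁ = v then β e₁ true else 0) = 0 := by
          refine Finset.sum_eq_zero fun e' he' => ?_
          rw [heq] at hv
          rw [if_neg fun h => hv (Finset.mem_image.mpr ⟨e', he', h⟩)]
        rw [t1, t2, add_zero, add_zero]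
        exact hx v

theorem round_signs {V E : Type} [DecidableEq V] [Fintype E] [DecidableEq E] (B : ℝ)
    (o q : E → V) (ho : Function.Injective o) (α β : E → Bool → ℝ)
    (hα1 : ∀ e, -B < α e true ∧ α e true ≤ 0) (hβ1 : ∀ e, 0 ≤ β e true ∧ β e true < B)
    (hα2 : ∀ e, 0 ≤ α e false ∧ α e false < B) (hβ2 : ∀ e, -B < β e false ∧ β e false ≤ 0)
    (x : V → ℝ) (hx : ∀ v, |x v| < B) (hxo : ∀ e, x (o e) = 0) :
    ∃ σ : E → Bool, ∀ v,
      |x v + (∑ e with o e = v, α e (σ e)) + ∑ e with q e = v, β e (σ e)| < B := by
  obtain ⟨σ, hσ⟩ := round_aux B o q ho α β hα1 hβ1 hα2 hβ2 x hx hxo _ Finset.univ rfl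
  refine ⟨σ, fun v => ?_⟩
  rw [Finset.sum_filter, Finset.sum_filter]
  exact hσ v

end Pool.Agent.Work.MP_1a5986_lc.WO
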