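import Pool.Agent.Work.MP_1a5986_lc.WO.Own
import Pool.Agent.Work.MP_1a5986_lc.WO.Opt
import Pool.Agent.Work.MP_1a5986_lc.WO.RoundL

/-!
MODULE RoundM (M-L).  MP_1a5986_lc, board modsoc.  Assembly of the rounding.

Let `E` be the type of the ordered pairs `(i, j)` with `Adj i j`, `cnt p i j = 2` and `o i j = i` (owner
`i`, parent `j`); `e ↦ e.1` is injective by the last property of `o`. For `e = (i, j) ∈ E` exactly one of
`p i j`, `p j i`, `1 - p i j - p j i` is not positive (so it is `0`): take `r e : Bool → Res` from `opt` with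
`u = p i j`, `v = p j i`, and `α e s = val b (r e s) - (b u - v)`, `β e s = val b (r e s).swap - (b v - u)`.
Let `x v = -(b p v j - p j v)` if there is `j` with `Adj v j` and `cnt p v j = 3` (unique), else `0`; in the first
case `p v j, p j v > 0`, `p v j + p j v < 1`, so `|x v| < b` (`1 ≤ b`). If `v = e.1` with `e ∈ E` there is no
such `j` (it would be `e.2`, but `cnt` is `2` there), so `x v = 0`. `round_signs` with `B = b` gives `σ`.
Tournament `T`: for non adjacent `i, j` a draw; for `Adj i j`: `cnt = 2`: `r (i,j) (σ (i,j))` if `o i j = i`, and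
`(r (j,i) (σ (j,i))).swap` if `o i j = j`; `cnt = 3`: draw; `cnt = 1`: `win` if `0 < p i j`, `loss` if `0 < p j i`, else
`draw` (one of the three has probability `1`). For every `v`,
`netT G b T v - t v = ∑_j [Adj v j] (val b (T.res v j) - (b p v j - p j v))`; the terms with `cnt = 1` vanish,
those with `cnt = 3` have sum `x v`, those with `cnt = 2` and `o v j = v` are the `α` of edges with `e.1 = v`,
the others are the `β` of edges with `e.2 = v`. So the integer `netT - t v` has absolute value `< b`.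
-/

set_option autoImplicit false

namespace Pool.Agent.Work.MP_1a5986_lc.WO

open Pool.Agent.Work.MP_1a5986_lc

variable {n : ℕ}

private theorem sum_left (Pr : Fin n × Fin n → Prop) [Fintype {e // Pr e}]
    (f : {e // Pr e} → ℝ) (v : Fin n)
    [∀ j, Decidable (Pr (v, j))] :
    (∑ e : {e // Pr e} with e.1.1 = v, f e)
      = ∑ j, if h : Pr (v, j) then f ⟨(v, j), h⟩ else 0 := by
  classical
  let F : Fin n × Fin n → ℝ := fun x => if h : Pr x then f ⟨x, h⟩ else 0
  have h1 : (∑ e : {e // Pr e} with e.1.1 = v, f e)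
      = ∑ e : {e // Pr e}, (if e.1.1 = v then F e.1 else 0) := by
    rw [Finset.sum_filter]
    refine Finset.sum_congr rfl fun e _ => ?_
    have : F e.1 = f e := dif_pos e.2
    rw [this]
  have h2 : ∑ e : {e // Pr e}, (if e.1.1 = v then F e.1 else 0)
      = ∑ x ∈ Finset.univ.filter Pr, (if x.1 = v then F x else 0) :=
    (Finset.sum_subtype (Finset.univ.filter Pr) (fun x => by simp)
      (fun x : Fin n × Fin n => if x.1 = v then F x else 0)).symm
  have h3 : ∑ x ∈ Finset.univ.filter Pr, (if x.1 = v then F x else 0)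
      = ∑ x : Fin n × Fin n, (if x.1 = v then F x else 0) := by
    refine Finset.sum_subset (Finset.filter_subset _ _) ?_
    intro x _ hx
    have hx' : ¬ Pr x := fun h => hx (Finset.mem_filter.2 ⟨Finset.mem_univ _, h⟩)
    have : F x = 0 := dif_neg hx'
    rw [this]
    split_ifs <;> rfl
  rw [h1, h2, h3, Fintype.sum_prod_type]
  rw [Finset.sum_eq_single v]
  · refine Finset.sum_congr rfl fun j _ => ?_
    rw [if_pos rfl]
    by_cases hj : Pr (v, j)
    · rw [dif_pos hj]; exact dif_pos hj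
    · rw [dif_neg hj]; exact dif_neg hj
  · intro i _ hi
    refine Finset.sum_eq_zero fun j _ => ?_
    rw [if_neg hi]
  · intro h
    exact absurd (Finset.mem_univ _) h

private theorem sum_right (Pr : Fin n × Fin n → Prop) [Fintype {e // Pr e}]
    (f : {e // Pr e} → ℝ) (v : Fin n)
    [∀ j, Decidable (Pr (j, v))] :
    (∑ e : {e // Pr e} with e.1.2 = v, f e)
      = ∑ j, if h : Pr (j, v) then f ⟨(j, v), h⟩ else 0 := by
  classical
  let F : Fin n × Fin n → ℝ := fun x => if h : Pr x then f ⟨x, h⟩ else 0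
  have h1 : (∑ e : {e // Pr e} with e.1.2 = v, f e)
      = ∑ e : {e // Pr e}, (if e.1.2 = v then F e.1 else 0) := by
    rw [Finset.sum_filter]
    refine Finset.sum_congr rfl fun e _ => ?_
    have : F e.1 = f e := dif_pos e.2
    rw [this]
  have h2 : ∑ e : {e // Pr e}, (if e.1.2 = v then F e.1 else 0)
      = ∑ x ∈ Finset.univ.filter Pr, (if x.2 = v then F x else 0) :=
    (Finset.sum_subtype (Finset.univ.filter Pr) (fun x => by simp)
      (fun x : Fin n × Fin n => if x.2 = v then F x else 0)).symm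
  have h3 : ∑ x ∈ Finset.univ.filter Pr, (if x.2 = v then F x else 0)
      = ∑ x : Fin n × Fin n, (if x.2 = v then F x else 0) := by
    refine Finset.sum_subset (Finset.filter_subset _ _) ?_
    intro x _ hx
    have hx' : ¬ Pr x := fun h => hx (Finset.mem_filter.2 ⟨Finset.mem_univ _, h⟩)
    have : F x = 0 := dif_neg hx'
    rw [this]
    split_ifs <;> rfl
  rw [h1, h2, h3, Fintype.sum_prod_type]
  refine Finset.sum_congr rfl fun j _ => ?_
  rw [Finset.sum_eq_single v]
  · rw [if_pos rfl]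
    by_cases hj : Pr (j, v)
    · rw [dif_pos hj]; exact dif_pos hj
    · rw [dif_neg hj]; exact dif_neg hj
  · intro i _ hi
    rw [if_neg hi]
  · intro h
    exact absurd (Finset.mem_univ _) h

private theorem cnt_symm' (p : Fin n → Fin n → ℝ) (i j : Fin n) : cnt p i j = cnt p j i := by
  unfold cnt
  rw [add_comm (p i j) (p j i)]
  omega

private theorem cnt_two {p : Fin n → Fin n → ℝ} (hp : Mixed p) {i j : Fin n} (hij : i ≠ j)
    (h : cnt p i j = 2) :
    (p j i = 0 ∧ 0 < p i j ∧ p i j < 1) ∨ (p i j = 0 ∧ 0 < p j i ∧ p j i < 1) ∨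
      (p i j + p j i = 1 ∧ 0 < p i j ∧ p i j < 1) := by
  have h1 := hp.nonneg i j
  have h2 := hp.nonneg j i
  have h3 := hp.add_le i j hij
  unfold cnt at h
  split_ifs at h with a1 a2 a3
  · omega
  · right; right
    exact ⟨le_antisymm h3 (not_lt.1 a3), a1, by linarith⟩
  · left
    have : p j i = 0 := le_antisymm (not_lt.1 a2) h2
    exact ⟨this, a1, by linarith⟩
  · omega
  · right; left
    have : p i j = 0 := le_antisymm (not_lt.1 a1) h1
    exact ⟨this, by assumption, by linarith⟩
  · omega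
  · omega
  · omega

private theorem cnt_three {p : Fin n → Fin n → ℝ} {i j : Fin n} (h : cnt p i j = 3) :
    0 < p i j ∧ 0 < p j i ∧ p i j + p j i < 1 := by
  unfold cnt at h
  split_ifs at h with a1 a2 a3
  all_goals first | omega | exact ⟨a1, a2, a3⟩

private theorem cnt_one {p : Fin n → Fin n → ℝ} (hp : Mixed p) {i j : Fin n} (hij : i ≠ j)
    (h2' : cnt p i j ≠ 2) (h3' : cnt p i j ≠ 3) :
    (p i j = 1 ∧ p j i = 0) ∨ (p i j = 0 ∧ p j i = 1) ∨ (p i j = 0 ∧ p j i = 0) := by
  have h1 := hp.nonneg i j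
  have h2 := hp.nonneg j i
  have h3 := hp.add_le i j hij
  unfold cnt at h2' h3'
  split_ifs at h2' h3' with a1 a2 a3 a3 a2 a3 a3
  · omega
  · omega
  · omega
  · left
    have e1 : p j i = 0 := le_antisymm (not_lt.1 a2) h2
    exact ⟨by linarith, e1⟩
  · omega
  · right; left
    have e1 : p i j = 0 := le_antisymm (not_lt.1 a1) h1
    exact ⟨e1, by linarith⟩
  · right; right
    exact ⟨le_antisymm (not_lt.1 a1) h1, le_antisymm (not_lt.1 a2) h2⟩
  · exfalso; linarith

theorem round_main (G : SimpleGraph (Fin n)) (b : ℕ) (hb : 1 ≤ b) (t : Fin n → ℤ)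
    (p : Fin n → Fin n → ℝ) (hp : Mixed p) (hnet : ∀ i, net G b p i = t i)
    (o : Fin n → Fin n → Fin n) (ho : ∀ i j, o i j = o j i)
    (ho2 : ∀ i j, G.Adj i j → cnt p i j = 2 → o i j = i ∨ o i j = j)
    (ho3 : ∀ v j j', G.Adj v j → G.Adj v j' →
        (cnt p v j = 3 ∨ (cnt p v j = 2 ∧ o v j = v)) →
        (cnt p v j' = 3 ∨ (cnt p v j' = 2 ∧ o v j' = v)) → j = j') :
    ∃ T : Tournament (Fin n), ∀ i, |netT G b T i - t i| < b := by
  classical
  have hbR : (1 : ℝ) ≤ b := by exact_mod_cast hb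
  let Pr : Fin n × Fin n → Prop := fun e => G.Adj e.1 e.2 ∧ cnt p e.1 e.2 = 2 ∧ o e.1 e.2 = e.1
  let E := {e : Fin n × Fin n // Pr e}
  have hr : ∀ e : E, ∃ r : Bool → Res,
      (-(b : ℝ) < (val b (r true) : ℝ) - (b * p e.1.1 e.1.2 - p e.1.2 e.1.1) ∧
        (val b (r true) : ℝ) - (b * p e.1.1 e.1.2 - p e.1.2 e.1.1) ≤ 0) ∧
      (0 ≤ (val b (r true).swap : ℝ) - (b * p e.1.2 e.1.1 - p e.1.1 e.1.2) ∧
        (val b (r true).swap : ℝ) - (b * p e.1.2 e.1.1 - p e.1.1 e.1.2) < b) ∧
      (0 ≤ (val b (r false) : ℝ) - (b * p e.1.1 e.1.2 - p e.1.2 e.1.1) ∧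
        (val b (r false) : ℝ) - (b * p e.1.1 e.1.2 - p e.1.2 e.1.1) < b) ∧
      (-(b : ℝ) < (val b (r false).swap : ℝ) - (b * p e.1.2 e.1.1 - p e.1.1 e.1.2) ∧
        (val b (r false).swap : ℝ) - (b * p e.1.2 e.1.1 - p e.1.1 e.1.2) ≤ 0) := by
    intro e
    exact opt b hb _ _ (hp.nonneg _ _) (hp.nonneg _ _) (hp.add_le _ _ e.2.1.ne)
      (cnt_two hp e.2.1.ne e.2.2.1)
  choose r hr1 hr2 hr3 hr4 using hr
  let α : E → Bool → ℝ := fun e s => (val b (r e s) : ℝ) - (b * p e.1.1 e.1.2 - p e.1.2 e.1.1)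
  let β : E → Bool → ℝ := fun e s =>
    (val b (r e s).swap : ℝ) - (b * p e.1.2 e.1.1 - p e.1.1 e.1.2)
  let x : Fin n → ℝ := fun v =>
    ∑ j, if G.Adj v j ∧ cnt p v j = 3 then 0 - (b * p v j - p j v) else 0
  have hxz : ∀ v, (∀ j, ¬ (G.Adj v j ∧ cnt p v j = 3)) → x v = 0 := by
    intro v hv
    refine Finset.sum_eq_zero fun j _ => ?_
    rw [if_neg (hv j)]
  have hx : ∀ v, |x v| < (b : ℝ) := by
    intro v
    by_cases hv : ∃ j, G.Adj v j ∧ cnt p v j = 3
    · obtain ⟨j, hj1, hj2⟩ := hv
      have hxv : x v = 0 - (b * p v j - p j v) := by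
        change (∑ j, if G.Adj v j ∧ cnt p v j = 3 then 0 - (b * p v j - p j v) else 0) = _
        rw [Finset.sum_eq_single j]
        · rw [if_pos ⟨hj1, hj2⟩]
        · intro k _ hk
          rw [if_neg]
          rintro ⟨hk1, hk2⟩
          exact hk (ho3 v k j hk1 hj1 (Or.inl hk2) (Or.inl hj2))
        · intro h
          exact absurd (Finset.mem_univ _) h
      obtain ⟨a1, a2, a3⟩ := cnt_three hj2
      rw [hxv, abs_lt]
      constructor
      · nlinarith
      · nlinarith
    · push Not at hv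
      rw [hxz v (fun j hj => hv j hj.1 hj.2), abs_zero]
      linarith
  have hxo : ∀ e : E, x e.1.1 = 0 := by
    intro e
    refine hxz _ ?_
    rintro j ⟨hj1, hj2⟩
    have := ho3 e.1.1 j e.1.2 hj1 e.2.1 (Or.inl hj2) (Or.inr e.2.2)
    rw [this] at hj2
    have h2 := e.2.2.1
    omega
  have hinj : Function.Injective (fun e : E => e.1.1) := by
    intro e e' h
    have h' : e.1.1 = e'.1.1 := h
    have h1 : e.1.2 = e'.1.2 := by
      refine ho3 e.1.1 e.1.2 e'.1.2 e.2.1 ?_ (Or.inr e.2.2) (Or.inr ?_)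
      · rw [h']; exact e'.2.1
      · rw [h']; exact e'.2.2
    exact Subtype.ext (Prod.ext h' h1)
  obtain ⟨σ, hσ⟩ := round_signs (V := Fin n) (E := E) (b : ℝ) (fun e => e.1.1) (fun e => e.1.2)
    hinj α β hr1 hr2 hr3 hr4 x hx hxo
  let R : Fin n → Fin n → Res := fun i j =>
    if h : Pr (i, j) then r ⟨(i, j), h⟩ (σ ⟨(i, j), h⟩) else Res.draw
  let res : Fin n → Fin n → Res := fun i j =>
    if G.Adj i j then
      (if cnt p i j = 2 then (if o i j = i then R i j else (R j i).swap)
        else if cnt p i j = 3 then Res.draw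
        else if 0 < p i j then Res.win else if 0 < p j i then Res.loss else Res.draw)
    else Res.draw
  have hss : ∀ q : Res, q.swap.swap = q := by
    intro q
    cases q <;> rfl
  have hres : ∀ i j, i ≠ j → res j i = (res i j).swap := by
    intro i j hij
    by_cases hadj : G.Adj i j
    · change (if G.Adj j i then _ else _) = (if G.Adj i j then _ else _ : Res).swap
      rw [if_pos hadj, if_pos hadj.symm, cnt_symm' p j i]
      by_cases hc2 : cnt p i j = 2
      · rw [if_pos hc2, if_pos hc2, ho j i]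
        by_cases hoi : o i j = i
        · rw [if_pos hoi, if_neg (by rw [hoi]; exact hij)]
        · have hoj : o i j = j := (ho2 i j hadj hc2).resolve_left hoi
          rw [if_neg hoi, if_pos hoj, hss]
      · rw [if_neg hc2, if_neg hc2]
        by_cases hc3 : cnt p i j = 3
        · rw [if_pos hc3, if_pos hc3]; rfl
        · rw [if_neg hc3, if_neg hc3]
          rcases cnt_one hp hij hc2 hc3 with ⟨h1, h2⟩ | ⟨h1, h2⟩ | ⟨h1, h2⟩
          · rw [h1, h2]; norm_num [Res.swap]
          · rw [h1, h2]; norm_num [Res.swap]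
          · rw [h1, h2]; norm_num [Res.swap]
    · have hadj' : ¬ G.Adj j i := fun h => hadj h.symm
      change (if G.Adj j i then _ else _) = (if G.Adj i j then _ else _ : Res).swap
      rw [if_neg hadj, if_neg hadj']
      rfl
  refine ⟨⟨res, hres⟩, ?_⟩
  intro v
  have hterm : ∀ j, (if G.Adj v j then (val b (res v j) : ℝ) - (b * p v j - p j v) else 0)
      = (if G.Adj v j ∧ cnt p v j = 3 then 0 - (b * p v j - p j v) else 0)
        + (if h : Pr (v, j) then α ⟨(v, j), h⟩ (σ ⟨(v, j), h⟩) else 0)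
        + (if h : Pr (j, v) then β ⟨(j, v), h⟩ (σ ⟨(j, v), h⟩) else 0) := by
    intro j
    by_cases hadj : G.Adj v j
    · have hvj : v ≠ j := hadj.ne
      rw [if_pos hadj]
      have hres1 : res v j = (if cnt p v j = 2 then (if o v j = v then R v j else (R j v).swap)
        else if cnt p v j = 3 then Res.draw
        else if 0 < p v j then Res.win else if 0 < p j v then Res.loss else Res.draw) :=
        if_pos hadj
      by_cases hc2 : cnt p v j = 2
      · rw [if_pos hc2] at hres1
        rw [if_neg (show ¬ (G.Adj v j ∧ cnt p v j = 3) by rintro ⟨_, h⟩; omega)]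
        by_cases hov : o v j = v
        · have hPr : Pr (v, j) := ⟨hadj, hc2, hov⟩
          have hPr' : ¬ Pr (j, v) := by
            rintro ⟨_, _, h⟩
            have h' : o j v = j := h
            rw [← ho v j, hov] at h'
            exact hvj h'
          rw [if_pos hov] at hres1
          have hR : R v j = r ⟨(v, j), hPr⟩ (σ ⟨(v, j), hPr⟩) := dif_pos hPr
          rw [dif_pos hPr, dif_neg hPr', hres1, hR]
          change _ = 0 + ((val b (r ⟨(v, j), hPr⟩ (σ ⟨(v, j), hPr⟩)) : ℝ) - (b * p v j - p j v)) + 0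
          ring
        · have hoj : o v j = j := (ho2 v j hadj hc2).resolve_left hov
          have hPr : Pr (j, v) := ⟨hadj.symm, by rw [← cnt_symm' p v j]; exact hc2,
            by rw [← ho v j]; exact hoj⟩
          have hPr' : ¬ Pr (v, j) := by
            rintro ⟨_, _, h⟩
            exact hov h
          rw [if_neg hov] at hres1
          have hR : R j v = r ⟨(j, v), hPr⟩ (σ ⟨(j, v), hPr⟩) := dif_pos hPr
          rw [dif_pos hPr, dif_neg hPr', hres1, hR]
          change _ = 0 + 0
            + ((val b (r ⟨(j, v), hPr⟩ (σ ⟨(j, v), hPr⟩)).swap : ℝ) - (b * p v j - p j v))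
          ring
      · have hPr1 : ¬ Pr (v, j) := fun h => hc2 h.2.1
        have hPr2 : ¬ Pr (j, v) := fun h => hc2 (by
          have := h.2.1
          rw [cnt_symm' p v j]
          exact this)
        rw [if_neg hc2] at hres1
        rw [dif_neg hPr1, dif_neg hPr2]
        by_cases hc3 : cnt p v j = 3
        · rw [if_pos hc3] at hres1
          rw [hres1, if_pos ⟨hadj, hc3⟩]
          simp [val]
        · rw [if_neg hc3] at hres1
          rw [if_neg (show ¬ (G.Adj v j ∧ cnt p v j = 3) by rintro ⟨_, h⟩; exact hc3 h), hres1]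
          rcases cnt_one hp hvj hc2 hc3 with ⟨h1, h2⟩ | ⟨h1, h2⟩ | ⟨h1, h2⟩
          · rw [h1, h2]; norm_num [val]
          · rw [h1, h2]; norm_num [val]
          · rw [h1, h2]; norm_num [val]
    · have hPr1 : ¬ Pr (v, j) := fun h => hadj h.1
      have hPr2 : ¬ Pr (j, v) := fun h => hadj (SimpleGraph.Adj.symm h.1)
      rw [if_neg hadj, dif_neg hPr1, dif_neg hPr2, if_neg (fun h => hadj h.1)]
      ring
  have hsum : ((netT G b ⟨res, hres⟩ v - t v : ℤ) : ℝ)
      = x v + (∑ e : E with e.1.1 = v, α e (σ e)) + ∑ e : E with e.1.2 = v, β e (σ e) := by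
    have hL : (∑ e : E with e.1.1 = v, α e (σ e))
        = ∑ j, (if h : Pr (v, j) then α ⟨(v, j), h⟩ (σ ⟨(v, j), h⟩) else 0) := by
      exact @sum_left n Pr _ (fun e => α e (σ e)) v _
    have hR' : (∑ e : E with e.1.2 = v, β e (σ e))
        = ∑ j, (if h : Pr (j, v) then β ⟨(j, v), h⟩ (σ ⟨(j, v), h⟩) else 0) := by
      exact @sum_right n Pr _ (fun e => β e (σ e)) v _
    rw [hL, hR']
    rw [← Finset.sum_add_distrib, ← Finset.sum_add_distrib,
      ← Finset.sum_congr rfl (fun j _ => hterm j)]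
    push_cast
    rw [← hnet v]
    unfold netT net
    push_cast
    rw [← Finset.sum_sub_distrib]
    refine Finset.sum_congr rfl fun j _ => ?_
    split_ifs
    · rfl
    · simp
  have h1 := hσ v
  have h2 : |((netT G b ⟨res, hres⟩ v - t v : ℤ) : ℝ)| < (b : ℝ) := by
    rw [hsum]
    exact h1
  have h3 : ((|netT G b ⟨res, hres⟩ v - t v| : ℤ) : ℝ) < ((b : ℤ) : ℝ) := by
    rw [Int.cast_abs]
    exact_mod_cast h2
  exact_mod_cast h3

end Pool.Agent.Work.MP_1a5986_lc.WO
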