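import Pool.Agent.Work.MP_1a5986_lc.WO.TabData

/-!
MODULE Table (S-M).  MP_1a5986_lc, board modsoc.  Small tournaments with net scores 1, 2, 3.

The checks `t9, t10, c9, c10` are proved (do not change). Given `p + q + r = m` take the entry `e` of the table with
`e.1 = p`, `e.2.1 = q` and `T.res i j = tabRes m e.2.2 i j`; `res_swap` by cases `i < j`, `j < i`
(`Res.swap` is an involution); the sum over `Fin m` is the sum of the list (`okEntry`,
`List.all_eq_true`, `List.mem_range`, `Fin.sum_univ_eq_sum_range` or `List.sum_ofFn`); for `j = i` the term is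
`val 2 .draw = 0`.
-/

set_option autoImplicit false

namespace Pool.Agent.Work.MP_1a5986_lc.WO

open Pool.Agent.Work.MP_1a5986_lc

theorem t9 : tab9.all (okEntry 9) = true := by decide +kernel

theorem t10 : tab10.all (okEntry 10) = true := by decide +kernel

theorem c9 : ∀ p < 10, ∀ q < 10, p + q ≤ 9 → ∃ e ∈ tab9, e.1 = p ∧ e.2.1 = q := by
  decide +kernel

theorem c10 : ∀ p < 11, ∀ q < 11, p + q ≤ 10 → ∃ e ∈ tab10, e.1 = p ∧ e.2.1 = q := by
  decide +kernel

private theorem swap_swap (r : Res) : r.swap.swap = r := by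
  cases r <;> rfl

/-- The tournament with the number `N`. -/
private def tabT (m N : ℕ) : Tournament (Fin m) where
  res i j := tabRes m N i j
  res_swap i j hij := by
    have h : (i : ℕ) ≠ j := fun e => hij (Fin.ext e)
    unfold tabRes
    rcases lt_or_gt_of_ne h with h1 | h1
    · have h2 : ¬ (j : ℕ) < i := by omega
      simp [h1, h2]
    · have h2 : ¬ (i : ℕ) < j := by omega
      simp [h1, h2, swap_swap]

private theorem table_aux (m : ℕ) (e : ℕ × ℕ × ℕ) (h : okEntry m e = true) (i : Fin m) :
    (∑ j, if i ≠ j then val 2 ((tabT m e.2.2).res i j) else 0)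
      = if (i : ℕ) < e.1 then 1 else if (i : ℕ) < e.1 + e.2.1 then 2 else 3 := by
  simp only [okEntry, List.all_eq_true, List.mem_range, decide_eq_true_eq] at h
  have h1 := h i i.2
  rw [← h1]
  have h2 : ((List.range m).map fun j => val 2 (tabRes m e.2.2 i j)).sum
      = ∑ j : Fin m, val 2 (tabRes m e.2.2 i j) := by
    rw [Fin.sum_univ_eq_sum_range (fun j => val 2 (tabRes m e.2.2 i j)) m]
    rfl
  rw [h2]
  refine Finset.sum_congr rfl fun j _ => ?_
  by_cases hij : i = j
  · subst hij
    simp [tabRes, val]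
  · simp [hij, tabT]

theorem table (m : ℕ) (hm : m = 9 ∨ m = 10) (p q r : ℕ) (h : p + q + r = m) :
    ∃ T : Tournament (Fin m), ∀ i : Fin m,
      (∑ j, if i ≠ j then val 2 (T.res i j) else 0)
        = if (i : ℕ) < p then 1 else if (i : ℕ) < p + q then 2 else 3 := by
  rcases hm with rfl | rfl
  · obtain ⟨e, he, rfl, rfl⟩ := c9 p (by omega) q (by omega) (by omega)
    exact ⟨tabT 9 e.2.2, table_aux 9 e (List.all_eq_true.1 t9 e he)⟩
  · obtain ⟨e, he, rfl, rfl⟩ := c10 p (by omega) q (by omega) (by omega)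
    exact ⟨tabT 10 e.2.2, table_aux 10 e (List.all_eq_true.1 t10 e he)⟩

end Pool.Agent.Work.MP_1a5986_lc.WO
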